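import Pool.Agent.Helper89.LX.Njs
import Pool.Agent.Helper42.NS.Hfb

/-! LEMMA NJ (LEAF sect. 4) for polynomial forms: the size of the form at the far point (Remez), NJ with the count at
the far point as hypothesis, robust systems. -/

namespace Pool.Agent.Helper89.LX

open Finset Filter Topology Matrix Pool.Agent.Helper69.RK Pool.Agent.Helper31.EC Pool.Agent.Helper40.EL
open Pool.Agent.Helper95.LF (PdM NearM round_mat values_card)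
open Pool.Agent.Helper3.LF

noncomputable section

variable {S : Sp} {m : ℕ} (s : Sys S m)

/-- closeness on the cells of the condition -/
theorem cAs_close (c : ℝ) (k : ℕ) (ω ω' : (S.F k).Ω) (h : cAs s c k ω' ω) :
    (∀ i, |s.a.v k ω' i - s.a.v k ω i| ≤ S.dl 1 k) ∧ (∀ i, |s.x.v k ω' i - s.x.v k ω i| ≤ S.dl 1 k) ∧
    |s.t.v k ω' 0 - s.t.v k ω 0| ≤ S.dl c k := by
  obtain ⟨⟨h1, h2⟩, h3⟩ := h
  exact ⟨fun i => s.a.cellv_close 1 k _ _ h1 i, fun i => s.x.cellv_close 1 k _ _ h2 i, s.t.cellv_close c k _ _ h3 0⟩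

/-- THE SIZE OF THE FORM AT THE FAR POINT -/
theorem far_phi {D : ℕ} {c₀ c' : ℝ} (h0 : 0 ≤ c₀) (h1 : c₀ < 1) {X : ∀ k, FD (S.F k) (Mon (m + 1) D)}
    (hX : (gau s D).Ad (cA s c₀) (cB s) X) (K : ∀ k, Setoid (X k).l.T.Ω) (hc : c' ≤ c₀) (η : ℝ) (hη : 0 < η)
    (hb : (2 * D : ℕ) * (c₀ - c') ≤ η / 2) : ∀ᶠ k in UF,
    (pam (X k).l (K k) (cAs s c' k)).sp.pb
      (fun w => ¬ sph s D k ((X k).l.p.π w.2) ((X k).g w.1) ≤ 2 ^ (η * (S.F k).n)) ≤ η := by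
  have hDM : DMc s c₀ (lb X) := Gau.Ad.dm (gau s D) hX
  have hcpd : ∀ᶠ k in UF, ∀ ω, (X k).l.T.μ ω ≠ 0 → Cpd ((gau s D).cp k) ((X k).g ω) := by
    filter_upwards [hX 1 one_pos] with k hk ω hω
    exact (hk.2.2.1 ω hω).1
  obtain ⟨K1, hK1, hT1⟩ := win_phi (s := s) h0 h1 (l := lb X) hDM (fun k => (X k).g)
    (by filter_upwards [hcpd] with k hk ω hω using (hk ω hω).pdM)
    (Eventually.of_forall fun k ω ω' a b c d => ((X k).meas ω ω' a b c d).1)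
    (c₀ - c') (by linarith) (fun _ => 1) (S.Sub_const zero_le_one)
  obtain ⟨K2, hK2, hT2⟩ := ad_sub hX
  obtain ⟨Kt, hKt, ht⟩ := s.t.bd
  have hT := typ_and hT1 hT2
  -- the subexponential factor
  have hC0 : (0 : ℝ) ≤ nn (m + 1) D * (Cu D * Cm (m + 1) D) ^ 2 := by
    have := nn_one (m + 1) D
    positivity
  have hsub : S.Sub (fun k => nn (m + 1) D * (Cu D * Cm (m + 1) D) ^ 2 * (Kt k + 2) ^ (2 * D) * (K1 k * K2 k)) :=
    ((S.Sub_const hC0).mul (Sub_powN (hKt.add (S.Sub_const zero_le_two)) _)).mul (hK1.mul hK2)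
  have hT' : Tendsto (fun k => (X k).l.T.pb (fun ω => ¬ ((∀ r, |r - s.t.v k ((X k).l.p.π ω) 0| ≤
      1 * S.dl (c₀ - (c₀ - c')) k → phi (S.dl 1 k) ((X k).g ω) (pl (s.a.v k ((X k).l.p.π ω))
      (s.x.v k ((X k).l.p.π ω)) r) ≤ K1 k * 2 ^ ((2 * D : ℕ) * (c₀ - c') * (S.F k).n) *
      sph s D k ((X k).l.p.π ω) ((X k).g ω)) ∧ sph s D k ((X k).l.p.π ω) ((X k).g ω) ≤ K2 k))) UF (𝓝 0) := hT
  filter_upwards [hT'.eventually (gt_mem_nhds hη), hcpd, ht, hKt.1, hK1.1, hK2.1,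
    hsub.eventually_le (show 0 < η / 2 by linarith)] with k a1 a2 a3 a4 a5 a6 a7
  have hn := (S.F k).pos
  have hd := S.dl_pos 1 k
  refine le_trans ?_ a1.le
  rw [← pb_push (pam (X k).l (K k) (cAs s c' k)).p1]
  apply FSp.pb_mono
  intro w hw hbad hE
  apply hbad
  obtain ⟨hE1, hE2⟩ := hE
  obtain ⟨w1, w2⟩ := w
  obtain ⟨hw1, hw2⟩ := pam_supp _ _ _ _ hw
  have hrel := (pam_rel _ _ _ _ hw).1.2
  obtain ⟨r1, r2, r3⟩ := cAs_close s c' k ((X k).l.p.π w1) ((X k).l.p.π w2) ((cAs s c' k).symm hrel)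
  have hμ2 := (X k).l.p.supp w2 hw2
  have hA := (a2 w1 hw1).pdM
  have e1 := hE1 (s.t.v k ((X k).l.p.π w2) 0) (by
    have : c₀ - (c₀ - c') = c' := by ring
    rw [one_mul, this]
    exact r3)
  have e2 := phi_comp ((X k).g w1) hA (S.dl 1 k) (S.dl 1 k) (Kt k + 2) hd hd.le (by linarith)
    (pl (s.a.v k ((X k).l.p.π w1)) (s.x.v k ((X k).l.p.π w1)) (s.t.v k ((X k).l.p.π w2) 0))
    (pl (s.a.v k ((X k).l.p.π w2)) (s.x.v k ((X k).l.p.π w2)) (s.t.v k ((X k).l.p.π w2) 0)) (fun i => by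
      have := pl_diff (s.a.v k ((X k).l.p.π w1)) (s.x.v k ((X k).l.p.π w1)) (s.a.v k ((X k).l.p.π w2))
        (s.x.v k ((X k).l.p.π w2)) (s.t.v k ((X k).l.p.π w2) 0) (S.dl 1 k) (Kt k) hd.le (a3 _ hμ2 0) r1 r2 i
      linarith)
  have e3 : sph s D k ((X k).l.p.π w2) ((X k).g w1) ≤ nn (m + 1) D * (Cu D * Cm (m + 1) D * (Kt k + 2) ^ D) ^ 2 *
      phi (S.dl 1 k) ((X k).g w1) (pl (s.a.v k ((X k).l.p.π w1)) (s.x.v k ((X k).l.p.π w1))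
        (s.t.v k ((X k).l.p.π w2) 0)) := e2
  have e4 : phi (S.dl 1 k) ((X k).g w1) (pl (s.a.v k ((X k).l.p.π w1)) (s.x.v k ((X k).l.p.π w1))
        (s.t.v k ((X k).l.p.π w2) 0)) ≤ K1 k * 2 ^ ((2 * D : ℕ) * (c₀ - c') * (S.F k).n) * K2 k :=
    e1.trans (mul_le_mul_of_nonneg_left hE2 (by positivity))
  have e5 : nn (m + 1) D * (Cu D * Cm (m + 1) D * (Kt k + 2) ^ D) ^ 2 =
      nn (m + 1) D * (Cu D * Cm (m + 1) D) ^ 2 * (Kt k + 2) ^ (2 * D) := by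
    rw [mul_pow, ← pow_mul]
    ring
  have e6 : 0 ≤ nn (m + 1) D * (Cu D * Cm (m + 1) D) ^ 2 * (Kt k + 2) ^ (2 * D) := by
    have := nn_one (m + 1) D
    positivity
  rw [e5] at e3
  have e7 := e3.trans (mul_le_mul_of_nonneg_left e4 e6)
  refine e7.trans ?_
  have e8 : (2 : ℝ) ^ ((2 * D : ℕ) * (c₀ - c') * (S.F k).n) ≤ 2 ^ (η / 2 * (S.F k).n) := by
    apply Real.rpow_le_rpow_of_exponent_le (by norm_num)
    exact mul_le_mul_of_nonneg_right hb hn.le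
  have e9 : (2 : ℝ) ^ (η * (S.F k).n) = 2 ^ (η / 2 * (S.F k).n) * 2 ^ (η / 2 * (S.F k).n) := by
    rw [← Real.rpow_add (by norm_num)]; congr 1; ring
  rw [e9]
  have e10 : nn (m + 1) D * (Cu D * Cm (m + 1) D) ^ 2 * (Kt k + 2) ^ (2 * D) *
      (K1 k * 2 ^ ((2 * D : ℕ) * (c₀ - c') * (S.F k).n) * K2 k) =
      (nn (m + 1) D * (Cu D * Cm (m + 1) D) ^ 2 * (Kt k + 2) ^ (2 * D) * (K1 k * K2 k)) *
        2 ^ ((2 * D : ℕ) * (c₀ - c') * (S.F k).n) := by ring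
  rw [e10]
  exact mul_le_mul (by linarith) e8 (by positivity) (by positivity)

/-- the count at the far point -/
def FarCount {D : ℕ} (c₀ : ℝ) (x : ∀ k, FD (S.F k) (Mon (m + 1) D)) : Prop :=
  ∀ η : ℝ, 0 < η → ∃ δ : ℝ, 0 < δ ∧ ∀ c', c₀ - δ < c' → c' < c₀ → 0 ≤ c' → ∀ l' : Lab S, IsKap s c' l' →
    ∀ᶠ k in UF, farE s x l' c' k ≤ nearE s x l' k + η * (S.F k).n

/-- LEMMA NJ for polynomial forms, with the count at the far point as hypothesis -/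
theorem NJ {D : ℕ} {c₀ : ℝ} (h0 : 0 ≤ c₀) (h1 : c₀ < 1) {x₀ : ∀ k, FD (S.F k) (Mon (m + 1) D)}
    (hx : (gau s D).Opt (cA s c₀) (cB s) x₀) {σ : ℝ} (hσ : Hf s D c₀ σ) (hcnt : FarCount s c₀ x₀)
    (ε : ℝ) (hε : 0 < ε) : ∃ δ : ℝ, 0 < δ ∧ ∀ c', c₀ - δ < c' → c' < c₀ → 0 ≤ c' →
      ∃ (l : Lab S) (E : ∀ k, (l.sp.F k).Ω → Prop) (hE : 0 < ul (l.sp.pr E)), Hf (s.im l.pj E hE) D c' (σ - ε) := by
  have hfar : ∀ η : ℝ, 0 < η → ∃ δ : ℝ, 0 < δ ∧ ∀ c', c₀ - δ < c' → c' < c₀ → 0 ≤ c' → ∀ l' : Lab S, IsKap s c' l' →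
      FarOK s (gau s D) x₀ l' c' η := by
    intro η hη
    obtain ⟨δ1, hδ1, hf1⟩ := hcnt η hη
    have hD : (0 : ℝ) < (2 * D : ℕ) + 1 := by positivity
    refine ⟨min δ1 (η / 2 / ((2 * D : ℕ) + 1)), lt_min hδ1 (by positivity), fun c' a1 a2 a3 l' hl' => ?_⟩
    have b1 : c₀ - δ1 < c' := by
      have := min_le_left δ1 (η / 2 / ((2 * D : ℕ) + 1))
      linarith
    have b2 : c₀ - c' ≤ η / 2 / ((2 * D : ℕ) + 1) := by
      have := min_le_right δ1 (η / 2 / ((2 * D : ℕ) + 1))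
      linarith
    have b3 : (2 * D : ℕ) * (c₀ - c') ≤ η / 2 := by
      rw [le_div_iff₀ hD] at b2
      have : 0 ≤ c₀ - c' := by linarith
      nlinarith
    have hDM : l'.DM (cA s c₀) (cB s) := DMc.mono a2.le hl'.dm
    have hX := Gau.Opt.jn (gau s D) hx hDM
    filter_upwards [far_phi s h0 h1 hX.1 (fun k => jK (x₀ k) (l' k)) a2.le η hη b3, hf1 c' b1 a2 a3 l' hl'] with k d1 d2
    exact ⟨d1, d2⟩
  obtain ⟨δ, hδ, hmain⟩ := nj_gen s (gau s D) (fun k ω M N c _ h => sph_mono s D k ω M N c h) (sga s D)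
    (fun k ω M N c _ h => sga_mono s D k ω M N c h) h1.le hx (2 * σ) (fun e he => by
      have h2 := hσ.opt hx (e / 2) (by linarith)
      refine h2.congr fun k => ?_
      congr 1
      funext ω
      congr 2
      ring_nf) hfar (2 * ε) (by linarith)
  refine ⟨δ, hδ, fun c' a1 a2 a3 => ?_⟩
  obtain ⟨l, E, hE, y, hy, hy'⟩ := hmain c' a1 a2 a3
  refine ⟨l, E, hE, y, hy, fun e he => ?_⟩
  have h2 := hy' (2 * e) (by linarith)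
  refine h2.congr fun k => ?_
  show (y k).l.T.pb (fun ω => ¬ 2 ^ ((2 * σ - 2 * ε - 2 * e) * (S.F k).n) ≤ sga s D k ((y k).l.p.π ω) ((y k).g ω)) =
    (y k).l.T.pb (fun ω => ¬ 2 ^ (2 * (σ - ε - e) * (S.F k).n) ≤ sga s D k ((y k).l.p.π ω) ((y k).g ω))
  congr 1
  funext ω
  congr 2
  ring_nf

/-- LEMMA NJ for robust systems: `H(c₀,σ)` and the count at the far point give `H(c', σ - ε)` for all `c'` near `c₀` -/
theorem NJ_rob {D : ℕ} {c₀ : ℝ} (h0 : 0 ≤ c₀) (h1 : c₀ < 1) (hR : Pool.Agent.Helper42.NS.RobH s)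
    {x₀ : ∀ k, FD (S.F k) (Mon (m + 1) D)} (hx : (gau s D).Opt (cA s c₀) (cB s) x₀) {σ : ℝ} (hσ : Hf s D c₀ σ)
    (hcnt : FarCount s c₀ x₀) (ε : ℝ) (hε : 0 < ε) :
    ∃ δ : ℝ, 0 < δ ∧ ∀ c', c₀ - δ < c' → c' < c₀ → 0 ≤ c' → Hf s D c' (σ - ε) := by
  obtain ⟨δ, hδ, h2⟩ := NJ s h0 h1 hx hσ hcnt ε hε
  refine ⟨δ, hδ, fun c' a1 a2 a3 => ?_⟩
  obtain ⟨l, E, hE, h3⟩ := h2 c' a1 a2 a3
  exact (hR.Hf_im l.pj E hE).mp h3

end

end Pool.Agent.Helper89.LX
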