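import Pool.Agent.Helper89.LX.Njf

/-! The label of the first point at the far point (NJ, LEAF sect. 4): entropies, Remez for the gradient, count. -/

set_option autoImplicit false

namespace Pool.Agent.Helper89.LX

open Finset Filter Topology Matrix Pool.Agent.Helper69.RK Pool.Agent.Helper31.EC Pool.Agent.Helper40.EL
open Pool.Agent.Helper31.EC.Sp
open Pool.Agent.Helper95.LF Pool.Agent.Helper3.LF Pool.Agent.Helper42.NS

noncomputable section

/-! ### finite entropies -/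

section
variable {F : FSp} (l : FLab F) (K : Setoid l.T.Ω) (A : Setoid F.Ω)

/-- the second point given anything at the first point -/
theorem far_h1 (z t : FL l.T) : h t (fc K ⊔ l.p.map (fc A)) ≤ h ((pam l K A).p2.map t) ((pam l K A).p1.map z) := by
  have hind := (pam l K A).indep z t
  rw [I_eq'] at hind
  have h1 : h ((pam l K A).p2.map t) ((pam l K A).p1.map z ⊔ (pam l K A).p1.map (fc (Setoid.ker (pam l K A).f))) ≤
      h ((pam l K A).p2.map t) ((pam l K A).p1.map z) := h_anti le_sup_left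
  have h2 : h ((pam l K A).p2.map t) ((pam l K A).p1.map (fc (Setoid.ker (pam l K A).f))) =
      h t (fc (Setoid.ker (pam l K A).g)) := by
    rw [(pam l K A).common, FPj.h_map]
  have h3 : h t (fc K ⊔ l.p.map (fc A)) ≤ h t (fc (Setoid.ker (pam l K A).g)) := h_anti (pam_ker l K A)
  linarith

/-- count at the far point -/
theorem far_h2 (hK : l.V ≤ K) (P t C : FL F) :
    farH l K A P t ≤ h ((pam l K A).p2.map (l.p.map (P ⊔ t))) ((pam l K A).p1.map (l.v ⊔ l.p.map C)) -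
      h (l.p.map t) (fc K ⊔ l.p.map (fc A)) + h (l.p.map C) (fc K) := by
  have hK1 : (fc K : FL l.T) ≤ l.v := fc_mono hK
  have h1 := far_h1 l K A (l.v ⊔ l.p.map C) (l.p.map t)
  have h2 := h_triangle ((pam l K A).p2.map (l.p.map P)) ((pam l K A).p1.map (l.p.map C))
    ((pam l K A).p1.map l.v ⊔ (pam l K A).p2.map (l.p.map t))
  have h3 : h ((pam l K A).p1.map (l.p.map C)) ((pam l K A).p1.map l.v ⊔ (pam l K A).p2.map (l.p.map t)) ≤
      h (l.p.map C) (fc K) := by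
    have e1 : h ((pam l K A).p1.map (l.p.map C)) ((pam l K A).p1.map l.v ⊔ (pam l K A).p2.map (l.p.map t)) ≤
      h ((pam l K A).p1.map (l.p.map C)) ((pam l K A).p1.map l.v) := h_anti le_sup_left
    rw [FPj.h_map] at e1
    exact e1.trans (h_anti hK1)
  have h4 := h_chain ((pam l K A).p2.map (l.p.map t)) ((pam l K A).p2.map (l.p.map P))
    ((pam l K A).p1.map (l.v ⊔ l.p.map C))
  have h5 : (pam l K A).p2.map (l.p.map t) ⊔ (pam l K A).p2.map (l.p.map P) =
      (pam l K A).p2.map (l.p.map (P ⊔ t)) := by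
    rw [sup_comm, ← FPj.map_sup, ← FPj.map_sup]
  have h6 : (pam l K A).p2.map (l.p.map t) ⊔ (pam l K A).p1.map (l.v ⊔ l.p.map C) =
      (pam l K A).p1.map (l.p.map C) ⊔ ((pam l K A).p1.map l.v ⊔ (pam l K A).p2.map (l.p.map t)) := by
    rw [FPj.map_sup]
    ac_rfl
  rw [h5, h6] at h4
  have h7 : farH l K A P t = h ((pam l K A).p2.map (l.p.map P))
    ((pam l K A).p1.map l.v ⊔ (pam l K A).p2.map (l.p.map t)) := rfl
  rw [h7]
  linarith

end

variable {S : Sp} {m : ℕ}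

/-- entropy over a label as a limit -/
theorem H_up1_cl (l : Lab S) (A : S.Inf) :
    H (up1 l (cl A)) = ul (fun k => h ((l k).p.map (rpI A k)) (l k).v / (S.F k).n) := by
  have h1 : up1 l (cl A) = cl (l.upI 1 one_pos A) := l.upL_cl 1 one_pos A
  have h2 : (cl (Inf.bot : (l.ovr 1 one_pos).Inf)) = ⊥ := cl_bot
  rw [h1, ← h_bot, ← h2, h_cl]
  congr 1
  funext k
  rw [← h_rpI]
  have h3 : rpI (l.upI 1 one_pos A) = l.up 1 one_pos (rpI A) := l.rpI_upI 1 one_pos A
  rw [h3]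
  have h4 : rpI (Inf.bot : (l.ovr 1 one_pos).Inf) k = ⊥ := rfl
  rw [h4]
  have h5 : h ((l.up 1 one_pos (rpI A)) k) ⊥ = h ((l k).p.map (rpI A k)) (l k).v := by
    have h6 := (l k).h_up 1 one_pos (rpI A k) ⊥
    have h7 : (l k).up 1 one_pos (⊥ : FL (S.F k)) = ⊥ := (l k).up_bot 1 one_pos
    rw [h7] at h6
    have h8 : (l k).p.map (⊥ : FL (S.F k)) ⊔ (l k).v = (l k).v := by
      rw [(l k).p.map_bot, bot_sup_eq]
    rw [h8] at h6
    exact h6
  rw [h5]
  have h6 : ((l.ovr 1 one_pos).F k).n = (S.F k).n := by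
    have e1 : ((l.ovr 1 one_pos).F k).n = 1 * (l k).T.n := rfl
    rw [e1, one_mul, (l k).hn]
  rw [h6]

/-- full entropy of the height given the line over a label of the window -/
theorem ent_of_dm {s : Sys S m} {c : ℝ} (h0 : 0 ≤ c) (h1 : c ≤ 1) {l : Lab S} (hl : DMc s c l) :
    1 - c ≤ ul (fun k => h ((l k).p.map (qT s k)) ((l k).v ⊔ (l k).p.map (cA s c k)) / (S.F k).n) := by
  have h2 := win_ent h0 h1 hl
  have h3 : l.sp.rt (fun k => Setoid.ker ((l.pj.vv s.t).cellv 1 k)) (wB s c l) =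
      fun k => h ((l k).p.map (qT s k)) ((l k).v ⊔ (l k).p.map (cA s c k)) / (S.F k).n := by
    funext k
    unfold Sp.rt
    beta_reduce
    rw [sp_n, cellv_pj]
    have h4 : (l.sp.F k).e (Setoid.comap (l k).p.π (Setoid.ker (s.t.cellv 1 k))) (wB s c l k ⊓ (l.sp.F k).Z) =
      h ((l k).p.map (qT s k)) ((l k).v ⊔ (l k).p.map (cA s c k)) := (h_fc _ _).symm
    exact congrArg (fun y => y / (S.F k).n) h4
  rw [h3] at h2
  exact h2

section far

variable (s : Sys S m) {ι : Type} (X : ∀ k, FD (S.F k) ι) (K : ∀ k, Setoid (X k).l.T.Ω) (c : ℝ) (hc : 0 ≤ c)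

/-- the form of the first point, with the cells of the first point, as a label at the second point -/
def farFD (k : ℕ) : FD (S.F k) ι where
  l := { T := (pam (X k).l (K k) (cAs s c k)).sp
         p := (pam (X k).l (K k) (cAs s c k)).p2.comp (X k).l.p
         hn := (X k).l.hn
         V := Setoid.comap (pam (X k).l (K k) (cAs s c k)).p1.π
           ((X k).l.V ⊓ Setoid.comap (X k).l.p.π (s.cells c 0 hc k)) }
  g := fun w => (X k).g ((pam (X k).l (K k) (cAs s c k)).p1.π w)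
  g' := fun w => (X k).g' ((pam (X k).l (K k) (cAs s c k)).p1.π w)
  meas := fun w w' h h' hV hZ => by
    have a := (pam (X k).l (K k) (cAs s c k)).p1.supp w h
    have a' := (pam (X k).l (K k) (cAs s c k)).p1.supp w' h'
    exact (X k).meas _ _ a a' hV.1 (((pam (X k).l (K k) (cAs s c k)).p1.hZ w w' h h').mp hZ)

/-- the projection to the first point -/
def fpj1 : Pj (lb (farFD s X K c hc)).sp S where
  π := fun k => ((pam (X k).l (K k) (cAs s c k)).p1.comp (X k).l.p).π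
  law := fun k => ((pam (X k).l (K k) (cAs s c k)).p1.comp (X k).l.p).law
  hZ := fun k => ((pam (X k).l (K k) (cAs s c k)).p1.comp (X k).l.p).hZ
  hn := fun k => (X k).l.hn

/-- the label, the line and the coarse height of the first point -/
def farB (k : ℕ) : Setoid ((lb (farFD s X K c hc)).sp.F k).Ω :=
  Setoid.comap (pam (X k).l (K k) (cAs s c k)).p1.π ((X k).l.V ⊓ Setoid.comap (X k).l.p.π (cAs s c k))

/-- entropy of the far height given everything at the first point -/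
theorem far_ent (hent : 1 - c ≤ ul (fun k => h ((X k).l.p.map (qT s k))
    (fc (K k) ⊔ (X k).l.p.map (cA s c k)) / (S.F k).n)) :
    1 - c ≤ ul ((lb (farFD s X K c hc)).sp.rt
      (fun k => Setoid.ker (((lb (farFD s X K c hc)).pj.vv s.t).cellv 1 k)) (farB s X K c hc)) := by
  refine hent.trans ?_
  have hU1 : UB (fun k => h ((X k).l.p.map (qT s k)) (fc (K k) ⊔ (X k).l.p.map (cA s c k)) / (S.F k).n) := by
    refine UB.sandwich (UB_const 0) ((rpI_Bd (s.It 1)).ub (fun _ => ⊥)) ?_ ?_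
    · exact Eventually.of_forall fun k => div_nonneg (h_nonneg _ _) (S.F k).pos.le
    · refine Eventually.of_forall fun k => div_le_div_of_nonneg_right ?_ (S.F k).pos.le
      rw [h_bot, ← (X k).l.p.H_map]
      exact h_le_H _ _
  have hU2 : UB ((lb (farFD s X K c hc)).sp.rt
      (fun k => Setoid.ker (((lb (farFD s X K c hc)).pj.vv s.t).cellv 1 k)) (farB s X K c hc)) :=
    Sp.UB_rt (((lb (farFD s X K c hc)).pj.vv s.t).bdd 1).toInf _
  refine ul_mono hU1 hU2 (Eventually.of_forall fun k => ?_)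
  unfold Sp.rt
  beta_reduce
  rw [sp_n]
  apply div_le_div_of_nonneg_right _ (S.F k).pos.le
  rw [cellv_pj]
  have f2 : ((lb (farFD s X K c hc)).sp.F k).e (Setoid.comap ((lb (farFD s X K c hc)) k).p.π
      (Setoid.ker (s.t.cellv 1 k))) (farB s X K c hc k ⊓ ((lb (farFD s X K c hc)).sp.F k).Z) =
      h ((pam (X k).l (K k) (cAs s c k)).p2.map ((X k).l.p.map (qT s k)))
        ((pam (X k).l (K k) (cAs s c k)).p1.map ((X k).l.v ⊔ (X k).l.p.map (fc (cAs s c k)))) := (h_fc _ _).symm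
  exact (far_h1 (X k).l (K k) (cAs s c k) _ _).trans (le_of_eq f2.symm)

/-- REMEZ: the gradient of the form of the first point is as large at the far point -/
theorem far_gam {D : ℕ} (Y : ∀ k, FD (S.F k) (Mon (m + 1) D)) (L : ∀ k, Setoid (Y k).l.T.Ω) (hc1 : c < 1)
    (hpd : ∀ᶠ k in UF, ∀ ω, (Y k).l.T.μ ω ≠ 0 → PdM ((Y k).g ω))
    (hent : 1 - c ≤ ul (fun k => h ((Y k).l.p.map (qT s k))
      (fc (L k) ⊔ (Y k).l.p.map (cA s c k)) / (S.F k).n)) :
    ∃ K' : ℕ → ℝ, S.Sub K' ∧ Typ (S := (lb (farFD s Y L c hc)).sp)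
      (fun k (w : (Y k).l.T.Ω × (Y k).l.T.Ω) =>
        sga s D k ((Y k).l.p.π w.1) ((Y k).g w.1) ≤ K' k * sga s D k ((Y k).l.p.π w.2) ((Y k).g w.1)) := by
  have hrel : ∀ (k : ℕ) (w : (Y k).l.T.Ω × (Y k).l.T.Ω), ((lb (farFD s Y L c hc)).sp.F k).μ w ≠ 0 →
      cAs s c k ((Y k).l.p.π w.1) ((Y k).l.p.π w.2) := fun k w hw => (pam_rel _ _ _ w hw).1.2
  obtain ⟨K', hK', hT⟩ := gam_rem (S := (lb (farFD s Y L c hc)).sp) ((fpj1 s Y L c hc).vv s.a)
    ((fpj1 s Y L c hc).vv s.x) ((lb (farFD s Y L c hc)).pj.vv s.t) c 1 hc hc1 (farB s Y L c hc)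
    (fun k (w : (Y k).l.T.Ω × (Y k).l.T.Ω) => (Y k).g w.1) (by
      filter_upwards [hpd] with k hk w hw
      exact hk _ (pam_supp _ _ _ w hw).1) (fun _ => 1) (Sub_const _ zero_le_one) (by
      refine Eventually.of_forall fun k w w' hw hw' hB hZ => ?_
      obtain ⟨hV, hA⟩ := hB
      have hA' : cAs s c k ((Y k).l.p.π w'.1) ((Y k).l.p.π w.1) := hA
      obtain ⟨r1, r2, r3⟩ := cAs_close s c k ((Y k).l.p.π w.1) ((Y k).l.p.π w'.1) hA'
      have h2 : cAs s c k ((Y k).l.p.π w'.2) ((Y k).l.p.π w.2) :=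
        (cAs s c k).trans ((cAs s c k).symm (hrel k w' hw')) ((cAs s c k).trans hA' (hrel k w hw))
      obtain ⟨-, -, r4⟩ := cAs_close s c k ((Y k).l.p.π w.2) ((Y k).l.p.π w'.2) h2
      refine ⟨?_, ?_, ?_, ?_⟩
      · exact ((Y k).meas w'.1 w.1 (pam_supp _ _ _ w' hw').1 (pam_supp _ _ _ w hw).1 hV
          (((pam (Y k).l (L k) (cAs s c k)).p1.hZ w' w hw' hw).mp hZ)).1
      · intro i
        rw [one_mul, sp_dl]
        exact r1 i
      · intro i
        rw [one_mul, sp_dl]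
        exact r2 i
      · rw [one_mul, sp_dl]
        exact r4) (far_ent s Y L c hc hent) 0 le_rfl (fun _ => 1) (Sub_const _ zero_le_one)
  obtain ⟨Kt, hKt, ht⟩ := s.t.bd
  have hC0 : (0 : ℝ) ≤ nn (m + 1) D * (Cu D * Cm (m + 1) D) ^ 2 := by
    have := nn_one (m + 1) D
    positivity
  refine ⟨fun k => K' k * (nn (m + 1) D * (Cu D * Cm (m + 1) D) ^ 2 * (Kt k + 2) ^ (2 * D)),
    ((sp_Sub _).mp hK').mul ((S.Sub_const hC0).mul (Sub_powN (hKt.add (S.Sub_const zero_le_two)) _)), ?_⟩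
  refine typ_mono (S := (lb (farFD s Y L c hc)).sp) hT ?_
  filter_upwards [hpd, ht, hKt.1, ((sp_Sub _).mp hK').1] with k b1 b2 b3 b4 w hw hE
  obtain ⟨hw1, hw2⟩ := pam_supp _ _ _ w hw
  have hA := b1 _ hw1
  have hd := S.dl_pos 1 k
  obtain ⟨r1, r2, r3⟩ := cAs_close s c k ((Y k).l.p.π w.1) ((Y k).l.p.π w.2) ((cAs s c k).symm (hrel k w hw))
  have e1 := hE (s.t.v k ((Y k).l.p.π w.1) 0) (by
    rw [one_mul, sub_zero, sp_dl, abs_sub_comm]
    exact r3)
  rw [sp_dl, mul_zero, zero_mul, Real.rpow_zero, mul_one] at e1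
  have e2 := gam_comp ((Y k).g w.1) hA (S.dl 1 k) (S.dl 1 k) (Kt k + 2) hd hd.le (by linarith)
    (ptf s k ((Y k).l.p.π w.2))
    (pl (s.a.v k ((Y k).l.p.π w.1)) (s.x.v k ((Y k).l.p.π w.1)) (s.t.v k ((Y k).l.p.π w.2) 0)) (fun i => by
      have := pl_diff (s.a.v k ((Y k).l.p.π w.1)) (s.x.v k ((Y k).l.p.π w.1)) (s.a.v k ((Y k).l.p.π w.2))
        (s.x.v k ((Y k).l.p.π w.2)) (s.t.v k ((Y k).l.p.π w.2) 0) (S.dl 1 k) (Kt k) hd.le
        (b2 _ ((Y k).l.p.supp _ hw2) 0) r1 r2 i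
      rw [abs_sub_comm] at this
      have h3 : |pl (s.a.v k ((Y k).l.p.π w.1)) (s.x.v k ((Y k).l.p.π w.1)) (s.t.v k ((Y k).l.p.π w.2) 0) i -
        ptf s k ((Y k).l.p.π w.2) i| ≤ (1 + Kt k) * S.dl 1 k := this
      linarith)
  have e3 : sga s D k ((Y k).l.p.π w.1) ((Y k).g w.1) ≤ K' k *
      gam (S.dl 1 k) ((Y k).g w.1) (pl (s.a.v k ((Y k).l.p.π w.1)) (s.x.v k ((Y k).l.p.π w.1))
        (s.t.v k ((Y k).l.p.π w.2) 0)) := e1
  refine e3.trans ?_
  have e4 := mul_le_mul_of_nonneg_left e2 b4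
  refine e4.trans (le_of_eq ?_)
  show K' k * (nn (m + 1) D * (Cu D * Cm (m + 1) D * (Kt k + 2) ^ D) ^ 2 *
    gam (S.dl 1 k) ((Y k).g w.1) (ptf s k ((Y k).l.p.π w.2))) = K' k * (nn (m + 1) D * (Cu D * Cm (m + 1) D) ^ 2 *
      (Kt k + 2) ^ (2 * D)) * gam (S.dl 1 k) ((Y k).g w.1) (ptf s k ((Y k).l.p.π w.2))
  rw [mul_pow (Cu D * Cm (m + 1) D) ((Kt k + 2) ^ D), ← pow_mul, mul_comm D 2]
  ring

end far

end

end Pool.Agent.Helper89.LX
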