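import Pool.Agent.Helper95.LF.Det
import Pool.Agent.Helper31.EC.Rest

/-! Determinants of positive definite forms (wrappers), probabilities. -/

namespace Pool.Agent.Helper89.LX

open Finset Matrix Pool.Agent.Helper69.RK Pool.Agent.Helper31.EC Pool.Agent.Helper95.LF

noncomputable section

/-- the quadratic form of a matrix -/
def qf {ι : Type} [Fintype ι] (A : Matrix ι ι ℝ) (x : ι → ℝ) : ℝ := x ⬝ᵥ (A *ᵥ x)

/-- symmetric positive semidefinite -/
def Psd {ι : Type} [Fintype ι] (A : Matrix ι ι ℝ) : Prop := A.IsSymm ∧ ∀ x, 0 ≤ qf A x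

variable {ι : Type} [Fintype ι]

theorem pdM_of_one_le {A : Matrix ι ι ℝ} (h1 : A.IsSymm) (h2 : ∀ x, x ⬝ᵥ x ≤ qf A x) : PdM A :=
  ⟨h1, fun x hx => lt_of_lt_of_le (self_pos hx) (h2 x)⟩

theorem one_le_det' [DecidableEq ι] {A : Matrix ι ι ℝ} (h1 : A.IsSymm) (h2 : ∀ x, x ⬝ᵥ x ≤ qf A x) : 1 ≤ A.det :=
  one_le_det h1 h2

theorem det_le_pow' [DecidableEq ι] {A : Matrix ι ι ℝ} {c : ℝ} (hc : 0 < c) (h1 : A.IsSymm)
    (h2 : ∀ x, x ⬝ᵥ x ≤ qf A x) (h3 : ∀ x, qf A x ≤ c * (x ⬝ᵥ x)) : A.det ≤ c ^ Fintype.card ι :=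
  det_le_pow_one (pdM_of_one_le h1 h2) hc h3

theorem det_gain' [DecidableEq ι] {A B : Matrix ι ι ℝ} (hA : PdM A) (hB : Psd B) (c : ℝ) (x : ι → ℝ) (hx : x ≠ 0)
    (h : c * qf A x ≤ qf B x) : (1 + c) * A.det ≤ (A + B).det := by
  apply det_gain hA (hA.1.add hB.1) _ hx
  · rw [dv_add]
    unfold qf at h
    linarith
  · intro y
    rw [dv_add]
    have := hB.2 y
    unfold qf at this
    linarith

theorem det_gain_zero [DecidableEq ι] {A B : Matrix ι ι ℝ} (hA : PdM A) (hB : Psd B) : A.det ≤ (A + B).det := by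
  apply det_mono hA (hA.1.add hB.1)
  intro y
  rw [dv_add]
  have := hB.2 y
  unfold qf at this
  linarith

/-- probability of a union -/
theorem pb_or (F : FSp) (E E' : F.Ω → Prop) : F.pb (fun ω => E ω ∨ E' ω) ≤ F.pb E + F.pb E' := by
  unfold FSp.pb mass
  rw [← Finset.sum_add_distrib]
  apply Finset.sum_le_sum
  intro ω _
  by_cases a : E ω
  · have h2 := F.res_nonneg E' ω
    rw [res_pos F.μ (fun ω => E ω ∨ E' ω) ω (Or.inl a), res_pos F.μ E ω a]
    linarith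
  · by_cases b : E' ω
    · have h2 := F.res_nonneg E ω
      rw [res_pos F.μ (fun ω => E ω ∨ E' ω) ω (Or.inr b), res_pos F.μ E' ω b]
      linarith
    · have h2 := F.res_nonneg E ω
      have h3 := F.res_nonneg E' ω
      rw [res_neg F.μ (fun ω => E ω ∨ E' ω) ω (fun h => h.elim a b)]
      linarith

end

end Pool.Agent.Helper89.LX
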