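import Pool.Agent.Helper89.LX.Njr

/-! NJ (LEAF sect. 4 (b), (c)), abstract gauge: agreement of the two forms, exact label of the larger window. -/

namespace Pool.Agent.Helper89.LX

open Finset Filter Topology Matrix Pool.Agent.Helper69.RK Pool.Agent.Helper31.EC Pool.Agent.Helper40.EL
open Pool.Agent.Helper95.LF (PdM NearM round_mat values_card)

noncomputable section

variable {ι : Type} [Fintype ι] [DecidableEq ι] {S : Sp} (Φ : Gau S ι)

/-- the gauge of the restricted space -/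
def Gau.im {T : Sp} (p : Pj T S) (E : ∀ k, (T.F k).Ω → Prop) : Gau (Sp.im p E) ι where
  φ := Φ.φ
  add := Φ.add
  nn := Φ.nn
  C := Φ.C
  C0 := Φ.C0
  cap := by
    filter_upwards [Φ.cap] with k hk ω hω A hA x
    exact hk ω (FSp.im_supp (p.fp k) (E k) ω hω) A hA x
  one := by
    obtain ⟨K, hK, h⟩ := Φ.one
    refine ⟨K, hK, ?_⟩
    filter_upwards [h] with k hk ω hω
    exact hk ω (FSp.im_supp (p.fp k) (E k) ω hω)

/-- admissibility of the pair -/
theorem Gau.pr_Adm {A B : Part S} {η : ℝ} {k : ℕ} {x : FD (S.F k) ι} (hx : Φ.Adm A B η k x) (K : Setoid x.l.T.Ω)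
    (As : Setoid (S.F k).Ω) (hK : x.l.V ≤ K) (hA : fc As ≤ A k) (hB : (x.pr K As).l.leak (B k) ≤ η * (S.F k).n)
    (hfar : (pam x.l K As).sp.pb (fun w => ¬ Φ.φ k (x.l.p.π w.2) (x.g w.1) ≤ 2 ^ (η * (S.F k).n)) ≤ η) :
    Φ.Adm A B η k (x.pr K As) := by
  refine ⟨(x.pr_leakA K As hK (A k) hA).trans hx.1, hB, fun w hw => ⟨?_, ?_⟩, ?_, hfar⟩
  · exact (hx.2.2.1 _ ((pam x.l K As).p2.supp w hw)).1
  · exact (hx.2.2.1 _ ((pam x.l K As).p1.supp w hw)).1
  · exact (pb_push (pam x.l K As).p2 (fun ω => ¬ Φ.φ k (x.l.p.π ω) (x.g ω) ≤ 2 ^ (η * (S.F k).n))).le.trans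
      hx.2.2.2.1

/-- (b) AGREEMENT OF THE TWO FORMS -/
theorem Gau.nj_near {A B : Part S} {x₀ : ∀ k, FD (S.F k) ι} (h₀ : Φ.Opt A B x₀) (e : ℝ) (he : 0 < e) :
    ∃ η : ℝ, 0 < η ∧ ∀ (x : ∀ k, FD (S.F k) ι) (K : ∀ k, Setoid (x k).l.T.Ω) (As : ∀ k, Setoid (S.F k).Ω),
      (∀ᶠ k in UF, Φ.Adm A B η k ((x k).pr (K k) (As k)) ∧
        ul (fun k => (x₀ k).sc / (S.F k).n) - η ≤ (x k).sc / (S.F k).n) →
      ∀ᶠ k in UF, 1 - 2 * e ≤ (pam (x k).l (K k) (As k)).sp.pb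
        (fun w => Nr (e * (S.F k).n) ((x k).g w.1) ((x k).g w.2)) := by
  obtain ⟨η, hη, hap⟩ := Φ.approx h₀ e he
  refine ⟨η, hη, fun x K As hx => ?_⟩
  have h1 := hap (fun k => (x k).pr (K k) (As k)) (by
    filter_upwards [hx] with k hk
    refine ⟨hk.1, ?_⟩
    rw [(x k).pr_sc (K k) (As k)]
    exact hk.2)
  filter_upwards [h1] with k hk
  have h2 : (pam (x k).l (K k) (As k)).sp.pb (fun w => ¬ ∀ y, qf ((x k).g w.1) y ≤ 2 ^ (e * (S.F k).n) *
    qf ((x k).g w.2) y) ≤ e := hk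
  have h3 := FAm.swap_pb (pam (x k).l (K k) (As k)) rfl (fun w => ¬ ∀ y, qf ((x k).g w.1) y ≤
    2 ^ (e * (S.F k).n) * qf ((x k).g w.2) y)
  have h4 : (pam (x k).l (K k) (As k)).sp.pb (fun w => ¬ Nr (e * (S.F k).n) ((x k).g w.1) ((x k).g w.2)) ≤
      (pam (x k).l (K k) (As k)).sp.pb (fun w : (x k).l.T.Ω × (x k).l.T.Ω =>
        (¬ ∀ v, qf ((x k).g w.2) v ≤ 2 ^ (e * (S.F k).n) * qf ((x k).g w.1) v) ∨
        (¬ ∀ v, qf ((x k).g w.1) v ≤ 2 ^ (e * (S.F k).n) * qf ((x k).g w.2) v)) := by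
    apply FSp.pb_mono
    intro w _ h5
    by_contra hc
    rw [not_or, not_not, not_not] at hc
    exact h5 ⟨hc.2, hc.1⟩
  have h5 := h4.trans (pb_or _ _ _)
  have h6 : (pam (x k).l (K k) (As k)).sp.pb (fun w : (x k).l.T.Ω × (x k).l.T.Ω =>
    ¬ ∀ v, qf ((x k).g w.2) v ≤ 2 ^ (e * (S.F k).n) * qf ((x k).g w.1) v) ≤ e := (le_of_eq h3).trans h2
  have h7 : (pam (x k).l (K k) (As k)).sp.pb (fun w => Nr (e * (S.F k).n) ((x k).g w.1) ((x k).g w.2)) +
      (pam (x k).l (K k) (As k)).sp.pb (fun w => ¬ Nr (e * (S.F k).n) ((x k).g w.1) ((x k).g w.2)) = 1 :=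
    (pam (x k).l (K k) (As k)).sp.pb_add_compl _
  have h8 := h5.trans (add_le_add h6 h2)
  linarith

/-! ### the coarse label on the space of the join -/

section
variable {F : FSp}

/-- the partition of the second label in the space of the join -/
def jK (x : FD F ι) (l' : FLab F) : Setoid (x.jn l').l.T.Ω := Setoid.comap (x.l.am l').p2.π l'.V

omit [Fintype ι] [DecidableEq ι] in
theorem jK_le (x : FD F ι) (l' : FLab F) : (x.jn l').l.V ≤ jK x l' := fun _ _ h => h.2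

/-- the second label on the space of the join -/
def jlab (x : FD F ι) (l' : FLab F) : FLab F := ⟨(x.jn l').l.T, (x.jn l').l.p, (x.jn l').l.hn, jK x l'⟩

omit [Fintype ι] [DecidableEq ι] in
theorem jlab_leak (x : FD F ι) (l' : FLab F) (y : FL F) : (jlab x l').leak y = l'.leak y := by
  have h1 : (jlab x l').leak y = I ((x.l.am l').p2.map l'.v) ((x.l.am l').p1.map x.l.p.top)
      (((x.l.am l').p1.comp x.l.p).map y) := rfl
  rw [h1, FPj.comp_map, x.l.am_top l', x.l.am_map l', FPj.I_map]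
  rfl

omit [Fintype ι] [DecidableEq ι] in
theorem jlab_info (x : FD F ι) (l' : FLab F) : (jlab x l').info = l'.info := by
  rw [← FLab.leak_bot, ← FLab.leak_bot, jlab_leak]

end

omit [Fintype ι] [DecidableEq ι] in
theorem jlab_IsMax {A B : Part S} (x : ∀ k, FD (S.F k) ι) {l' : Lab S} (h : l'.IsMax A B) :
    Lab.IsMax (fun k => jlab (x k) (l' k)) A B := by
  have hi : Lab.info (fun k => jlab (x k) (l' k)) = l'.info := by
    unfold Lab.info
    congr 1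
    funext k
    rw [jlab_info]
  refine ⟨⟨?_, ?_⟩, fun l'' h'' => ?_⟩
  · have : (fun k => (jlab (x k) (l' k)).leak (A k)) = fun k => (l' k).leak (A k) := by
      funext k; exact jlab_leak _ _ _
    rw [this]; exact h.1.1
  · have : (fun k => (jlab (x k) (l' k)).leak (B k)) = fun k => (l' k).leak (B k) := by
      funext k; exact jlab_leak _ _ _
    rw [this]; exact h.1.2
  · rw [hi]; exact h.2 _ h''

/-- the constant of the rounding -/
theorem exists_round (ι : Type) [Fintype ι] : ∃ (C : ℝ) (N : ℕ), 1 ≤ C ∧ 1 ≤ N ∧ ∀ L : ℝ, 1 ≤ L →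
    ∃ Q : Matrix ι ι ℝ → Matrix ι ι ℝ,
      (∀ A, PdM A → PdM (Q A) ∧ NearM (C * L) A (Q A)) ∧
      ∀ A, PdM A → ∃ X : Finset (Matrix ι ι ℝ), X.card ≤ N ∧
        ∀ A', PdM A' → NearM L A A' → Q A' ∈ X := by
  obtain ⟨C, N, hC, h⟩ := round_mat ι
  refine ⟨C, N + 1, hC, by omega, fun L hL => ?_⟩
  obtain ⟨Q, h1, h2⟩ := h L hL
  refine ⟨Q, h1, fun A hA => ?_⟩
  obtain ⟨X, hX, hX'⟩ := h2 A hA
  exact ⟨X, by omega, hX'⟩

/-- the restricted label with the averaged form -/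
def avFD {F : FSp} (l : FLab F) (E : l.T.Ω → Prop) (c cp : ℝ) (M : l.T.Ω → Matrix ι ι ℝ) :
    FD (FSp.im l.p E) ι where
  l := (l.im E).addW (Setoid.ker M)
  g := by
    classical
    exact fun ω => if Cpd cp (1 + c • M ω) then 1 + c • M ω else 1
  g' := by
    classical
    exact fun ω => if Cpd cp (1 + c • M ω) then 1 + c • M ω else 1
  meas := fun ω ω' _ _ hV _ => by
    have h1 : M ω = M ω' := hV.2
    rw [h1]
    exact ⟨rfl, rfl⟩

omit [DecidableEq ι] in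
theorem qf_smul' (c : ℝ) (A : Matrix ι ι ℝ) (x : ι → ℝ) : qf (c • A) x = c * qf A x := by
  unfold qf
  rw [Matrix.smul_mulVec, dotProduct_smul, smul_eq_mul]

theorem qf_one' (x : ι → ℝ) : qf (1 : Matrix ι ι ℝ) x = x ⬝ᵥ x := by
  unfold qf
  rw [Matrix.one_mulVec]

/-- probabilities after restriction -/
theorem pb_rest_le (F : FSp) (E X : F.Ω → Prop) (p : ℝ) (hp : 0 < p) (hE : p ≤ F.pb E) :
    (F.rest E).pb X ≤ F.pb X / p := by
  have h0 : F.pb E ≠ 0 := (hp.trans_le hE).ne'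
  have h1 : (F.rest E).pb X = (F.pb E)⁻¹ * F.pb (fun ω => E ω ∧ X ω) := by
    show ∑ ω, res (F.restμ E) X ω = (F.pb E)⁻¹ * ∑ ω, res F.μ (fun ω => E ω ∧ X ω) ω
    rw [Finset.mul_sum, F.restμ_eq E h0]
    apply Finset.sum_congr rfl
    intro ω _
    by_cases hX : X ω
    · rw [res_pos _ _ _ hX]
      by_cases hE : E ω
      · rw [res_pos _ _ _ hE, res_pos F.μ (fun ω => E ω ∧ X ω) ω ⟨hE, hX⟩]
      · rw [res_neg _ _ _ hE, res_neg F.μ (fun ω => E ω ∧ X ω) ω (fun h => hE h.1)]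
    · rw [res_neg _ _ _ hX, res_neg F.μ (fun ω => E ω ∧ X ω) ω (fun h => hX h.2), mul_zero]
  have h2 : F.pb (fun ω => E ω ∧ X ω) ≤ F.pb X := F.pb_mono fun ω _ h => h.2
  rw [h1, inv_mul_eq_div]
  exact div_le_div₀ (F.pb_nonneg X) h2 hp hE

end

end Pool.Agent.Helper89.LX
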