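import Pool.Agent.Helper89.LX.Jn
import Pool.Agent.Helper52.KP.Agr

/-! NJ (LEAF sect. 4 (a)): the pair of a label with its copy given a coarser label and a larger window, as a label of
the second point: leaks. -/

namespace Pool.Agent.Helper89.LX

open Finset Filter Topology Matrix Pool.Agent.Helper69.RK Pool.Agent.Helper31.EC Pool.Agent.Helper40.EL

noncomputable section

section
variable {F : FSp} (l : FLab F) (K : Setoid l.T.Ω) (A : Setoid F.Ω)

/-- the common variable -/
def cY : Setoid l.T.Ω := K ⊓ Setoid.comap l.p.π A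

/-- two copies of the space of a label, given `K` and the partition `A` of the base space -/
def pam : FAm l.T l.T := FAm.self l.T (cY l K A)

theorem pam_rel (w : l.T.Ω × l.T.Ω) (h : (pam l K A).sp.μ w ≠ 0) : cY l K A w.1 w.2 ∧ l.T.Z w.1 w.2 :=
  Quotient.exact ((pam l K A).supp w h).1

theorem pam_supp (w : l.T.Ω × l.T.Ω) (h : (pam l K A).sp.μ w ≠ 0) : l.T.μ w.1 ≠ 0 ∧ l.T.μ w.2 ≠ 0 :=
  ⟨((pam l K A).supp w h).2.1, ((pam l K A).supp w h).2.2⟩

theorem pam_ker : (fc (Setoid.ker (pam l K A).f) : FL l.T) ≤ fc K ⊔ l.p.map (fc A) := FAm.self_le l.T (cY l K A)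

/-- the coarse label is common -/
theorem pam_K : (pam l K A).p1.map (fc K) = (pam l K A).p2.map (fc K) := by
  apply le_antisymm
  · apply fc_le
    intro w w' h h' _ e
    have a := (pam_rel l K A w h).1.1
    have a' := (pam_rel l K A w' h').1.1
    have e' : K w.2 w'.2 := e
    show K w.1 w'.1
    exact K.trans (K.trans a e') (K.symm a')
  · apply fc_le
    intro w w' h h' _ e
    have a := (pam_rel l K A w h).1.1
    have a' := (pam_rel l K A w' h').1.1
    have e' : K w.1 w'.1 := e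
    show K w.2 w'.2
    exact K.trans (K.trans (K.symm a) e') a'

/-- conditional entropy of the second point given the label at the first point -/
def farH (P t : FL F) : ℝ := h ((pam l K A).p2.map (l.p.map P)) ((pam l K A).p1.map l.v ⊔ (pam l K A).p2.map (l.p.map t))

end

namespace FD

variable {F : FSp} {ι : Type}

/-- the pair of labels at the second point: the form of the second point and the form of the first point -/
def pr (x : FD F ι) (K : Setoid x.l.T.Ω) (A : Setoid F.Ω) : FD F ι where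
  l := { T := (pam x.l K A).sp
         p := (pam x.l K A).p2.comp x.l.p
         hn := x.l.hn
         V := Setoid.comap (pam x.l K A).p1.π x.l.V ⊓ Setoid.comap (pam x.l K A).p2.π x.l.V }
  g := fun w => x.g ((pam x.l K A).p2.π w)
  g' := fun w => x.g ((pam x.l K A).p1.π w)
  meas := fun w w' h h' hV hZ => by
    have a := (pam x.l K A).p1.supp w h
    have a' := (pam x.l K A).p1.supp w' h'
    have b := (pam x.l K A).p2.supp w h
    have b' := (pam x.l K A).p2.supp w' h'
    refine ⟨(x.meas _ _ b b' hV.2 ?_).1, (x.meas _ _ a a' hV.1 ?_).1⟩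
    · exact ((pam x.l K A).p2.hZ w w' h h').mp hZ
    · exact ((pam x.l K A).p1.hZ w w' h h').mp hZ

variable (x : FD F ι) (K : Setoid x.l.T.Ω) (A : Setoid F.Ω)

theorem pr_sc [Fintype ι] [DecidableEq ι] : (x.pr K A).sc = x.sc :=
  sum_push (pam x.l K A).p2 (fun ω => Real.logb 2 (x.g ω).det)

theorem pr_leak (B : FL F) : (x.pr K A).l.leak B = I ((pam x.l K A).p1.map x.l.v ⊔ (pam x.l K A).p2.map x.l.v)
    ((pam x.l K A).p2.map x.l.p.top) ((pam x.l K A).p2.map (x.l.p.map B)) := by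
  have h1 : (x.pr K A).l.leak B = I ((pam x.l K A).p1.map x.l.v ⊔ (pam x.l K A).p2.map x.l.v)
    ((pam x.l K A).p2.comp x.l.p).top (((pam x.l K A).p2.comp x.l.p).map B) := rfl
  rw [h1, FPj.comp_map, FPj.comp_top]

/-- the leak at the window of the label -/
theorem pr_leakA (hK : x.l.V ≤ K) (A₀ : FL F) (hA : fc A ≤ A₀) : (x.pr K A).l.leak A₀ ≤ x.l.leak A₀ := by
  rw [pr_leak]
  have h1 : x.l.leak A₀ = I ((pam x.l K A).p2.map x.l.v) ((pam x.l K A).p2.map x.l.p.top)
      ((pam x.l K A).p2.map (x.l.p.map A₀)) := ((pam x.l K A).p2.I_map _ _ _).symm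
  rw [h1]
  have hind := (pam x.l K A).indep x.l.v (x.l.v ⊔ x.l.p.top)
  rw [FPj.map_sup] at hind
  refine nj_leakA hind ((pam x.l K A).p2.map_mono (x.l.p.map_le_top A₀)) ?_
  rw [(pam x.l K A).common, ← FPj.map_sup]
  apply (pam x.l K A).p2.map_mono
  refine (pam_ker x.l K A).trans ?_
  exact sup_le_sup (fc_mono hK) (x.l.p.map_mono hA)

/-- the leak at the point -/
theorem pr_leakB (hK : x.l.V ≤ K) (P t : FL F) : (x.pr K A).l.leak (P ⊔ t) ≤ 2 * x.l.leak (P ⊔ t) +
    I (x.l.p.map t) (x.l.p.map (fc A)) (fc K) + h P (fc A ⊔ t) +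
    (farH x.l K A P t - h (x.l.p.map P) (x.l.v ⊔ x.l.p.map t)) := by
  rw [pr_leak]
  have hind := (pam x.l K A).indep x.l.v (x.l.v ⊔ x.l.p.top)
  rw [FPj.map_sup] at hind
  have hK1 : (fc K : FL x.l.T) ≤ x.l.v := fc_mono hK
  have h0 := nj_leakB0 (B := (pam x.l K A).p2.map (x.l.p.map (P ⊔ t))) (K := (pam x.l K A).p1.map (fc K)) hind
    ((pam x.l K A).p2.map_mono (x.l.p.map_le_top _)) (by
      rw [(pam x.l K A).common, pam_K, ← FPj.map_sup]
      apply (pam x.l K A).p2.map_mono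
      refine (pam_ker x.l K A).trans ?_
      rw [sup_comm]
      exact sup_le_sup_right (x.l.p.map_le_top _) _) (by
      rw [pam_K]
      exact (pam x.l K A).p2.map_mono hK1)
  have h1 : I ((pam x.l K A).p2.map x.l.v) ((pam x.l K A).p2.map x.l.p.top)
      ((pam x.l K A).p2.map (x.l.p.map (P ⊔ t))) = x.l.leak (P ⊔ t) := (pam x.l K A).p2.I_map _ _ _
  have h2 : I ((pam x.l K A).p1.map x.l.v) ((pam x.l K A).p1.map (fc (Setoid.ker (pam x.l K A).f)))
      ((pam x.l K A).p1.map (fc K)) ≤ I x.l.v (x.l.p.map (fc A)) (fc K) := by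
    rw [(pam x.l K A).p1.I_map]
    apply I_mono_right
    refine (pam_ker x.l K A).trans ?_
    rw [sup_comm]
  have h3 := nj_leakB1 (v := x.l.v) (ξ := x.l.p.map (fc A)) (t := x.l.p.map t) (P := x.l.p.map P) (K := fc K)
    (o := x.l.p.top) (x.l.p.map_le_top _) hK1
  have h4 := nj_leakB2 (κ := (pam x.l K A).p1.map x.l.v) (B := (pam x.l K A).p2.map (x.l.p.map (P ⊔ t)))
    (P := (pam x.l K A).p2.map (x.l.p.map P)) (t := (pam x.l K A).p2.map (x.l.p.map t))
    (K := (pam x.l K A).p1.map (fc K)) ((pam x.l K A).p2.map_mono (x.l.p.map_mono le_sup_left))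
    ((pam x.l K A).p2.map_mono (x.l.p.map_mono le_sup_right)) ((pam x.l K A).p1.map_mono hK1)
  have h5 : h ((pam x.l K A).p2.map (x.l.p.map P)) ((pam x.l K A).p2.map (x.l.p.map t) ⊔ (pam x.l K A).p1.map (fc K)) =
      h (x.l.p.map P) (x.l.p.map t ⊔ fc K) := by
    rw [pam_K, ← FPj.map_sup, FPj.h_map]
  rw [h5] at h4
  have h6 : I x.l.v x.l.p.top (x.l.p.map P ⊔ x.l.p.map t) = x.l.leak (P ⊔ t) := by
    rw [← FPj.map_sup]; rfl
  have h7 : h (x.l.p.map P) (x.l.p.map (fc A) ⊔ x.l.p.map t) = h P (fc A ⊔ t) := by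
    rw [← FPj.map_sup, FPj.h_map]
  rw [h6, h7] at h3
  have h8 : farH x.l K A P t = h ((pam x.l K A).p2.map (x.l.p.map P))
    ((pam x.l K A).p1.map x.l.v ⊔ (pam x.l K A).p2.map (x.l.p.map t)) := rfl
  rw [h8]
  rw [h1] at h0
  linarith

end FD

end

end Pool.Agent.Helper89.LX
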