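import Pool.Agent.Helper89.LX.Hth
import Pool.Agent.Helper89.LX.Njp
import Pool.Agent.Helper95.LF.Values

/-! NJ: the rounding of an optimal form is a function of the point (LEAF (1.3)). -/

namespace Pool.Agent.Helper89.LX

open Finset Filter Topology Matrix Pool.Agent.Helper69.RK Pool.Agent.Helper31.EC Pool.Agent.Helper40.EL
open Pool.Agent.Helper95.LF (PdM NearM round_mat values_card)

noncomputable section

/-- few values on a large event, not too many values elsewhere -/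
theorem h_few_typ {F : FSp} (E : F.Ω → Prop) {V V' : Type} (u : F.Ω → V) (w : F.Ω → V') (N : ℕ) (hN : 1 ≤ N)
    (e : V' → Fin N → V) (he : ∀ ω, F.μ ω ≠ 0 → E ω → ∃ i, u ω = e (w ω) i) (M : ℝ) (hM : 1 ≤ M)
    (X : Finset V) (hX : (X.card : ℝ) ≤ M) (hu : ∀ ω, F.μ ω ≠ 0 → u ω ∈ X) :
    h (fc (Setoid.ker u) : FL F) (fc (Setoid.ker w)) ≤
      Real.logb 2 N + F.pb (fun ω => ¬ E ω) * Real.logb 2 M + 1 := by
  classical
  have h1 := (F.e_split E (Setoid.ker u) (Setoid.ker w ⊓ F.Z)).2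
  have hp := F.pb_add_compl E
  have hp0 := F.pb_nonneg E
  have hp1 := F.pb_nonneg (fun ω => ¬ E ω)
  have hp2 := F.pb_le_one E
  have hN0 : 0 ≤ Real.logb 2 N := Real.logb_nonneg (by norm_num) (by exact_mod_cast hN)
  have hM0 : 0 ≤ Real.logb 2 M := Real.logb_nonneg (by norm_num) hM
  have e1 : 1 - F.pb E = F.pb (fun ω => ¬ E ω) := by linarith
  rw [h_fc]
  have a1 : F.pb E * (F.rest E).e (Setoid.ker u) (Setoid.ker w ⊓ F.Z) ≤ Real.logb 2 N := by
    by_cases h0 : F.pb E = 0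
    · rw [h0, zero_mul]; exact hN0
    · have h2 := h_few E u w N e he h0
      rw [h_fc] at h2
      calc F.pb E * (F.rest E).e (Setoid.ker u) (Setoid.ker w ⊓ F.Z) ≤ 1 * Real.logb 2 N :=
            mul_le_mul hp2 h2 ((F.rest E).e_nonneg _ _) zero_le_one
        _ = _ := one_mul _
  have a2 : F.pb (fun ω => ¬ E ω) * (F.rest fun ω => ¬ E ω).e (Setoid.ker u) (Setoid.ker w ⊓ F.Z) ≤
      F.pb (fun ω => ¬ E ω) * Real.logb 2 M := by
    apply mul_le_mul_of_nonneg_left _ hp1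
    have hXn : X.Nonempty := by
      by_contra hne
      rw [Finset.not_nonempty_iff_eq_empty] at hne
      have h3 : ∀ ω, F.μ ω = 0 := by
        intro ω
        by_contra hω
        have := hu ω hω
        rw [hne] at this
        simp at this
      have h4 : ∑ ω, F.μ ω = 1 := F.ms
      rw [Finset.sum_congr rfl (fun ω _ => h3 ω)] at h4
      simp at h4
    have h3 := h_le_log (F := F.rest fun ω => ¬ E ω) (Setoid.ker u) (Setoid.ker w) X.card (by
      intro ω hω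
      apply nvf_le_card _ _ _ _ X.card (fun i => if hi : ∃ ω' : F.Ω, u ω' = (X.equivFin.symm i : V) then
        (Quotient.mk (Setoid.ker u : Setoid (F.rest fun ω => ¬ E ω).Ω) hi.choose) else Quotient.mk _ ω)
      intro ω' h1 _
      refine ⟨X.equivFin ⟨u ω', hu ω' (F.rest_supp _ ω' h1).1⟩, ?_⟩
      have hex : ∃ ω'' : F.Ω, u ω'' = (X.equivFin.symm (X.equivFin ⟨u ω', hu ω' (F.rest_supp _ ω' h1).1⟩) : V) := by
        rw [Equiv.symm_apply_apply]
        exact ⟨ω', rfl⟩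
      rw [dif_pos hex]
      apply Quotient.sound
      show u ω' = u hex.choose
      rw [hex.choose_spec, Equiv.symm_apply_apply])
    rw [h_fc] at h3
    refine h3.trans (Real.logb_le_logb_of_le (by norm_num) ?_ hX)
    exact_mod_cast hXn.card_pos
  rw [e1] at h1
  have h4 := add_le_add (add_le_add a1 a2) (le_refl (1 : ℝ))
  exact h1.trans h4

/-- the two copies of a self amalgam can be exchanged -/
theorem FAm.swap_pb {W : FSp} (D : FAm W W) (hD : D.f = D.g) (E : W.Ω × W.Ω → Prop) :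
    D.sp.pb (fun w => E (w.2, w.1)) = D.sp.pb E := by
  unfold FSp.pb mass
  have h1 : ∀ w : W.Ω × W.Ω, D.sp.μ (w.2, w.1) = D.sp.μ w := by
    intro w
    show amw W.μ W.μ D.f D.g (w.2, w.1) = amw W.μ W.μ D.f D.g w
    unfold amw
    rw [← hD]
    simp only
    by_cases hw : D.f w.1 = D.f w.2
    · rw [hw]; ring
    · rw [e1_ind_neg hw, e1_ind_neg (fun h => hw h.symm)]; ring
  have h2 : ∀ w : W.Ω × W.Ω, res D.sp.μ (fun w : D.sp.Ω => E (w.2, w.1)) w = res D.sp.μ E (w.2, w.1) := by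
    intro w
    by_cases hE : E (w.2, w.1)
    · have a := res_pos D.sp.μ (fun w : D.sp.Ω => E (w.2, w.1)) w hE
      have b := res_pos D.sp.μ E (w.2, w.1) hE
      exact a.trans ((h1 w).symm.trans b.symm)
    · have a := res_neg D.sp.μ (fun w : D.sp.Ω => E (w.2, w.1)) w hE
      have b := res_neg D.sp.μ E (w.2, w.1) hE
      exact a.trans b.symm
  exact (Finset.sum_congr rfl fun w _ => h2 w).trans
    (Equiv.sum_comp (Equiv.prodComm W.Ω W.Ω) (fun w => res D.sp.μ E w))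

section
variable {ι : Type} [Fintype ι]

/-- closeness of forms up to the factor `2 ^ a` -/
def Nr (a : ℝ) (A A' : Matrix ι ι ℝ) : Prop := (∀ y, qf A y ≤ 2 ^ a * qf A' y) ∧ ∀ y, qf A' y ≤ 2 ^ a * qf A y

theorem two_rpow_exp (a : ℝ) : (2 : ℝ) ^ a = Real.exp (a * Real.log 2) := by
  rw [Real.rpow_def_of_pos (by norm_num), mul_comm]

theorem Nr.symm {a : ℝ} {A A' : Matrix ι ι ℝ} (h : Nr a A A') : Nr a A' A := ⟨h.2, h.1⟩

theorem Nr.near {a L : ℝ} {A A' : Matrix ι ι ℝ} (hA : Psd A) (hA' : Psd A') (h : Nr a A A')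
    (hL : a * Real.log 2 ≤ L) : NearM L A A' := by
  have h1 : (2 : ℝ) ^ a ≤ Real.exp L := by
    rw [two_rpow_exp]
    exact Real.exp_le_exp.mpr hL
  exact ⟨fun x => (h.1 x).trans (mul_le_mul_of_nonneg_right h1 (hA'.2 x)),
    fun x => (h.2 x).trans (mul_le_mul_of_nonneg_right h1 (hA.2 x))⟩

theorem Nr.trans {a b : ℝ} {A A' A'' : Matrix ι ι ℝ} (h : Nr a A A') (h' : Nr b A' A'') : Nr (a + b) A A'' := by
  have e : (2 : ℝ) ^ (a + b) = 2 ^ a * 2 ^ b := Real.rpow_add (by norm_num) _ _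
  constructor
  · intro y
    rw [e, mul_assoc]
    exact (h.1 y).trans (mul_le_mul_of_nonneg_left (h'.1 y) (by positivity))
  · intro y
    rw [e, mul_comm ((2 : ℝ) ^ a), mul_assoc]
    exact (h'.2 y).trans (mul_le_mul_of_nonneg_left (h.2 y) (by positivity))

theorem nearM_trans {a b : ℝ} {A A' A'' : Matrix ι ι ℝ} (h : NearM a A A') (h' : NearM b A' A'') :
    NearM (a + b) A A'' := by
  have e : Real.exp (a + b) = Real.exp a * Real.exp b := Real.exp_add _ _
  constructor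
  · intro y
    rw [e, mul_assoc]
    exact (h.1 y).trans (mul_le_mul_of_nonneg_left (h'.1 y) (by positivity))
  · intro y
    rw [e, mul_comm (Real.exp a), mul_assoc]
    exact (h'.2 y).trans (mul_le_mul_of_nonneg_left (h.2 y) (by positivity))

theorem nearM_symm {a : ℝ} {A A' : Matrix ι ι ℝ} (h : NearM a A A') : NearM a A' A := ⟨h.2, h.1⟩

/-- enumeration of a small finite set -/
theorem enum_fin {α : Type} [Nonempty α] (X : Finset α) (N : ℕ) (hX : X.card ≤ N) :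
    ∃ e : Fin N → α, ∀ x ∈ X, ∃ i, x = e i := by
  classical
  have hi : ∀ x : X, ((X.equivFin x : Fin X.card) : ℕ) < N := fun x => lt_of_lt_of_le (X.equivFin x).2 hX
  refine ⟨fun i => if hc : ∃ x : X, ((X.equivFin x : Fin X.card) : ℕ) = i then (hc.choose : α)
    else Classical.arbitrary α, fun x hx => ⟨⟨(X.equivFin ⟨x, hx⟩ : Fin X.card), hi ⟨x, hx⟩⟩, ?_⟩⟩
  have hc : ∃ y : X, ((X.equivFin y : Fin X.card) : ℕ) = ((X.equivFin ⟨x, hx⟩ : Fin X.card) : ℕ) := ⟨⟨x, hx⟩, rfl⟩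
  show x = if hc : _ then _ else _
  rw [dif_pos hc]
  have h1 := hc.choose_spec
  have h2 : hc.choose = ⟨x, hx⟩ := X.equivFin.injective (Fin.ext h1)
  rw [h2]

end

variable {ι : Type} [Fintype ι] [DecidableEq ι] {S : Sp} (Φ : Gau S ι)

/-- the number of rounded forms below the cap -/
theorem Gau.card_cap : ∃ C : ℝ, 0 ≤ C ∧ ∀ (L : ℝ), 1 ≤ L → ∀ (N : ℕ) (Q : Matrix ι ι ℝ → Matrix ι ι ℝ),
      (∀ A, PdM A → ∃ X : Finset (Matrix ι ι ℝ), X.card ≤ N ∧ ∀ A', PdM A' → NearM L A A' → Q A' ∈ X) →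
      ∀ k, ∃ X : Finset (Matrix ι ι ℝ), (X.card : ℝ) ≤ N * Real.exp (C * ((S.F k).n + 1)) ∧
        ∀ A : Matrix ι ι ℝ, Cpd (Φ.cp k) A → Q A ∈ X := by
  obtain ⟨C, hC0, hC⟩ := values_card ι
  refine ⟨C * ((Φ.C + 1) * Real.log 2 + 1), ?_, fun L hL N Q hQ k => ?_⟩
  · have := Real.log_nonneg (show (1 : ℝ) ≤ 2 by norm_num)
    have := Φ.C0
    positivity
  · have hl := Real.log_nonneg (show (1 : ℝ) ≤ 2 by norm_num)
    have hn := (S.F k).pos
    have hc := Φ.C0
    obtain ⟨X, hX, hX'⟩ := hC L hL N Q hQ ((Φ.C + 1) * (S.F k).n * Real.log 2) (by positivity)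
    refine ⟨X, hX.trans ?_, fun A hA => hX' A hA.1 hA.2.1 fun x => ?_⟩
    · apply mul_le_mul_of_nonneg_left _ (Nat.cast_nonneg _)
      apply Real.exp_le_exp.mpr
      rw [mul_assoc C]
      apply mul_le_mul_of_nonneg_left _ hC0
      nlinarith [mul_nonneg hc hl, mul_nonneg (mul_nonneg hc hl) hn.le, mul_nonneg hl hn.le]
    · rw [← two_rpow_exp]
      exact hA.2.2 x

/-- an optimal form is determined by the point up to `2^o(n)` -/
theorem Gau.Opt.self_near {A B : Part S} {x : ∀ k, FD (S.F k) ι} (hx : Φ.Opt A B x) (e : ℝ) (he : 0 < e) :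
    Tendsto (fun k => ((x k).l.am (x k).l).sp.pb (fun w => ¬ Nr (e * (S.F k).n) ((x k).g w.1) ((x k).g w.2)))
      UF (𝓝 0) := by
  have h1 : Tendsto (fun k => ((x k).l.am (x k).l).sp.pb (fun w =>
      ¬ ∀ v, qf ((x k).g w.2) v ≤ 2 ^ (e * (S.F k).n) * qf ((x k).g w.1) v)) UF (𝓝 0) :=
    Gau.Opt.dom Φ hx hx.1 e he
  have h2 := h1.add h1
  rw [add_zero] at h2
  refine tendsto_of_tendsto_of_tendsto_of_le_of_le tendsto_const_nhds h2 (fun k => FSp.pb_nonneg _ _) (fun k => ?_)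
  have h3 := FAm.swap_pb ((x k).l.am (x k).l) rfl (fun w =>
      ¬ ∀ v, qf ((x k).g w.2) v ≤ 2 ^ (e * (S.F k).n) * qf ((x k).g w.1) v)
  have h4 : ((x k).l.am (x k).l).sp.pb (fun w => ¬ Nr (e * (S.F k).n) ((x k).g w.1) ((x k).g w.2)) ≤
      ((x k).l.am (x k).l).sp.pb (fun w : (x k).l.T.Ω × (x k).l.T.Ω =>
        (¬ ∀ v, qf ((x k).g w.1) v ≤ 2 ^ (e * (S.F k).n) * qf ((x k).g w.2) v) ∨
        (¬ ∀ v, qf ((x k).g w.2) v ≤ 2 ^ (e * (S.F k).n) * qf ((x k).g w.1) v)) := by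
    apply FSp.pb_mono
    intro w _ h5
    by_contra hc
    rw [not_or, not_not, not_not] at hc
    exact h5 ⟨hc.1, hc.2⟩
  refine h4.trans ((pb_or _ _ _).trans ?_)
  exact add_le_add (le_of_eq h3) le_rfl

/-- THE ROUNDING OF AN OPTIMAL FORM IS A FUNCTION OF THE POINT, for both conditions -/
theorem Gau.Opt.round {A B : Part S} {x : ∀ k, FD (S.F k) ι} (hx : Φ.Opt A B x) (e : ℝ) (he : 0 < e) (N : ℕ)
    (hN : 1 ≤ N) (L : ℕ → ℝ) (hL1 : ∀ k, 1 ≤ L k) (hL : ∀ k, e * (S.F k).n * Real.log 2 ≤ L k)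
    (Q : ℕ → Matrix ι ι ℝ → Matrix ι ι ℝ)
    (hQ : ∀ k, ∀ A, PdM A → ∃ X : Finset (Matrix ι ι ℝ), X.card ≤ N ∧ ∀ A', PdM A' → NearM (L k) A A' → Q k A' ∈ X)
    (Y : ∀ k, FL (S.F k)) (hY : Nul S (fun k => (x k).l.leak (Y k))) :
    Nul S (fun k => h (fc (Setoid.ker fun ω => Q k ((x k).g ω)) : FL (x k).l.T) ((x k).l.p.map (Y k))) := by
  classical
  obtain ⟨C, hC0, hC⟩ := Φ.card_cap
  choose c hc1 hc2 using fun k => ((x k).l.am (x k).l).agree
    (fun ω ω' => Nr (e * (S.F k).n) ((x k).g ω) ((x k).g ω'))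
  -- the event
  set E : ∀ k, (x k).l.T.Ω → Prop := fun k ω => Nr (e * (S.F k).n) ((x k).g ω) ((x k).g (c k ((x k).l.p.π ω))) with hE
  have t1 : Tendsto (fun k => (x k).l.T.pb (fun ω => ¬ E k ω)) UF (𝓝 0) := by
    refine tendsto_of_tendsto_of_tendsto_of_le_of_le tendsto_const_nhds (Gau.Opt.self_near Φ hx e he)
      (fun k => FSp.pb_nonneg _ _) (fun k => ?_)
    have h1 := (x k).l.T.pb_add_compl (E k)
    have h2 := ((x k).l.am (x k).l).sp.pb_add_compl (fun w => Nr (e * (S.F k).n) ((x k).g w.1) ((x k).g w.2))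
    have h3 := hc2 k
    have h4 : (x k).l.T.pb (E k) = (x k).l.T.pb (fun ω => Nr (e * (S.F k).n) ((x k).g ω)
      ((x k).g (c k (((x k).l.am (x k).l).f ω)))) := rfl
    rw [← h4] at h3
    linarith
  have hfin : ∀ᶠ k in UF, h (fc (Setoid.ker fun ω => Q k ((x k).g ω)) : FL (x k).l.T) ((x k).l.p.map (Y k)) ≤
      (x k).l.leak (Y k) + (Real.logb 2 N + (x k).l.T.pb (fun ω => ¬ E k ω) *
        ((Real.logb 2 N + 2 * C) + 2 * C * (S.F k).n) + 1) := by
    filter_upwards [hx.1 1 one_pos] with k hk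
    have hcpd : ∀ ω, (x k).l.T.μ ω ≠ 0 → Cpd (Φ.cp k) ((x k).g ω) := fun ω hω => (hk.2.2.1 ω hω).1
    obtain ⟨X, hX, hX'⟩ := hC (L k) (hL1 k) N (Q k) (hQ k) k
    have hM1 : (1 : ℝ) ≤ N * Real.exp (C * ((S.F k).n + 1)) := by
      have h1 : (1 : ℝ) ≤ N := by exact_mod_cast hN
      have h2 : (1 : ℝ) ≤ Real.exp (C * ((S.F k).n + 1)) := Real.one_le_exp (by
        have := (S.F k).pos
        positivity)
      nlinarith
    -- the values determined by the point
    have hval : ∀ a : (S.F k).Ω, ∃ f : Fin N → Matrix ι ι ℝ, PdM ((x k).g (c k a)) →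
        ∀ A', PdM A' → NearM (L k) ((x k).g (c k a)) A' → ∃ i, Q k A' = f i := by
      intro a
      by_cases hp : PdM ((x k).g (c k a))
      · obtain ⟨Z, hZ, hZ'⟩ := hQ k _ hp
        obtain ⟨f, hf⟩ := enum_fin Z N hZ
        exact ⟨f, fun _ A' h1 h2 => hf _ (hZ' A' h1 h2)⟩
      · exact ⟨fun _ => 1, fun h => absurd h hp⟩
    choose f hf using hval
    have h1 := h_few_typ (F := (x k).l.T) (E k) (fun ω => Q k ((x k).g ω)) (x k).l.p.π N hN f (by
      intro ω hω hEω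
      have a1 := hcpd ω hω
      have a2 := hcpd _ (hc1 k ω hω).2
      exact hf _ a2.pdM _ a1.pdM (Nr.near a2.psd a1.psd (Nr.symm hEω) (hL k)))
      (N * Real.exp (C * ((S.F k).n + 1))) hM1 X hX (fun ω hω => hX' _ (hcpd ω hω))
    have h2 : Real.logb 2 (N * Real.exp (C * ((S.F k).n + 1))) ≤ (Real.logb 2 N + 2 * C) + 2 * C * (S.F k).n := by
      have hN0 : (0 : ℝ) < N := by exact_mod_cast hN
      rw [Real.logb_mul hN0.ne' (Real.exp_pos _).ne']
      have h3 : Real.logb 2 (Real.exp (C * ((S.F k).n + 1))) = C * ((S.F k).n + 1) / Real.log 2 := by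
        unfold Real.logb
        rw [Real.log_exp]
      rw [h3]
      have h4 : 0 ≤ C * ((S.F k).n + 1) := by
        have := (S.F k).pos
        positivity
      have h5 : C * ((S.F k).n + 1) / Real.log 2 ≤ C * ((S.F k).n + 1) * 2 := by
        rw [div_le_iff₀ (Real.log_pos (by norm_num))]
        have h6 : (1 : ℝ) / 2 < Real.log 2 := by
          have := Real.log_two_gt_d9
          linarith
        nlinarith
      linarith
    have h3 : h (fc (Setoid.ker fun ω => Q k ((x k).g ω)) : FL (x k).l.T) (x k).l.p.top ≤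
        Real.logb 2 N + (x k).l.T.pb (fun ω => ¬ E k ω) * ((Real.logb 2 N + 2 * C) + 2 * C * (S.F k).n) + 1 := by
      refine h1.trans ?_
      have := mul_le_mul_of_nonneg_left h2 ((x k).l.T.pb_nonneg (fun ω => ¬ E k ω))
      linarith
    have h4 : (fc (Setoid.ker fun ω => Q k ((x k).g ω)) : FL (x k).l.T) ≤ (x k).l.v := by
      apply fc_le
      intro ω ω' a b c d
      show Q k ((x k).g ω) = Q k ((x k).g ω')
      rw [((x k).meas ω ω' a b d c).1]
    have h5 := I_eq (fc (Setoid.ker fun ω => Q k ((x k).g ω)) : FL (x k).l.T) (x k).l.p.top ((x k).l.p.map (Y k))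
    rw [sup_eq_left.mpr ((x k).l.p.map_le_top (Y k))] at h5
    have h6 : I (fc (Setoid.ker fun ω => Q k ((x k).g ω)) : FL (x k).l.T) (x k).l.p.top ((x k).l.p.map (Y k)) ≤
      (x k).l.leak (Y k) := I_mono_left (h4.trans le_sup_left)
    linarith
  have hR : Nul S (fun k => (x k).l.leak (Y k) + (Real.logb 2 N + (x k).l.T.pb (fun ω => ¬ E k ω) *
        ((Real.logb 2 N + 2 * C) + 2 * C * (S.F k).n) + 1)) := by
    apply hY.add
    have a1 : Nul S (fun _ => Real.logb 2 N + 1) := Nul.const S _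
    have a2 : Nul S (fun k => (x k).l.T.pb (fun ω => ¬ E k ω) * ((Real.logb 2 N + 2 * C) + 2 * C * (S.F k).n)) := by
      have a3 : Tendsto (fun k => (x k).l.T.pb (fun ω => ¬ E k ω) * ((Real.logb 2 N + 2 * C) / (S.F k).n + 2 * C)) UF
          (𝓝 (0 * (0 + 2 * C))) := t1.mul ((S.div_n_tendsto _).add tendsto_const_nhds)
      rw [zero_mul] at a3
      refine a3.congr fun k => ?_
      have := (S.F k).pos.ne'
      field_simp
    have a4 := a1.add a2
    refine a4.congr fun k => ?_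
    congr 1
    ring
  exact hR.of_le (Eventually.of_forall fun k => h_nonneg _ _) hfin

end

end Pool.Agent.Helper89.LX
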