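import Pool.Agent.Helper40.EL.D1
import Pool.Agent.Helper31.EC.Rest
import Pool.Agent.Helper89.LX.Det

/-! Canonical forms (LEAF 1.1, 1.2): labels which carry a quadratic form that bounds a gauge, forms of maximal
expected logarithmic determinant, two optimal forms agree. -/

namespace Pool.Agent.Helper89.LX

open Finset Filter Topology Matrix Pool.Agent.Helper69.RK Pool.Agent.Helper31.EC Pool.Agent.Helper40.EL
open Pool.Agent.Helper95.LF (PdM)

noncomputable section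

/-- a gauge: the size of a form at a point -/
structure Gau (S : Sp) (ι : Type) [Fintype ι] [DecidableEq ι] where
  φ : ∀ k, (S.F k).Ω → Matrix ι ι ℝ → ℝ
  add : ∀ k ω A B, φ k ω (A + B) = φ k ω A + φ k ω B
  nn : ∀ k ω A, Psd A → 0 ≤ φ k ω A
  C : ℝ
  C0 : 0 ≤ C
  cap : ∀ᶠ k in UF, ∀ ω, (S.F k).μ ω ≠ 0 → ∀ A, PdM A →
    ∀ x, qf A x ≤ 2 ^ (C * (S.F k).n) * φ k ω A * (x ⬝ᵥ x)
  one : ∃ K : ℕ → ℝ, S.Sub K ∧ ∀ᶠ k in UF, ∀ ω, (S.F k).μ ω ≠ 0 → φ k ω 1 ≤ K k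

/-- forms between the identity and the cap -/
def Cpd {ι : Type} [Fintype ι] (c : ℝ) (A : Matrix ι ι ℝ) : Prop :=
  A.IsSymm ∧ (∀ x, x ⬝ᵥ x ≤ qf A x) ∧ ∀ x, qf A x ≤ c * (x ⬝ᵥ x)

variable {ι : Type} [Fintype ι] [DecidableEq ι]

omit [DecidableEq ι] in
theorem dot_self_nonneg (x : ι → ℝ) : 0 ≤ x ⬝ᵥ x := by
  unfold dotProduct
  exact Finset.sum_nonneg fun i _ => mul_self_nonneg _

omit [DecidableEq ι] in
theorem dot_self_pos {x : ι → ℝ} (hx : x ≠ 0) : 0 < x ⬝ᵥ x := by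
  obtain ⟨i, hi⟩ := Function.ne_iff.mp hx
  unfold dotProduct
  exact Finset.sum_pos' (fun i _ => mul_self_nonneg _) ⟨i, Finset.mem_univ i, mul_self_pos.mpr hi⟩

omit [DecidableEq ι] in
theorem Cpd.psd {c : ℝ} {A : Matrix ι ι ℝ} (h : Cpd c A) : Psd A :=
  ⟨h.1, fun x => (dot_self_nonneg x).trans (h.2.1 x)⟩

omit [DecidableEq ι] in
theorem Cpd.pd {c : ℝ} {A : Matrix ι ι ℝ} (h : Cpd c A) {x : ι → ℝ} (hx : x ≠ 0) : 0 < qf A x :=
  lt_of_lt_of_le (dot_self_pos hx) (h.2.1 x)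

theorem Cpd_one {c : ℝ} (hc : 1 ≤ c) : Cpd c (1 : Matrix ι ι ℝ) := by
  refine ⟨Matrix.isSymm_one, fun x => ?_, fun x => ?_⟩
  · unfold qf; rw [Matrix.one_mulVec]
  · unfold qf; rw [Matrix.one_mulVec]
    have := dot_self_nonneg x
    nlinarith

/-- a label with two forms -/
structure FD (F : FSp) (ι : Type) where
  l : FLab F
  g : l.T.Ω → Matrix ι ι ℝ
  g' : l.T.Ω → Matrix ι ι ℝ
  meas : ∀ ω ω', l.T.μ ω ≠ 0 → l.T.μ ω' ≠ 0 → l.V ω ω' → l.T.Z ω ω' → g ω = g ω' ∧ g' ω = g' ω'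

namespace FD

variable {F : FSp} (x : FD F ι)

/-- expected logarithmic determinant of the first form -/
def sc : ℝ := ∑ ω, x.l.T.μ ω * Real.logb 2 (x.g ω).det

/-- expected logarithmic determinant of the second form -/
def sc' : ℝ := ∑ ω, x.l.T.μ ω * Real.logb 2 (x.g' ω).det

/-- exchange of the two forms -/
def swap : FD F ι where
  l := x.l
  g := x.g'
  g' := x.g
  meas := fun ω ω' a b c d => ⟨(x.meas ω ω' a b c d).2, (x.meas ω ω' a b c d).1⟩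

end FD

variable {S : Sp} (Φ : Gau S ι)

/-- the cap -/
def Gau.cp (k : ℕ) : ℝ := 2 ^ ((Φ.C + 1) * (S.F k).n)

theorem Gau.one_le_cp (k : ℕ) : 1 ≤ Φ.cp k :=
  Real.one_le_rpow (by norm_num) (mul_nonneg (by linarith [Φ.C0]) (S.F k).pos.le)

/-- admissible up to `η` at the index `k` -/
def Gau.Adm (A B : Part S) (η : ℝ) (k : ℕ) (x : FD (S.F k) ι) : Prop :=
  x.l.leak (A k) ≤ η * (S.F k).n ∧ x.l.leak (B k) ≤ η * (S.F k).n ∧
  (∀ ω, x.l.T.μ ω ≠ 0 → Cpd (Φ.cp k) (x.g ω) ∧ Cpd (Φ.cp k) (x.g' ω)) ∧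
  x.l.T.pb (fun ω => ¬ Φ.φ k (x.l.p.π ω) (x.g ω) ≤ 2 ^ (η * (S.F k).n)) ≤ η ∧
  x.l.T.pb (fun ω => ¬ Φ.φ k (x.l.p.π ω) (x.g' ω) ≤ 2 ^ (η * (S.F k).n)) ≤ η

/-- admissible sequences -/
def Gau.Ad (A B : Part S) (x : ∀ k, FD (S.F k) ι) : Prop := ∀ η : ℝ, 0 < η → ∀ᶠ k in UF, Φ.Adm A B η k (x k)

theorem Gau.Adm.mono {A B : Part S} {η η' : ℝ} (h : η ≤ η') {k : ℕ} {x : FD (S.F k) ι} (hx : Φ.Adm A B η k x) :
    Φ.Adm A B η' k x := by
  have hn := (S.F k).pos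
  have h1 : η * (S.F k).n ≤ η' * (S.F k).n := mul_le_mul_of_nonneg_right h hn.le
  have h2 : (2 : ℝ) ^ (η * (S.F k).n) ≤ 2 ^ (η' * (S.F k).n) :=
    Real.rpow_le_rpow_of_exponent_le (by norm_num) h1
  refine ⟨hx.1.trans h1, hx.2.1.trans h1, hx.2.2.1, ?_, ?_⟩
  · refine le_trans (x.l.T.pb_mono ?_) (hx.2.2.2.1.trans h)
    intro ω _ h3 h4
    exact h3 (h4.trans h2)
  · refine le_trans (x.l.T.pb_mono ?_) (hx.2.2.2.2.trans h)
    intro ω _ h3 h4
    exact h3 (h4.trans h2)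

/-- diagonal: if admissible sequences up to `1/(j+1)` exist with a property `P j` which gets stronger, there is an
admissible sequence with all the properties -/
theorem Gau.diag (A B : Part S) (x : ℕ → ∀ k, FD (S.F k) ι) (P : ℕ → ∀ k, FD (S.F k) ι → Prop)
    (hx : ∀ j : ℕ, ∀ᶠ k in UF, Φ.Adm A B (1 / ((j : ℝ) + 1)) k (x j k) ∧ P j k (x j k)) :
    ∃ (y : ∀ k, FD (S.F k) ι) (J : ℕ → ℕ), Tendsto J UF atTop ∧ Φ.Ad A B y ∧ ∀ᶠ k in UF, P (J k) k (y k) := by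
  obtain ⟨y, J, hJ, hy, hG⟩ := dia' x (fun j k z => Φ.Adm A B (1 / ((j : ℝ) + 1)) k z ∧ P j k z) hx
  refine ⟨y, J, hJ, fun η hη => ?_, ?_⟩
  · have h0 : Tendsto (fun k => 1 / ((J k : ℝ) + 1)) UF (𝓝 0) :=
      tendsto_one_div_add_atTop_nhds_zero_nat.comp hJ
    filter_upwards [hG, h0.eventually (gt_mem_nhds hη)] with k hk h1
    exact Gau.Adm.mono Φ h1.le hk.1
  · filter_upwards [hG] with k hk using hk.2

/-! ### scores -/

omit [DecidableEq ι] in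
theorem sum_mul_le {F : FSp} (f : F.Ω → ℝ) (c : ℝ) (h : ∀ ω, F.μ ω ≠ 0 → f ω ≤ c) : ∑ ω, F.μ ω * f ω ≤ c := by
  calc ∑ ω, F.μ ω * f ω ≤ ∑ ω, F.μ ω * c := by
        apply Finset.sum_le_sum
        intro ω _
        by_cases h0 : F.μ ω = 0
        · rw [h0, zero_mul, zero_mul]
        · exact mul_le_mul_of_nonneg_left (h ω h0) (F.nn ω)
    _ = c := by
        rw [← Finset.sum_mul]
        have : ∑ ω, F.μ ω = 1 := F.ms
        rw [this, one_mul]

theorem Cpd.one_le {c : ℝ} {A : Matrix ι ι ℝ} (h : Cpd c A) : 1 ≤ A.det := one_le_det' h.1 h.2.1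

omit [DecidableEq ι] in
theorem Cpd.pdM {c : ℝ} {A : Matrix ι ι ℝ} (h : Cpd c A) : PdM A := pdM_of_one_le h.1 h.2.1

theorem logdet_nonneg {c : ℝ} {A : Matrix ι ι ℝ} (h : Cpd c A) : 0 ≤ Real.logb 2 A.det :=
  Real.logb_nonneg (by norm_num) h.one_le

theorem logdet_le {c : ℝ} (hc : 1 ≤ c) {A : Matrix ι ι ℝ} (h : Cpd c A) :
    Real.logb 2 A.det ≤ Fintype.card ι * Real.logb 2 c := by
  have h1 := det_le_pow' (zero_lt_one.trans_le hc) h.1 h.2.1 h.2.2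
  have h2 := h.one_le
  calc Real.logb 2 A.det ≤ Real.logb 2 (c ^ Fintype.card ι) :=
        Real.logb_le_logb_of_le (by norm_num) (by linarith) h1
    _ = _ := by rw [Real.logb_pow]

theorem Gau.logb_cp (k : ℕ) : Real.logb 2 (Φ.cp k) = (Φ.C + 1) * (S.F k).n := by
  unfold Gau.cp
  rw [Real.logb_rpow (by norm_num) (by norm_num)]

theorem Gau.sc_bounds {A B : Part S} {η : ℝ} {k : ℕ} {x : FD (S.F k) ι} (hx : Φ.Adm A B η k x) :
    0 ≤ x.sc / (S.F k).n ∧ x.sc / (S.F k).n ≤ Fintype.card ι * (Φ.C + 1) := by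
  have hn := (S.F k).pos
  constructor
  · apply div_nonneg _ hn.le
    unfold FD.sc
    apply Finset.sum_nonneg
    intro ω _
    by_cases h0 : x.l.T.μ ω = 0
    · rw [h0, zero_mul]
    · exact mul_nonneg (x.l.T.nn ω) (logdet_nonneg (hx.2.2.1 ω h0).1)
  · rw [div_le_iff₀ hn]
    unfold FD.sc
    apply sum_mul_le (F := x.l.T)
    intro ω h0
    have h1 := logdet_le (Φ.one_le_cp k) (hx.2.2.1 ω h0).1
    rw [Φ.logb_cp] at h1
    linarith

theorem Gau.sc_UB {A B : Part S} {x : ∀ k, FD (S.F k) ι} (hx : Φ.Ad A B x) :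
    UB (fun k => (x k).sc / (S.F k).n) := by
  apply UB_of_nonneg_le (C := Fintype.card ι * (Φ.C + 1))
  · filter_upwards [hx 1 one_pos] with k hk using (Φ.sc_bounds hk).1
  · filter_upwards [hx 1 one_pos] with k hk using (Φ.sc_bounds hk).2

/-- the trivial label with the identity form -/
def trivFD (F : FSp) : FD F ι where
  l := FLab.triv F
  g := fun _ => 1
  g' := fun _ => 1
  meas := fun _ _ _ _ _ _ => ⟨rfl, rfl⟩

theorem Gau.triv_Ad (A B : Part S) : Φ.Ad A B (fun k => trivFD (S.F k)) := by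
  intro η hη
  obtain ⟨K, hK, h1⟩ := Φ.one
  filter_upwards [h1, hK.eventually_le hη] with k a b
  have hn := (S.F k).pos
  have h0 : (trivFD (ι := ι) (S.F k)).l.T.pb (fun ω => ¬ Φ.φ k ((trivFD (ι := ι) (S.F k)).l.p.π ω) 1 ≤
      2 ^ (η * (S.F k).n)) ≤ η := by
    have h2 : (trivFD (ι := ι) (S.F k)).l.T.pb (fun ω => ¬ Φ.φ k ((trivFD (ι := ι) (S.F k)).l.p.π ω) 1 ≤
      2 ^ (η * (S.F k).n)) ≤ (trivFD (ι := ι) (S.F k)).l.T.pb (fun _ => False) := by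
      apply FSp.pb_mono
      intro ω h3 h4
      exact h4 ((a ω h3).trans (by linarith))
    have h3 : (trivFD (ι := ι) (S.F k)).l.T.pb (fun _ => False) = 0 := by
      unfold FSp.pb mass
      apply Finset.sum_eq_zero
      intro ω _
      exact res_neg _ _ _ not_false
    linarith
  refine ⟨?_, ?_, fun ω _ => ⟨Cpd_one (Φ.one_le_cp k), Cpd_one (Φ.one_le_cp k)⟩, h0, h0⟩
  · have : (trivFD (ι := ι) (S.F k)).l.leak (A k) = 0 := FLab.triv_leak _
    rw [this]; positivity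
  · have : (trivFD (ι := ι) (S.F k)).l.leak (B k) = 0 := FLab.triv_leak _
    rw [this]; positivity

/-- optimal sequences -/
def Gau.Opt (A B : Part S) (x : ∀ k, FD (S.F k) ι) : Prop :=
  Φ.Ad A B x ∧ ∀ y, Φ.Ad A B y → ul (fun k => (y k).sc / (S.F k).n) ≤ ul (fun k => (x k).sc / (S.F k).n)

/-- (1.1) optimal forms exist -/
theorem Gau.exists_opt (A B : Part S) : ∃ x : ∀ k, FD (S.F k) ι, Φ.Opt A B x := by
  set V : Set ℝ := {r | ∃ x : ∀ k, FD (S.F k) ι, Φ.Ad A B x ∧ r = ul (fun k => (x k).sc / (S.F k).n)} with hV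
  have hVb : BddAbove V := by
    refine ⟨Fintype.card ι * (Φ.C + 1), ?_⟩
    rintro r ⟨x, hx, rfl⟩
    apply ul_le_const (Φ.sc_UB hx)
    filter_upwards [hx 1 one_pos] with k hk using (Φ.sc_bounds hk).2
  have hVn : V.Nonempty := ⟨_, _, Φ.triv_Ad A B, rfl⟩
  have h1 : ∀ j : ℕ, ∃ x : ∀ k, FD (S.F k) ι, Φ.Ad A B x ∧
      sSup V - 1 / ((j : ℝ) + 1) < ul (fun k => (x k).sc / (S.F k).n) := by
    intro j
    have h2 : sSup V - 1 / ((j : ℝ) + 1) < sSup V := by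
      have : (0 : ℝ) < 1 / ((j : ℝ) + 1) := by positivity
      linarith
    obtain ⟨r, ⟨x, hx, rfl⟩, hr⟩ := exists_lt_of_lt_csSup hVn h2
    exact ⟨x, hx, hr⟩
  choose x hx hx' using h1
  obtain ⟨y, J, hJ, hy, hP⟩ := Φ.diag A B x (fun j k z => sSup V - 1 / ((j : ℝ) + 1) ≤ z.sc / (S.F k).n) (by
    intro j
    filter_upwards [hx j _ (by positivity : (0 : ℝ) < 1 / ((j : ℝ) + 1)),
      eventually_gt_of_lt_ul (Φ.sc_UB (hx j)) (hx' j)] with k a b using ⟨a, b.le⟩)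
  refine ⟨y, hy, fun z hz => ?_⟩
  have h2 : ul (fun k => (z k).sc / (S.F k).n) ≤ sSup V := le_csSup hVb ⟨z, hz, rfl⟩
  refine h2.trans ?_
  have h0 : Tendsto (fun k => 1 / ((J k : ℝ) + 1)) UF (𝓝 0) :=
    tendsto_one_div_add_atTop_nhds_zero_nat.comp hJ
  have h3 : Tendsto (fun k => sSup V - 1 / ((J k : ℝ) + 1)) UF (𝓝 (sSup V)) := by
    have := h0.const_sub (sSup V)
    rwa [sub_zero] at this
  exact le_of_tendsto_of_tendsto h3 (ul_tendsto (Φ.sc_UB hy)) hP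

open Classical in
/-- the sum of the two forms, truncated at the cap -/
def sumFD {F : FSp} (c : ℝ) (x : FD F ι) : FD F ι where
  l := x.l
  g := fun ω => if Cpd c (x.g ω + x.g' ω) then x.g ω + x.g' ω else x.g ω
  g' := fun ω => if Cpd c (x.g ω + x.g' ω) then x.g ω + x.g' ω else x.g ω
  meas := fun ω ω' a b c d => by
    obtain ⟨h1, h2⟩ := x.meas ω ω' a b c d
    rw [h1, h2]
    exact ⟨rfl, rfl⟩

omit [DecidableEq ι] in
theorem qf_add (A B : Matrix ι ι ℝ) (x : ι → ℝ) : qf (A + B) x = qf A x + qf B x := by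
  unfold qf
  rw [Matrix.add_mulVec, dotProduct_add]

omit [DecidableEq ι] in
theorem Psd.add {A B : Matrix ι ι ℝ} (hA : Psd A) (hB : Psd B) : Psd (A + B) :=
  ⟨hA.1.add hB.1, fun x => by rw [qf_add]; exact add_nonneg (hA.2 x) (hB.2 x)⟩

theorem Gau.sum_cases {A B : Part S} {η : ℝ} {k : ℕ} {x : FD (S.F k) ι} (hx : Φ.Adm A B η k x) (ω : x.l.T.Ω)
    (h0 : x.l.T.μ ω ≠ 0) : Φ.φ k (x.l.p.π ω) ((sumFD (Φ.cp k) x).g ω) ≤
      Φ.φ k (x.l.p.π ω) (x.g ω) + Φ.φ k (x.l.p.π ω) (x.g' ω) := by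
  classical
  unfold sumFD
  show Φ.φ k (x.l.p.π ω) (if Cpd (Φ.cp k) (x.g ω + x.g' ω) then x.g ω + x.g' ω else x.g ω) ≤ _
  split_ifs
  · rw [Φ.add]
  · have := Φ.nn k (x.l.p.π ω) _ (hx.2.2.1 ω h0).2.psd
    linarith

/-- the cap is not reached typically -/
theorem Gau.sum_typ {A B : Part S} {x : ∀ k, FD (S.F k) ι} (hx : Φ.Ad A B x) :
    Tendsto (fun k => (x k).l.T.pb (fun ω => ¬ Cpd (Φ.cp k) ((x k).g ω + (x k).g' ω))) UF (𝓝 0) := by
  rw [Metric.tendsto_nhds]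
  intro ε hε
  set η : ℝ := min (ε / 4) (1 / 2) with hη
  have hη0 : 0 < η := lt_min (by linarith) (by norm_num)
  have hη1 : η ≤ 1 / 2 := min_le_right _ _
  have hη2 : η ≤ ε / 4 := min_le_left _ _
  have hnk : ∀ᶠ k in UF, (2 : ℝ) ≤ (S.F k).n := S.lim.eventually (eventually_ge_atTop 2)
  filter_upwards [hx η hη0, Φ.cap, hnk] with k hk hcap hn2
  rw [Real.dist_eq, sub_zero, abs_of_nonneg ((x k).l.T.pb_nonneg _)]
  have hn := (S.F k).pos
  have h1 : (x k).l.T.pb (fun ω => ¬ Cpd (Φ.cp k) ((x k).g ω + (x k).g' ω)) ≤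
      (x k).l.T.pb (fun ω => ¬ Φ.φ k ((x k).l.p.π ω) ((x k).g ω) ≤ 2 ^ (η * (S.F k).n)) +
      (x k).l.T.pb (fun ω => ¬ Φ.φ k ((x k).l.p.π ω) ((x k).g' ω) ≤ 2 ^ (η * (S.F k).n)) := by
    refine le_trans (FSp.pb_mono _ (E' := fun ω => (¬ Φ.φ k ((x k).l.p.π ω) ((x k).g ω) ≤ 2 ^ (η * (S.F k).n)) ∨
      (¬ Φ.φ k ((x k).l.p.π ω) ((x k).g' ω) ≤ 2 ^ (η * (S.F k).n))) ?_) (pb_or _ _ _)
    intro ω h0 h2
    by_contra hc
    push Not at hc
    apply h2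
    obtain ⟨c1, c2⟩ := hk.2.2.1 ω h0
    refine ⟨c1.1.add c2.1, fun y => ?_, fun y => ?_⟩
    · rw [qf_add]
      have a := c1.2.1 y
      have b := c2.psd.2 y
      linarith
    · have h3 := hcap ((x k).l.p.π ω) ((x k).l.p.supp ω h0) _ (c1.pdM.add c2.psd.1 c2.psd.2) y
      rw [Φ.add] at h3
      refine h3.trans ?_
      apply mul_le_mul_of_nonneg_right _ (dot_self_nonneg y)
      unfold Gau.cp
      rw [add_mul, one_mul, Real.rpow_add (by norm_num)]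
      apply mul_le_mul_of_nonneg_left _ (by positivity)
      have e1 : (2 : ℝ) ^ (η * (S.F k).n) ≤ 2 ^ ((S.F k).n - 1) := by
        apply Real.rpow_le_rpow_of_exponent_le (by norm_num)
        nlinarith
      have e2 : (2 : ℝ) ^ ((S.F k).n) = 2 ^ ((S.F k).n - 1) * 2 := by
        rw [Real.rpow_sub_one (by norm_num)]; ring
      rw [e2]
      linarith [hc.1, hc.2]
  have h2 := hk.2.2.2.1
  have h3 := hk.2.2.2.2
  linarith

theorem Gau.sum_Ad {A B : Part S} {x : ∀ k, FD (S.F k) ι} (hx : Φ.Ad A B x) :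
    Φ.Ad A B (fun k => sumFD (Φ.cp k) (x k)) := by
  classical
  intro η hη
  have hη4 : 0 < η / 4 := by linarith
  have hnk : ∀ᶠ k in UF, (4 / η : ℝ) ≤ (S.F k).n := S.lim.eventually (eventually_ge_atTop _)
  filter_upwards [hx _ hη4, hnk] with k hk hnk
  have hn := (S.F k).pos
  have e0 : η / 4 * (S.F k).n ≤ η * (S.F k).n := by nlinarith
  have h1 : (x k).l.T.pb (fun ω => ¬ Φ.φ k ((x k).l.p.π ω) ((sumFD (Φ.cp k) (x k)).g ω) ≤ 2 ^ (η * (S.F k).n)) ≤ η := by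
    have h2 : (x k).l.T.pb (fun ω => ¬ Φ.φ k ((x k).l.p.π ω) ((sumFD (Φ.cp k) (x k)).g ω) ≤ 2 ^ (η * (S.F k).n)) ≤
        (x k).l.T.pb (fun ω => ¬ Φ.φ k ((x k).l.p.π ω) ((x k).g ω) ≤ 2 ^ (η / 4 * (S.F k).n)) +
        (x k).l.T.pb (fun ω => ¬ Φ.φ k ((x k).l.p.π ω) ((x k).g' ω) ≤ 2 ^ (η / 4 * (S.F k).n)) := by
      refine le_trans (FSp.pb_mono _ (E' := fun ω => (¬ Φ.φ k ((x k).l.p.π ω) ((x k).g ω) ≤ 2 ^ (η / 4 * (S.F k).n)) ∨
        (¬ Φ.φ k ((x k).l.p.π ω) ((x k).g' ω) ≤ 2 ^ (η / 4 * (S.F k).n))) ?_) (pb_or _ _ _)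
      intro ω h0 h2
      by_contra hc
      push Not at hc
      apply h2
      refine (Φ.sum_cases hk ω h0).trans ?_
      have e1 : (2 : ℝ) ^ (η / 4 * (S.F k).n) * 2 ≤ 2 ^ (η * (S.F k).n) := by
        rw [← Real.rpow_add_one (by norm_num)]
        apply Real.rpow_le_rpow_of_exponent_le (by norm_num)
        have : 1 ≤ η / 4 * (S.F k).n := by
          rw [div_le_iff₀ hη] at hnk
          linarith
        nlinarith
      linarith [hc.1, hc.2]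
    linarith [hk.2.2.2.1, hk.2.2.2.2]
  refine ⟨hk.1.trans e0, hk.2.1.trans e0, fun ω h0 => ?_, h1, h1⟩
  have h2 : Cpd (Φ.cp k) ((sumFD (Φ.cp k) (x k)).g ω) := by
    show Cpd (Φ.cp k) (if Cpd (Φ.cp k) ((x k).g ω + (x k).g' ω) then (x k).g ω + (x k).g' ω else (x k).g ω)
    split_ifs with h3
    · exact h3
    · exact (hk.2.2.1 ω h0).1
  exact ⟨h2, h2⟩

/-- (1.2) an optimal form dominates every bounding form -/
theorem Gau.opt_near {A B : Part S} {x : ∀ k, FD (S.F k) ι} (hx : Φ.Ad A B x)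
    (hopt : ∀ y, Φ.Ad A B y → ul (fun k => (y k).sc / (S.F k).n) ≤ ul (fun k => (x k).sc / (S.F k).n))
    (e : ℝ) (he : 0 < e) :
    Tendsto (fun k => (x k).l.T.pb (fun ω => ¬ ∀ y, qf ((x k).g' ω) y ≤ 2 ^ (e * (S.F k).n) * qf ((x k).g ω) y))
      UF (𝓝 0) := by
  classical
  set z : ∀ k, FD (S.F k) ι := fun k => sumFD (Φ.cp k) (x k) with hz
  have hzA : Φ.Ad A B z := Φ.sum_Ad hx
  have h1 := hopt z hzA
  have t1 := ul_tendsto (Φ.sc_UB hzA)
  have t2 := ul_tendsto (Φ.sc_UB hx)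
  set Ev : ∀ k, (x k).l.T.Ω → Prop := fun k ω =>
    (¬ ∀ y, qf ((x k).g' ω) y ≤ 2 ^ (e * (S.F k).n) * qf ((x k).g ω) y) ∧
      Cpd (Φ.cp k) ((x k).g ω + (x k).g' ω) with hEv
  have hd : ∀ᶠ k in UF, e * (x k).l.T.pb (Ev k) ≤ (z k).sc / (S.F k).n - (x k).sc / (S.F k).n := by
    filter_upwards [hx 1 one_pos] with k hk
    have hn := (S.F k).pos
    rw [← sub_div, le_div_iff₀ hn]
    unfold FD.sc FSp.pb mass
    show e * (∑ ω, res (x k).l.T.μ (Ev k) ω) * (S.F k).n ≤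
      (∑ ω : (x k).l.T.Ω, (x k).l.T.μ ω * Real.logb 2 ((z k).g ω).det) -
      ∑ ω, (x k).l.T.μ ω * Real.logb 2 ((x k).g ω).det
    rw [← Finset.sum_sub_distrib, mul_comm e, mul_assoc, Finset.sum_mul]
    apply Finset.sum_le_sum
    intro ω _
    by_cases h0 : (x k).l.T.μ ω = 0
    · rw [h0, zero_mul, zero_mul, sub_zero]
      unfold res
      split_ifs
      · rw [h0, zero_mul]
      · rw [zero_mul]
    · obtain ⟨c1, c2⟩ := hk.2.2.1 ω h0
      have hμ : 0 ≤ (x k).l.T.μ ω := (x k).l.T.nn ω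
      have hz1 : (z k).g ω = if Cpd (Φ.cp k) ((x k).g ω + (x k).g' ω) then (x k).g ω + (x k).g' ω
        else (x k).g ω := rfl
      have hdet : 0 < ((x k).g ω).det := zero_lt_one.trans_le c1.one_le
      rw [← mul_sub]
      by_cases hN : Ev k ω
      · rw [res_pos _ _ _ hN, hz1, if_pos hN.2]
        apply mul_le_mul_of_nonneg_left _ hμ
        obtain ⟨y, hy⟩ := not_forall.mp hN.1
        push Not at hy
        have hy0 : y ≠ 0 := by
          intro h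
          subst h
          unfold qf at hy
          simp at hy
        have h2 := det_gain' c1.pdM c2.psd (2 ^ (e * (S.F k).n)) y hy0 hy.le
        have h3 : (2 : ℝ) ^ (e * (S.F k).n) * ((x k).g ω).det ≤ ((x k).g ω + (x k).g' ω).det := by
          refine le_trans ?_ h2
          apply mul_le_mul_of_nonneg_right _ hdet.le
          linarith
        have h4 := Real.logb_le_logb_of_le (b := 2) (by norm_num) (by positivity) h3
        rw [Real.logb_mul (by positivity) hdet.ne', Real.logb_rpow (by norm_num) (by norm_num)] at h4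
        linarith
      · rw [res_neg _ _ _ hN, zero_mul]
        apply mul_nonneg hμ
        rw [hz1]
        split_ifs with h3
        · have h2 := det_gain_zero c1.pdM c2.psd
          have h4 := Real.logb_le_logb_of_le (b := 2) (by norm_num) hdet h2
          linarith
        · linarith
  have hlim : Tendsto (fun k => (z k).sc / (S.F k).n - (x k).sc / (S.F k).n) UF
      (𝓝 (ul (fun k => (z k).sc / (S.F k).n) - ul (fun k => (x k).sc / (S.F k).n))) := t1.sub t2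
  have hle : ul (fun k => (z k).sc / (S.F k).n) - ul (fun k => (x k).sc / (S.F k).n) ≤ 0 := by linarith
  have hge : 0 ≤ ul (fun k => (z k).sc / (S.F k).n) - ul (fun k => (x k).sc / (S.F k).n) := by
    apply ge_of_tendsto hlim
    filter_upwards [hd] with k hk
    exact (mul_nonneg he.le ((x k).l.T.pb_nonneg _)).trans hk
  have heq : ul (fun k => (z k).sc / (S.F k).n) - ul (fun k => (x k).sc / (S.F k).n) = 0 := le_antisymm hle hge
  rw [heq] at hlim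
  have hN : Tendsto (fun k => (x k).l.T.pb (Ev k)) UF (𝓝 0) := by
    have h5 := hlim.const_mul e⁻¹
    rw [mul_zero] at h5
    refine tendsto_of_tendsto_of_tendsto_of_le_of_le' tendsto_const_nhds h5
      (Eventually.of_forall fun k => (x k).l.T.pb_nonneg _) ?_
    filter_upwards [hd] with k hk
    rw [← div_eq_inv_mul, le_div_iff₀ he, mul_comm]
    exact hk
  have hsum := hN.add (Φ.sum_typ hx)
  rw [add_zero] at hsum
  refine tendsto_of_tendsto_of_tendsto_of_le_of_le tendsto_const_nhds hsum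
    (fun k => (x k).l.T.pb_nonneg _) (fun k => ?_)
  refine le_trans (FSp.pb_mono _ (E' := fun ω => Ev k ω ∨ ¬ Cpd (Φ.cp k) ((x k).g ω + (x k).g' ω)) ?_)
    (pb_or _ _ _)
  intro ω _ h2
  by_cases h3 : Cpd (Φ.cp k) ((x k).g ω + (x k).g' ω)
  · exact Or.inl ⟨h2, h3⟩
  · exact Or.inr h3

/-- the approximate version: `x₀` is an optimal sequence -/
theorem Gau.approx {A B : Part S} {x₀ : ∀ k, FD (S.F k) ι} (h₀ : Φ.Opt A B x₀) (e : ℝ) (he : 0 < e) :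
    ∃ η : ℝ, 0 < η ∧ ∀ x : ∀ k, FD (S.F k) ι,
      (∀ᶠ k in UF, Φ.Adm A B η k (x k) ∧ ul (fun k => (x₀ k).sc / (S.F k).n) - η ≤ (x k).sc / (S.F k).n) →
      ∀ᶠ k in UF, (x k).l.T.pb (fun ω => ¬ ∀ y, qf ((x k).g' ω) y ≤ 2 ^ (e * (S.F k).n) * qf ((x k).g ω) y) ≤ e := by
  by_contra hc
  have h1 : ∀ j : ℕ, ∃ x : ∀ k, FD (S.F k) ι,
      (∀ᶠ k in UF, Φ.Adm A B (1 / ((j : ℝ) + 1)) k (x k) ∧
        ul (fun k => (x₀ k).sc / (S.F k).n) - 1 / ((j : ℝ) + 1) ≤ (x k).sc / (S.F k).n) ∧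
      ∀ᶠ k in UF, e ≤ (x k).l.T.pb (fun ω => ¬ ∀ y, qf ((x k).g' ω) y ≤ 2 ^ (e * (S.F k).n) * qf ((x k).g ω) y) := by
    intro j
    by_contra hj
    apply hc
    refine ⟨1 / ((j : ℝ) + 1), by positivity, fun x hx => ?_⟩
    by_contra hx'
    apply hj
    refine ⟨x, hx, ?_⟩
    have h2 := Ultrafilter.eventually_not.mpr hx'
    filter_upwards [h2] with k hk
    exact (not_le.mp hk).le
  choose x hx hx' using h1
  obtain ⟨y, J, hJ, hy, hP⟩ := Φ.diag A B x (fun j k z =>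
      ul (fun k => (x₀ k).sc / (S.F k).n) - 1 / ((j : ℝ) + 1) ≤ z.sc / (S.F k).n ∧
      e ≤ z.l.T.pb (fun ω => ¬ ∀ y, qf (z.g' ω) y ≤ 2 ^ (e * (S.F k).n) * qf (z.g ω) y)) (by
    intro j
    filter_upwards [hx j, hx' j] with k a b using ⟨a.1, a.2, b⟩)
  have h0 : Tendsto (fun k => 1 / ((J k : ℝ) + 1)) UF (𝓝 0) :=
    tendsto_one_div_add_atTop_nhds_zero_nat.comp hJ
  have h3 : ul (fun k => (x₀ k).sc / (S.F k).n) ≤ ul (fun k => (y k).sc / (S.F k).n) := by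
    have h4 : Tendsto (fun k => ul (fun k => (x₀ k).sc / (S.F k).n) - 1 / ((J k : ℝ) + 1)) UF
        (𝓝 (ul (fun k => (x₀ k).sc / (S.F k).n))) := by
      have := h0.const_sub (ul (fun k => (x₀ k).sc / (S.F k).n))
      rwa [sub_zero] at this
    exact le_of_tendsto_of_tendsto h4 (ul_tendsto (Φ.sc_UB hy)) (by filter_upwards [hP] with k hk using hk.1)
  have h4 := Φ.opt_near hy (fun z hz => (h₀.2 z hz).trans h3) e he
  have h5 : e ≤ 0 := by
    apply ge_of_tendsto h4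
    filter_upwards [hP] with k hk using hk.2
  linarith

end

end Pool.Agent.Helper89.LX
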