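import Pool.Agent.Helper89.LX.Jn
import Pool.Agent.Helper3.LF.PhiRem
import Pool.Agent.Helper3.LF.Cap
import Pool.Agent.Helper40.EL.W1

/-! Forms of degree at most `D` as a gauge of a system of lines; thickness `H(c,s)` of the best hypersurface
container (LEAF 0.5). -/

namespace Pool.Agent.Helper89.LX

open Finset Filter Topology Matrix Pool.Agent.Helper69.RK Pool.Agent.Helper31.EC Pool.Agent.Helper40.EL
open Pool.Agent.Helper95.LF (PdM)
open Pool.Agent.Helper3.LF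

noncomputable section

variable {S : Sp} {m : ℕ}

theorem Sub_pow' {K : ℕ → ℝ} (hK : S.Sub K) (N : ℕ) : S.Sub (fun k => K k ^ N) := by
  induction N with
  | zero => simpa using S.Sub_const zero_le_one
  | succ N ih =>
    have h1 := ih.mul hK
    simpa [pow_succ] using h1

/-- the point `(t, P)` of a system -/
def ptf (s : Sys S m) (k : ℕ) (ω : (S.F k).Ω) : Fin (m + 1) → ℝ := pl (s.a.v k ω) (s.x.v k ω) (s.t.v k ω 0)

/-- points are tame -/
theorem ptf_bd (s : Sys S m) : ∃ K : ℕ → ℝ, S.Sub K ∧ ∀ᶠ k in UF, ∀ ω, (S.F k).μ ω ≠ 0 → ∀ i, |ptf s k ω i| ≤ K k := by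
  obtain ⟨Ka, hKa, ha⟩ := s.a.bd
  obtain ⟨Kx, hKx, hx⟩ := s.x.bd
  obtain ⟨Kt, hKt, ht⟩ := s.t.bd
  refine ⟨fun k => Kt k + (Ka k + Kt k * Kx k), hKt.add (hKa.add (hKt.mul hKx)), ?_⟩
  filter_upwards [ha, hx, ht, hKa.1, hKx.1, hKt.1] with k h1 h2 h3 h4 h5 h6 ω hω i
  have h7 : 0 ≤ Kt k * Kx k := mul_nonneg h6 h5
  refine Fin.cases ?_ (fun j => ?_) i
  · show |s.t.v k ω 0| ≤ _
    have := h3 ω hω 0
    linarith
  · show |s.a.v k ω j + s.t.v k ω 0 * s.x.v k ω j| ≤ _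
    have e1 := abs_add_le (s.a.v k ω j) (s.t.v k ω 0 * s.x.v k ω j)
    rw [abs_mul] at e1
    have e2 : |s.t.v k ω 0| * |s.x.v k ω j| ≤ Kt k * Kx k :=
      mul_le_mul (h3 ω hω 0) (h2 ω hω j) (abs_nonneg _) h6
    have := h1 ω hω j
    linarith

/-- the size of a form at the point of a system -/
def sph (s : Sys S m) (D : ℕ) (k : ℕ) (ω : (S.F k).Ω) (A : Matrix (Mon (m + 1) D) (Mon (m + 1) D) ℝ) : ℝ :=
  phi (S.dl 1 k) A (ptf s k ω)

/-- the size of the gradient of a form at the point of a system -/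
def sga (s : Sys S m) (D : ℕ) (k : ℕ) (ω : (S.F k).Ω) (A : Matrix (Mon (m + 1) D) (Mon (m + 1) D) ℝ) : ℝ :=
  gam (S.dl 1 k) A (ptf s k ω)

theorem dl_one_le (S : Sp) (k : ℕ) : S.dl 1 k ≤ 1 := by
  have := S.dl_anti (zero_le_one) k
  rwa [S.dl_zero] at this

theorem inv_dl_one (S : Sp) (k : ℕ) : (S.dl 1 k)⁻¹ = 2 ^ ((S.F k).n) := by
  unfold Sp.dl
  rw [one_mul, Real.rpow_neg (by norm_num), inv_inv]

/-- the gauge of a system -/
def gau (s : Sys S m) (D : ℕ) : Gau S (Mon (m + 1) D) where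
  φ := sph s D
  add := fun k ω A B => phi_add _ A B _
  nn := fun k ω A hA => phi_nonneg _ hA.2 _
  C := 2 * D + 1
  C0 := by positivity
  cap := by
    obtain ⟨C, hC0, hC⟩ := exists_cap (m + 1) D
    obtain ⟨K, hK, hb⟩ := ptf_bd s
    have hs : S.Sub (fun k => C * (K k + 1) ^ (2 * D)) :=
      (S.Sub_const hC0).mul (Sub_pow' (hK.add (S.Sub_const zero_le_one)) _)
    filter_upwards [hb, hs.eventually_le one_pos, hK.1] with k h1 h2 hK0 ω hω A hA x
    have hd := S.dl_pos 1 k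
    have hd1 := dl_one_le S k
    have hR : 1 ≤ (K k + 1) * (S.dl 1 k)⁻¹ := by
      have := (one_le_inv₀ hd).mpr hd1
      nlinarith
    have h3 := hC A hA (S.dl 1 k) ((K k + 1) * (S.dl 1 k)⁻¹) (ptf s k ω) hd hR (by
      intro i
      rw [mul_assoc, inv_mul_cancel₀ hd.ne', mul_one]
      have := h1 ω hω i
      linarith) x
    refine h3.trans ?_
    apply mul_le_mul_of_nonneg_right _ (dot_self_nonneg x)
    apply mul_le_mul_of_nonneg_right _ (phi_nonneg _ (fun y => hA.nonneg y) _)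
    rw [inv_dl_one, mul_pow]
    have e1 : ((2 : ℝ) ^ ((S.F k).n)) ^ (2 * D) = 2 ^ (2 * D * (S.F k).n) := by
      rw [← Real.rpow_natCast, ← Real.rpow_mul (by norm_num)]
      congr 1
      push_cast
      ring
    rw [e1, add_mul, Real.rpow_add (by norm_num), ← mul_assoc, mul_comm]
    apply mul_le_mul_of_nonneg_left _ (by positivity)
    linarith
  one := by
    obtain ⟨K, hK, hb⟩ := ptf_bd s
    refine ⟨fun k => nn (m + 1) D * Fintype.card (Mon (m + 1) D) * (K k + 1) ^ (2 * D), ?_, ?_⟩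
    · have h0 : (0 : ℝ) ≤ nn (m + 1) D * Fintype.card (Mon (m + 1) D) := by
        have := nn_one (m + 1) D
        positivity
      exact (S.Sub_const h0).mul (Sub_pow' (hK.add (S.Sub_const zero_le_one)) _)
    · filter_upwards [hb, hK.1] with k h1 hK0 ω hω
      have h2 := phi_le (1 : Matrix (Mon (m + 1) D) (Mon (m + 1) D) ℝ) 1 (fun x => by
        rw [Matrix.one_mulVec, one_mul]) zero_le_one (S.dl 1 k) (K k + 1) (S.dl_pos 1 k).le (by linarith)
        (ptf s k ω) (fun i => add_le_add (h1 ω hω i) (dl_one_le S k))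
      rw [mul_one] at h2
      exact h2

/-- `H(c,s)`: there is a label of the window `c` with a bounding form whose gradient is at least `2^(s n)` -/
def Hf (s : Sys S m) (D : ℕ) (c σ : ℝ) : Prop :=
  ∃ x : ∀ k, FD (S.F k) (Mon (m + 1) D), (gau s D).Ad (cA s c) (cB s) x ∧
    ∀ e : ℝ, 0 < e → Tendsto (fun k => (x k).l.T.pb (fun ω =>
      ¬ 2 ^ (2 * (σ - e) * (S.F k).n) ≤ sga s D k ((x k).l.p.π ω) ((x k).g ω))) UF (𝓝 0)

/-- the canonical form: one label `kappa_c` which carries an optimal form -/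
def IsCan (s : Sys S m) (D : ℕ) (c : ℝ) (x : ∀ k, FD (S.F k) (Mon (m + 1) D)) : Prop :=
  (gau s D).Opt (cA s c) (cB s) x ∧ IsKap s c (fun k => (x k).l)

theorem exists_can (s : Sys S m) (D : ℕ) (c : ℝ) : ∃ x, IsCan s D c x :=
  (gau s D).exists_kap (cA s c) (cB s) (cA_Bd s c)

end

end Pool.Agent.Helper89.LX
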