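import Pool.Agent.Helper40.EL.D1

/-! NJ, the leaks: computations in entropy lattices. -/

namespace Pool.Agent.Helper89.LX

open Pool.Agent.Helper31.EC Pool.Agent.Helper40.EL

section
variable {L : Type*} [PM L]

theorem I_zero_cond {x y z w y' : L} (h : I x y z = 0) (hz : z ≤ w) (hw : w ≤ y ⊔ z) (hy : y' ≤ y ⊔ z) :
    I x y' w = 0 := by
  have h1 : I x (w ⊔ y') z = 0 := I_zero_mono h le_sup_left (sup_le hw hy)
  have h2 := (I_decomp h1).2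
  rwa [sup_eq_left.mpr hz] at h2

/-- leak of the pair at `A` -/
theorem nj_leakA {κ κ' o Y A : L} (hind : I κ (κ' ⊔ o) Y = 0) (hA : A ≤ o) (hY : Y ≤ κ' ⊔ A) :
    I (κ ⊔ κ') o A ≤ I κ' o A := by
  rw [sup_comm κ, I_chain]
  have h1 : I κ o (κ' ⊔ A) = 0 := by
    apply I_zero_cond hind hY
    · exact (sup_le_sup_left hA _).trans le_sup_left
    · exact le_sup_right.trans le_sup_left
  linarith

/-- leak of the pair at `B`, first step -/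
theorem nj_leakB0 {κ κ' o Y B K : L} (hind : I κ (κ' ⊔ o) Y = 0) (hB : B ≤ o) (hYK : Y ≤ o ⊔ K) (hK : K ≤ κ') :
    I (κ ⊔ κ') o B ≤ I κ' o B + I κ Y K - I κ B K := by
  rw [sup_comm κ, I_chain]
  have h1 : I κ (κ' ⊔ o) (B ⊔ K) = I κ κ' (B ⊔ K) + I κ o (κ' ⊔ (B ⊔ K)) := I_chain_right _ _ _ _
  have e1 : κ' ⊔ (B ⊔ K) = κ' ⊔ B := by
    rw [sup_comm B K, ← sup_assoc, sup_eq_left.mpr hK]
  rw [e1] at h1
  have h2 : I κ (o ⊔ κ') (B ⊔ K) = I κ o (B ⊔ K) + I κ κ' (o ⊔ (B ⊔ K)) := I_chain_right _ _ _ _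
  rw [sup_comm o κ'] at h2
  have h3 : I κ κ' (o ⊔ (B ⊔ K)) = 0 := by
    apply I_zero_cond hind
    · refine hYK.trans (sup_le_sup_left le_sup_right _)
    · apply sup_le (le_sup_right.trans le_sup_left)
      apply sup_le ((hB.trans le_sup_right).trans le_sup_left)
      exact (hK.trans le_sup_left).trans le_sup_left
    · exact le_sup_left.trans le_sup_left
  have h4 : I κ (B ⊔ o) K = I κ B K + I κ o (B ⊔ K) := I_chain_right _ _ _ _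
  rw [sup_eq_right.mpr hB] at h4
  have h5 : I κ o K ≤ I κ (Y ⊔ o) K := I_mono_right (le_sup_right.trans le_sup_left)
  have h6 : I κ (Y ⊔ o) K = I κ Y K + I κ o (Y ⊔ K) := I_chain_right _ _ _ _
  have h7 : I κ o (Y ⊔ K) = 0 := by
    apply I_zero_cond hind le_sup_left
    · apply sup_le le_sup_right
      exact (hK.trans le_sup_left).trans le_sup_left
    · exact le_sup_right.trans le_sup_left
  have h8 := I_nonneg κ κ' (B ⊔ K)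
  linarith

/-- the part in the space of the label -/
theorem nj_leakB1 {v ξ t P K o : L} (hξ : ξ ≤ o) (hK : K ≤ v) :
    I v ξ K ≤ I t ξ K + h P (t ⊔ K) - h P (v ⊔ t) + h P (ξ ⊔ t) + I v o (P ⊔ t) := by
  have h1 : I v ξ K ≤ I (t ⊔ v) ξ K := I_mono_left (le_sup_right.trans le_sup_left)
  have h2 : I (t ⊔ v) ξ K = I t ξ K + I v ξ (t ⊔ K) := I_chain _ _ _ _
  have h3 : I v ξ (t ⊔ K) = h ξ (t ⊔ K) - h ξ (v ⊔ (t ⊔ K)) := I_eq' _ _ _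
  have e1 : v ⊔ (t ⊔ K) = v ⊔ t := by
    rw [sup_comm t K, ← sup_assoc, sup_eq_left.mpr hK]
  rw [e1] at h3
  have h4 : h (P ⊔ ξ) (t ⊔ K) = h P (t ⊔ K) + h ξ (P ⊔ (t ⊔ K)) := h_chain _ _ _
  have h5 : h ξ (t ⊔ K) ≤ h (P ⊔ ξ) (t ⊔ K) := h_mono le_sup_right
  have h6 : h (P ⊔ ξ) (v ⊔ t) = h P (v ⊔ t) + h ξ (P ⊔ (v ⊔ t)) := h_chain _ _ _
  have h7 : h (ξ ⊔ P) (v ⊔ t) = h ξ (v ⊔ t) + h P (ξ ⊔ (v ⊔ t)) := h_chain _ _ _
  rw [sup_comm ξ P] at h7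
  have h8 : h P (ξ ⊔ (v ⊔ t)) ≤ h P (ξ ⊔ t) := h_anti (sup_le_sup_left le_sup_right _)
  have h9 : h ξ (P ⊔ (t ⊔ K)) ≤ h ξ (P ⊔ t) := h_anti (sup_le_sup_left le_sup_left _)
  have h10 : I v ξ (P ⊔ t) = h ξ (P ⊔ t) - h ξ (v ⊔ (P ⊔ t)) := I_eq' _ _ _
  have e2 : v ⊔ (P ⊔ t) = P ⊔ (v ⊔ t) := sup_left_comm _ _ _
  rw [e2] at h10
  have h11 : I v ξ (P ⊔ t) ≤ I v o (P ⊔ t) := I_mono_right (hξ.trans le_sup_left)
  linarith

theorem nj_leakB2 {κ B P t K : L} (hP : P ≤ B) (ht : t ≤ B) (hK : K ≤ κ) :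
    h P (t ⊔ K) - h P (κ ⊔ t) ≤ I κ B K := by
  have h1 : I κ (t ⊔ P) K ≤ I κ B K := I_mono_right ((sup_le ht hP).trans le_sup_left)
  have h2 : I κ (t ⊔ P) K = I κ t K + I κ P (t ⊔ K) := I_chain_right _ _ _ _
  have h3 : I κ P (t ⊔ K) = h P (t ⊔ K) - h P (κ ⊔ (t ⊔ K)) := I_eq' _ _ _
  have e1 : κ ⊔ (t ⊔ K) = κ ⊔ t := by
    rw [sup_comm t K, ← sup_assoc, sup_eq_left.mpr hK]
  rw [e1] at h3
  have h4 := I_nonneg κ t K
  linarith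

end

end Pool.Agent.Helper89.LX
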