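import Pool.Agent.Helper89.LX.Can
import Pool.Agent.Helper89.LX.Nja

/-! Joins of labels with forms: one label which is informationally maximal and carries an optimal form. -/

namespace Pool.Agent.Helper89.LX

open Finset Filter Topology Matrix Pool.Agent.Helper69.RK Pool.Agent.Helper31.EC Pool.Agent.Helper40.EL

noncomputable section

/-- expectations in extensions -/
theorem sum_push {T F : FSp} (p : FPj T F) (f : F.Ω → ℝ) : ∑ ω, T.μ ω * f (p.π ω) = ∑ ω, F.μ ω * f ω := by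
  have h1 : ∀ ω : F.Ω, F.μ ω * f ω = ∑ ω', e1_ind (p.π ω' = ω) * (T.μ ω' * f (p.π ω')) := by
    intro ω
    have h2 : F.μ ω = push p.π T.μ ω := (congrFun p.law ω).symm
    rw [h2, push_ind, Finset.sum_mul]
    apply Finset.sum_congr rfl
    intro y _
    by_cases hy : p.π y = ω
    · rw [hy]; ring
    · rw [e1_ind_neg hy]; ring
  rw [Finset.sum_congr rfl (fun ω _ => h1 ω), Finset.sum_comm]
  apply Finset.sum_congr rfl
  intro y _
  rw [Finset.sum_eq_single (p.π y)]
  · rw [e1_ind_pos rfl, one_mul]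
  · intro b _ hb
    rw [e1_ind_neg (fun h => hb h.symm), zero_mul]
  · intro h
    exact absurd (Finset.mem_univ _) h

open Classical in
/-- probabilities in extensions -/
theorem pb_push {T F : FSp} (p : FPj T F) (E : F.Ω → Prop) : T.pb (fun ω => E (p.π ω)) = F.pb E := by
  have h1 := sum_push p (fun ω => if E ω then (1 : ℝ) else 0)
  have h2 : ∀ (G : FSp) (D : G.Ω → Prop), G.pb D = ∑ ω, G.μ ω * (if D ω then (1 : ℝ) else 0) := by
    intro G D
    unfold FSp.pb mass
    apply Finset.sum_congr rfl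
    intro ω _
    by_cases hD : D ω
    · rw [res_pos _ _ _ hD, if_pos hD, mul_one]
    · rw [res_neg _ _ _ hD, if_neg hD, mul_zero]
  rw [h2, h2]
  exact h1

namespace FD

variable {ι : Type} {F : FSp}

/-- join of a label with forms and a label -/
def jn (x : FD F ι) (l : FLab F) : FD F ι where
  l := x.l.join l
  g := fun w => x.g ((x.l.am l).p1.π w)
  g' := fun w => x.g' ((x.l.am l).p1.π w)
  meas := fun w w' h h' hV hZ => by
    have a := (x.l.am l).p1.supp w h
    have a' := (x.l.am l).p1.supp w' h'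
    refine x.meas _ _ a a' hV.1 ?_
    exact ((x.l.am l).p1.hZ w w' h h').mp hZ

theorem jn_leak (x : FD F ι) (l : FLab F) (y : FL F) : (x.jn l).l.leak y ≤ x.l.leak y + l.leak y :=
  x.l.join_leak l y

theorem jn_sc [Fintype ι] [DecidableEq ι] (x : FD F ι) (l : FLab F) : (x.jn l).sc = x.sc :=
  sum_push (x.l.am l).p1 (fun ω => Real.logb 2 (x.g ω).det)

theorem jn_sc' [Fintype ι] [DecidableEq ι] (x : FD F ι) (l : FLab F) : (x.jn l).sc' = x.sc' :=
  sum_push (x.l.am l).p1 (fun ω => Real.logb 2 (x.g' ω).det)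

end FD

variable {ι : Type} [Fintype ι] [DecidableEq ι] {S : Sp} (Φ : Gau S ι)

theorem Gau.Adm.jn {A B : Part S} {η η' : ℝ} (h0 : 0 ≤ η') {k : ℕ} {x : FD (S.F k) ι} (hx : Φ.Adm A B η k x)
    {l : FLab (S.F k)} (hA : l.leak (A k) ≤ η' * (S.F k).n) (hB : l.leak (B k) ≤ η' * (S.F k).n) :
    Φ.Adm A B (η + η') k (x.jn l) := by
  have hn := (S.F k).pos
  refine ⟨?_, ?_, fun w hw => ?_, ?_, ?_⟩
  · have := x.jn_leak l (A k)
    rw [add_mul]; linarith [hx.1]
  · have := x.jn_leak l (B k)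
    rw [add_mul]; linarith [hx.2.1]
  · exact hx.2.2.1 _ ((x.l.am l).p1.supp w hw)
  · have h1 := pb_push (x.l.am l).p1 (fun ω => ¬ Φ.φ k (x.l.p.π ω) (x.g ω) ≤ 2 ^ (η * (S.F k).n))
    have h2 : (x.jn l).l.T.pb (fun w => ¬ Φ.φ k ((x.jn l).l.p.π w) ((x.jn l).g w) ≤ 2 ^ ((η + η') * (S.F k).n)) ≤
        (x.l.am l).sp.pb (fun w => ¬ Φ.φ k (x.l.p.π ((x.l.am l).p1.π w)) (x.g ((x.l.am l).p1.π w)) ≤
          2 ^ (η * (S.F k).n)) := by
      apply FSp.pb_mono
      intro w _ h3 h4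
      apply h3
      refine le_trans h4 ?_
      apply Real.rpow_le_rpow_of_exponent_le (by norm_num)
      nlinarith
    have h5 := hx.2.2.2.1
    linarith
  · have h1 := pb_push (x.l.am l).p1 (fun ω => ¬ Φ.φ k (x.l.p.π ω) (x.g' ω) ≤ 2 ^ (η * (S.F k).n))
    have h2 : (x.jn l).l.T.pb (fun w => ¬ Φ.φ k ((x.jn l).l.p.π w) ((x.jn l).g' w) ≤ 2 ^ ((η + η') * (S.F k).n)) ≤
        (x.l.am l).sp.pb (fun w => ¬ Φ.φ k (x.l.p.π ((x.l.am l).p1.π w)) (x.g' ((x.l.am l).p1.π w)) ≤
          2 ^ (η * (S.F k).n)) := by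
      apply FSp.pb_mono
      intro w _ h3 h4
      apply h3
      refine le_trans h4 ?_
      apply Real.rpow_le_rpow_of_exponent_le (by norm_num)
      nlinarith
    have h5 := hx.2.2.2.2
    linarith

theorem Gau.Ad.dm {A B : Part S} {x : ∀ k, FD (S.F k) ι} (hx : Φ.Ad A B x) : Lab.DM (fun k => (x k).l) A B := by
  constructor
  · show Tendsto _ _ _
    rw [Metric.tendsto_nhds]
    intro ε hε
    filter_upwards [hx (ε / 2) (by linarith)] with k hk
    have hn := (S.F k).pos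
    rw [Real.dist_eq, sub_zero, abs_of_nonneg (div_nonneg (FLab.leak_nonneg _ _) hn.le), div_lt_iff₀ hn]
    have := hk.1
    nlinarith
  · show Tendsto _ _ _
    rw [Metric.tendsto_nhds]
    intro ε hε
    filter_upwards [hx (ε / 2) (by linarith)] with k hk
    have hn := (S.F k).pos
    rw [Real.dist_eq, sub_zero, abs_of_nonneg (div_nonneg (FLab.leak_nonneg _ _) hn.le), div_lt_iff₀ hn]
    have := hk.2.1
    nlinarith

theorem Gau.Ad.jn {A B : Part S} {x : ∀ k, FD (S.F k) ι} (hx : Φ.Ad A B x) {l : Lab S} (hl : l.DM A B) :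
    Φ.Ad A B (fun k => (x k).jn (l k)) := by
  intro η hη
  have h2 : 0 < η / 2 := by linarith
  filter_upwards [hx _ h2, hl.1.eventually (gt_mem_nhds h2), hl.2.eventually (gt_mem_nhds h2)] with k a b c
  have hn := (S.F k).pos
  rw [div_lt_iff₀ hn] at b c
  have := Gau.Adm.jn Φ h2.le a b.le c.le
  rwa [add_halves] at this

theorem Gau.Opt.jn {A B : Part S} {x : ∀ k, FD (S.F k) ι} (hx : Φ.Opt A B x) {l : Lab S} (hl : l.DM A B) :
    Φ.Opt A B (fun k => (x k).jn (l k)) := by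
  refine ⟨Gau.Ad.jn Φ hx.1 hl, fun y hy => ?_⟩
  have h1 : (fun k => ((x k).jn (l k)).sc / (S.F k).n) = fun k => (x k).sc / (S.F k).n := by
    funext k
    rw [(x k).jn_sc (l k)]
  rw [h1]
  exact hx.2 y hy

/-- one label which is informationally maximal and carries an optimal form -/
theorem Gau.exists_kap (A B : Part S) (hA : A.Bd) :
    ∃ x : ∀ k, FD (S.F k) ι, Φ.Opt A B x ∧ Lab.IsMax (fun k => (x k).l) A B := by
  obtain ⟨x, hx⟩ := Φ.exists_opt A B
  obtain ⟨l, hl⟩ := Lab.exists_max A B hA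
  refine ⟨fun k => (x k).jn (l k), Gau.Opt.jn Φ hx hl.1, Gau.Ad.dm Φ (Gau.Ad.jn Φ hx.1 hl.1), fun l' hl' => ?_⟩
  refine (hl.2 l' hl').trans ?_
  apply ul_mono (hl.1.ub hA) ((Gau.Ad.dm Φ (Gau.Ad.jn Φ hx.1 hl.1)).ub hA)
  refine Eventually.of_forall fun k => div_le_div_of_nonneg_right ?_ (S.F k).pos.le
  exact (x k).l.join_info_ge_right (l k)

end

end Pool.Agent.Helper89.LX
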