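import Pool.Agent.Helper89.LX.Frm

/-! Comparison of forms on different labels; the thickness `H(c,s)` is read off the canonical form. -/

namespace Pool.Agent.Helper89.LX

open Finset Filter Topology Matrix Pool.Agent.Helper69.RK Pool.Agent.Helper31.EC Pool.Agent.Helper40.EL
open Pool.Agent.Helper95.LF (PdM)
open Pool.Agent.Helper3.LF

noncomputable section

namespace FD

variable {ι : Type} {F : FSp}

/-- join of two labels with forms: the first form of each -/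
def jj (x y : FD F ι) : FD F ι where
  l := x.l.join y.l
  g := fun w => x.g ((x.l.am y.l).p1.π w)
  g' := fun w => y.g ((x.l.am y.l).p2.π w)
  meas := fun w w' h h' hV hZ => by
    have a := (x.l.am y.l).p1.supp w h
    have a' := (x.l.am y.l).p1.supp w' h'
    have b := (x.l.am y.l).p2.supp w h
    have b' := (x.l.am y.l).p2.supp w' h'
    refine ⟨(x.meas _ _ a a' hV.1 ?_).1, (y.meas _ _ b b' hV.2 ?_).1⟩
    · exact ((x.l.am y.l).p1.hZ w w' h h').mp hZ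
    · exact ((x.l.am y.l).p2.hZ w w' h h').mp hZ

theorem jj_supp (x y : FD F ι) (w : (x.jj y).l.T.Ω) (h : (x.jj y).l.T.μ w ≠ 0) :
    x.l.p.π ((x.l.am y.l).p1.π w) = y.l.p.π ((x.l.am y.l).p2.π w) := ((x.l.am y.l).supp w h).1

theorem jj_sc [Fintype ι] [DecidableEq ι] (x y : FD F ι) : (x.jj y).sc = x.sc :=
  sum_push (x.l.am y.l).p1 (fun ω => Real.logb 2 (x.g ω).det)

end FD

section
variable {ι : Type} [Fintype ι] [DecidableEq ι] {S : Sp} (Φ : Gau S ι)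

theorem Gau.Adm.jj {A B : Part S} {η η' : ℝ} (h0 : 0 ≤ η) (h0' : 0 ≤ η') {k : ℕ} {x y : FD (S.F k) ι}
    (hx : Φ.Adm A B η k x) (hy : Φ.Adm A B η' k y) : Φ.Adm A B (η + η') k (x.jj y) := by
  have hn := (S.F k).pos
  refine ⟨?_, ?_, fun w hw => ⟨(hx.2.2.1 _ ((x.l.am y.l).p1.supp w hw)).1,
    (hy.2.2.1 _ ((x.l.am y.l).p2.supp w hw)).1⟩, ?_, ?_⟩
  · have := x.l.join_leak y.l (A k)
    have h1 : (x.jj y).l.leak (A k) = (x.l.join y.l).leak (A k) := rfl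
    rw [h1, add_mul]; linarith [hx.1, hy.1]
  · have := x.l.join_leak y.l (B k)
    have h1 : (x.jj y).l.leak (B k) = (x.l.join y.l).leak (B k) := rfl
    rw [h1, add_mul]; linarith [hx.2.1, hy.2.1]
  · have h1 := pb_push (x.l.am y.l).p1 (fun ω => ¬ Φ.φ k (x.l.p.π ω) (x.g ω) ≤ 2 ^ (η * (S.F k).n))
    have h2 : (x.jj y).l.T.pb (fun w => ¬ Φ.φ k ((x.jj y).l.p.π w) ((x.jj y).g w) ≤ 2 ^ ((η + η') * (S.F k).n)) ≤
        (x.l.am y.l).sp.pb (fun w => ¬ Φ.φ k (x.l.p.π ((x.l.am y.l).p1.π w)) (x.g ((x.l.am y.l).p1.π w)) ≤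
          2 ^ (η * (S.F k).n)) := by
      apply FSp.pb_mono
      intro w _ h3 h4
      apply h3
      refine le_trans h4 ?_
      apply Real.rpow_le_rpow_of_exponent_le (by norm_num)
      nlinarith
    have h5 := hx.2.2.2.1
    linarith
  · have h1 := pb_push (x.l.am y.l).p2 (fun ω => ¬ Φ.φ k (y.l.p.π ω) (y.g ω) ≤ 2 ^ (η' * (S.F k).n))
    have h2 : (x.jj y).l.T.pb (fun w => ¬ Φ.φ k ((x.jj y).l.p.π w) ((x.jj y).g' w) ≤ 2 ^ ((η + η') * (S.F k).n)) ≤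
        (x.l.am y.l).sp.pb (fun w => ¬ Φ.φ k (y.l.p.π ((x.l.am y.l).p2.π w)) (y.g ((x.l.am y.l).p2.π w)) ≤
          2 ^ (η' * (S.F k).n)) := by
      apply FSp.pb_mono
      intro w hw h3 h4
      apply h3
      have e1 : (x.jj y).l.p.π w = y.l.p.π ((x.l.am y.l).p2.π w) := x.jj_supp y w hw
      rw [e1]
      refine le_trans h4 ?_
      apply Real.rpow_le_rpow_of_exponent_le (by norm_num)
      nlinarith
    have h5 := hy.2.2.2.1
    linarith

theorem Gau.Ad.jj {A B : Part S} {x y : ∀ k, FD (S.F k) ι} (hx : Φ.Ad A B x) (hy : Φ.Ad A B y) :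
    Φ.Ad A B (fun k => (x k).jj (y k)) := by
  intro η hη
  have h2 : 0 < η / 2 := by linarith
  filter_upwards [hx _ h2, hy _ h2] with k a b
  have := Gau.Adm.jj Φ h2.le h2.le a b
  rwa [add_halves] at this

/-- an optimal form dominates the forms of all other labels, in the join -/
theorem Gau.Opt.dom {A B : Part S} {x y : ∀ k, FD (S.F k) ι} (hx : Φ.Opt A B x) (hy : Φ.Ad A B y) (e : ℝ)
    (he : 0 < e) : Tendsto (fun k => ((x k).jj (y k)).l.T.pb (fun w =>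
      ¬ ∀ v, qf (((x k).jj (y k)).g' w) v ≤ 2 ^ (e * (S.F k).n) * qf (((x k).jj (y k)).g w) v)) UF (𝓝 0) := by
  apply Φ.opt_near (Gau.Ad.jj Φ hx.1 hy)
  · intro z hz
    have h1 : (fun k => ((x k).jj (y k)).sc / (S.F k).n) = fun k => (x k).sc / (S.F k).n := by
      funext k
      rw [(x k).jj_sc (y k)]
    rw [h1]
    exact hx.2 z hz
  · exact he

/-- transfer of lower bounds of monotone functionals to the optimal form -/
theorem Gau.Opt.lower {A B : Part S} {x y : ∀ k, FD (S.F k) ι} (hx : Φ.Opt A B x) (hy : Φ.Ad A B y)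
    (G : ∀ k, (S.F k).Ω → Matrix ι ι ℝ → ℝ)
    (hG : ∀ k ω M N (c : ℝ), 0 ≤ c → (∀ v, qf M v ≤ c * qf N v) → G k ω M ≤ c * G k ω N)
    (σ : ℝ) (hσ : ∀ e : ℝ, 0 < e → Tendsto (fun k => (y k).l.T.pb (fun ω =>
      ¬ 2 ^ ((σ - e) * (S.F k).n) ≤ G k ((y k).l.p.π ω) ((y k).g ω))) UF (𝓝 0)) (e : ℝ) (he : 0 < e) :
    Tendsto (fun k => (x k).l.T.pb (fun ω =>
      ¬ 2 ^ ((σ - e) * (S.F k).n) ≤ G k ((x k).l.p.π ω) ((x k).g ω))) UF (𝓝 0) := by
  have h2 : 0 < e / 2 := by linarith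
  have h3 := (Gau.Opt.dom Φ hx hy _ h2).add (hσ _ h2)
  rw [add_zero] at h3
  refine tendsto_of_tendsto_of_tendsto_of_le_of_le tendsto_const_nhds h3
    (fun k => (x k).l.T.pb_nonneg _) (fun k => ?_)
  have h4 := pb_push ((x k).l.am (y k).l).p1 (fun ω =>
      ¬ 2 ^ ((σ - e) * (S.F k).n) ≤ G k ((x k).l.p.π ω) ((x k).g ω))
  have h5 := pb_push ((x k).l.am (y k).l).p2 (fun ω =>
      ¬ 2 ^ ((σ - e / 2) * (S.F k).n) ≤ G k ((y k).l.p.π ω) ((y k).g ω))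
  show _ ≤ ((x k).jj (y k)).l.T.pb _ + _
  rw [← h4, ← h5]
  refine le_trans (FSp.pb_mono _ (E' := fun w : ((x k).l.am (y k).l).sp.Ω =>
    (¬ ∀ v, qf (((x k).jj (y k)).g' w) v ≤ 2 ^ (e / 2 * (S.F k).n) * qf (((x k).jj (y k)).g w) v) ∨
    ¬ 2 ^ ((σ - e / 2) * (S.F k).n) ≤ G k ((y k).l.p.π (((x k).l.am (y k).l).p2.π w))
      ((y k).g (((x k).l.am (y k).l).p2.π w))) ?_) (pb_or _ _ _)
  intro w hw h6
  by_contra hc
  rw [not_or, not_not, not_not] at hc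
  apply h6
  have e1 : (x k).l.p.π (((x k).l.am (y k).l).p1.π w) = (y k).l.p.π (((x k).l.am (y k).l).p2.π w) :=
    (x k).jj_supp (y k) w hw
  have h7 := hG k ((x k).l.p.π (((x k).l.am (y k).l).p1.π w)) _ _ _ (by positivity) hc.1
  have h8 := hc.2
  rw [← e1] at h8
  have h9 : (2 : ℝ) ^ ((σ - e / 2) * (S.F k).n) ≤ 2 ^ (e / 2 * (S.F k).n) *
      G k ((x k).l.p.π (((x k).l.am (y k).l).p1.π w)) ((x k).g (((x k).l.am (y k).l).p1.π w)) := h8.trans h7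
  have e2 : (2 : ℝ) ^ ((σ - e / 2) * (S.F k).n) = 2 ^ (e / 2 * (S.F k).n) * 2 ^ ((σ - e) * (S.F k).n) := by
    rw [← Real.rpow_add (by norm_num)]
    congr 1; ring
  rw [e2] at h9
  exact le_of_mul_le_mul_left h9 (by positivity)

end

variable {S : Sp} {m : ℕ} (s : Sys S m) (D : ℕ)

theorem sga_mono (k : ℕ) (ω : (S.F k).Ω) (M N : Matrix (Mon (m + 1) D) (Mon (m + 1) D) ℝ) (c : ℝ)
    (h : ∀ v, qf M v ≤ c * qf N v) : sga s D k ω M ≤ c * sga s D k ω N := by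
  unfold sga
  rw [← gam_smul]
  apply gam_mono
  intro v
  rw [Pool.Agent.Helper95.LF.dv_smul]
  exact h v

theorem sph_mono (k : ℕ) (ω : (S.F k).Ω) (M N : Matrix (Mon (m + 1) D) (Mon (m + 1) D) ℝ) (c : ℝ)
    (h : ∀ v, qf M v ≤ c * qf N v) : sph s D k ω M ≤ c * sph s D k ω N := by
  unfold sph
  rw [← phi_smul]
  apply phi_mono
  intro v
  rw [Pool.Agent.Helper95.LF.dv_smul]
  exact h v

variable {s D}

/-- `H(c,s)` is read off any optimal form -/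
theorem Hf.opt {c σ : ℝ} (h : Hf s D c σ) {x : ∀ k, FD (S.F k) (Mon (m + 1) D)}
    (hx : (gau s D).Opt (cA s c) (cB s) x) (e : ℝ) (he : 0 < e) :
    Tendsto (fun k => (x k).l.T.pb (fun ω =>
      ¬ 2 ^ (2 * (σ - e) * (S.F k).n) ≤ sga s D k ((x k).l.p.π ω) ((x k).g ω))) UF (𝓝 0) := by
  obtain ⟨y, hy, hσ⟩ := h
  have h1 := Gau.Opt.lower (gau s D) hx hy (sga s D) (fun k ω M N c _ h => sga_mono s D k ω M N c h) (2 * σ)
    (fun e' he' => by
      have := hσ (e' / 2) (by linarith)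
      refine this.congr fun k => ?_
      congr 1
      funext ω
      congr 2
      ring_nf) (2 * e) (by linarith)
  refine h1.congr fun k => ?_
  congr 1
  funext ω
  congr 2
  ring_nf

theorem Hf_iff_opt {c σ : ℝ} {x : ∀ k, FD (S.F k) (Mon (m + 1) D)}
    (hx : (gau s D).Opt (cA s c) (cB s) x) : Hf s D c σ ↔ ∀ e : ℝ, 0 < e →
    Tendsto (fun k => (x k).l.T.pb (fun ω =>
      ¬ 2 ^ (2 * (σ - e) * (S.F k).n) ≤ sga s D k ((x k).l.p.π ω) ((x k).g ω))) UF (𝓝 0) :=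
  ⟨fun h e he => h.opt hx e he, fun h => ⟨x, hx.1, h⟩⟩

/-- monotonicity in `s`, with closure from below -/
theorem Hf.of_lt {c σ : ℝ} (h : ∀ σ' < σ, Hf s D c σ') : Hf s D c σ := by
  obtain ⟨x, hx⟩ := exists_can s D c
  rw [Hf_iff_opt hx.1]
  intro e he
  have h1 := (h (σ - e / 2) (by linarith)).opt hx.1 (e / 2) (by linarith)
  refine h1.congr fun k => ?_
  congr 1
  funext ω
  congr 2
  ring_nf

theorem Hf.mono_s {c σ σ' : ℝ} (h : Hf s D c σ) (hσ : σ' ≤ σ) : Hf s D c σ' := by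
  obtain ⟨x, hx, h1⟩ := h
  refine ⟨x, hx, fun e he => ?_⟩
  refine tendsto_of_tendsto_of_tendsto_of_le_of_le tendsto_const_nhds (h1 e he)
    (fun k => (x k).l.T.pb_nonneg _) (fun k => FSp.pb_mono _ ?_)
  intro ω _ h2 h3
  apply h2
  refine le_trans ?_ h3
  apply Real.rpow_le_rpow_of_exponent_le (by norm_num)
  have := (S.F k).pos
  nlinarith

/-- monotonicity in the window -/
theorem Hf.mono_c {c c' σ : ℝ} (h : Hf s D c σ) (hc : c ≤ c') : Hf s D c' σ := by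
  obtain ⟨x, hx, h1⟩ := h
  refine ⟨x, ?_, h1⟩
  have h2 : DMc s c' (fun k => (x k).l) := DMc.mono hc (Gau.Ad.dm (gau s D) hx)
  intro η hη
  filter_upwards [hx η hη, h2.1.eventually (gt_mem_nhds hη)] with k a b
  have hn := (S.F k).pos
  rw [div_lt_iff₀ hn] at b
  exact ⟨b.le, a.2.1, a.2.2.1, a.2.2.2.1, a.2.2.2.2⟩

end

end Pool.Agent.Helper89.LX
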