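import Pool.Agent.Helper31.EC.Am

/-! Agreement with positive probability gives a label (K 3.5, LEAF 4(c)), finite level: if two conditionally
independent copies given `f` satisfy a relation with probability `p`, there is a function of `f` which satisfies
the relation with probability `p`. -/

namespace Pool.Agent.Helper89.LX

open Finset Pool.Agent.Helper69.RK Pool.Agent.Helper31.EC

noncomputable section

open Classical in
/-- the sum over the fibre -/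
def sfib {Ω α G : Type} [Fintype Ω] (μ : Ω → ℝ) (f : Ω → α) (g : Ω → G) (R : G → G → Prop) (ω' : Ω) : ℝ :=
  ∑ ω, e1_ind (f ω = f ω') * (μ ω * e1_ind (R (g ω) (g ω')))

open Classical in
theorem agree {Ω α G : Type} [Fintype Ω] (μ : Ω → ℝ) (h0 : ∀ ω, 0 ≤ μ ω) (f : Ω → α) (g : Ω → G)
    (R : G → G → Prop) : ∃ h : Ω → G, (∀ ω ω', f ω = f ω' → h ω = h ω') ∧
      (∀ ω, ∃ ω', f ω' = f ω ∧ h ω = g ω') ∧ (∀ ω, μ ω ≠ 0 → ∃ ω', f ω' = f ω ∧ μ ω' ≠ 0 ∧ h ω = g ω') ∧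
      ∑ w : Ω × Ω, amw μ μ f f w * e1_ind (R (g w.1) (g w.2)) ≤ ∑ ω, μ ω * e1_ind (R (g ω) (h ω)) := by
  rcases isEmpty_or_nonempty Ω with hemp | hne0
  · refine ⟨fun ω => isEmptyElim ω, fun ω => isEmptyElim ω, fun ω => isEmptyElim ω, fun ω => isEmptyElim ω, ?_⟩
    rw [Finset.univ_eq_empty, Finset.sum_empty, Finset.univ_eq_empty, Finset.sum_empty]
  -- the best point of a fibre
  have hb : ∀ a : α, ∃ ω₁, ((∃ ω₀, f ω₀ = a) → f ω₁ = a) ∧ ((∃ ω₀, f ω₀ = a ∧ μ ω₀ ≠ 0) → μ ω₁ ≠ 0) ∧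
      ∀ ω', f ω' = a → μ ω' ≠ 0 → sfib μ f g R ω' ≤ sfib μ f g R ω₁ := by
    intro a
    by_cases hne : ∃ ω', f ω' = a ∧ μ ω' ≠ 0
    · obtain ⟨ω', h1, h2⟩ := hne
      obtain ⟨ω₁, h3, h4⟩ := Finset.exists_max_image ((univ : Finset Ω).filter (fun ω' => f ω' = a ∧ μ ω' ≠ 0))
        (sfib μ f g R) ⟨ω', by simp [h1, h2]⟩
      rw [Finset.mem_filter] at h3
      refine ⟨ω₁, fun _ => h3.2.1, fun _ => h3.2.2, fun ω'' h5 h6 => h4 ω'' ?_⟩
      rw [Finset.mem_filter]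
      exact ⟨Finset.mem_univ _, h5, h6⟩
    · by_cases hne' : ∃ ω', f ω' = a
      · obtain ⟨ω', h1⟩ := hne'
        exact ⟨ω', fun _ => h1, fun h => absurd h hne, fun ω'' h2 h3 => absurd ⟨ω'', h2, h3⟩ hne⟩
      · exact ⟨Classical.choice hne0, fun h => absurd h hne', fun h => absurd h hne,
          fun ω'' h2 h3 => absurd ⟨ω'', h2, h3⟩ hne⟩
  choose bst hb1 hb2 hb3 using hb
  set best : Ω → Ω := fun ω => bst (f ω) with hbest
  have hbf : ∀ ω, f (best ω) = f ω := fun ω => hb1 (f ω) ⟨ω, rfl⟩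
  have hbc : ∀ ω ω', f ω = f ω' → best ω = best ω' := by
    intro ω ω' h
    rw [hbest]
    beta_reduce
    rw [h]
  have hbμ : ∀ ω, μ ω ≠ 0 → μ (best ω) ≠ 0 := fun ω hω => hb2 (f ω) ⟨ω, rfl, hω⟩
  have hbm : ∀ ω, μ ω ≠ 0 → sfib μ f g R ω ≤ sfib μ f g R (best ω) := fun ω hω => hb3 (f ω) ω rfl hω
  refine ⟨fun ω => g (best ω), fun ω ω' h => congrArg g (hbc ω ω' h), fun ω => ⟨best ω, hbf ω, rfl⟩,
    fun ω hω => ⟨best ω, hbf ω, hbμ ω hω, rfl⟩, ?_⟩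
  -- the estimate
  have hms : ∀ ω, μ ω ≠ 0 → 0 < ms μ f (f ω) := fun ω hω => ms_pos μ f h0 ω hω
  have e1 : ∑ w : Ω × Ω, amw μ μ f f w * e1_ind (R (g w.1) (g w.2)) =
      ∑ ω', μ ω' / ms μ f (f ω') * sfib μ f g R ω' := by
    rw [Fintype.sum_prod_type_right]
    apply Finset.sum_congr rfl
    intro ω' _
    unfold sfib amw
    rw [Finset.mul_sum]
    apply Finset.sum_congr rfl
    intro ω _
    by_cases h : f ω = f ω'
    · show e1_ind (f ω = f ω') * (μ ω * μ ω' / ms μ f (f ω)) * e1_ind (R (g ω) (g ω')) = _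
      rw [e1_ind_pos h, h]; ring
    · show e1_ind (f ω = f ω') * (μ ω * μ ω' / ms μ f (f ω)) * e1_ind (R (g ω) (g ω')) = _
      rw [e1_ind_neg h]
      ring
  rw [e1]
  have e2 : ∀ ω', μ ω' / ms μ f (f ω') * sfib μ f g R ω' ≤
      ∑ ω, μ ω' / ms μ f (f ω') * (e1_ind (f ω = f ω') * (μ ω * e1_ind (R (g ω) (g (best ω))))) := by
    intro ω'
    by_cases hω' : μ ω' = 0
    · rw [hω']; simp
    · rw [← Finset.mul_sum]
      apply mul_le_mul_of_nonneg_left _ (div_nonneg (h0 ω') (hms ω' hω').le)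
      refine (hbm ω' hω').trans (le_of_eq ?_)
      unfold sfib
      apply Finset.sum_congr rfl
      intro ω _
      by_cases h : f ω = f ω'
      · rw [hbf, hbc ω ω' h]
      · rw [hbf, e1_ind_neg h]; ring
  refine (Finset.sum_le_sum (fun ω' _ => e2 ω')).trans (le_of_eq ?_)
  rw [Finset.sum_comm]
  apply Finset.sum_congr rfl
  intro ω _
  have e3 : ∀ ω', μ ω' / ms μ f (f ω') * (e1_ind (f ω = f ω') * (μ ω * e1_ind (R (g ω) (g (best ω))))) =
      μ ω * e1_ind (R (g ω) (g (best ω))) / ms μ f (f ω) * (e1_ind (f ω' = f ω) * μ ω') := by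
    intro ω'
    by_cases h : f ω = f ω'
    · rw [e1_ind_pos h, e1_ind_pos (show f ω' = f ω from h.symm), h]; ring
    · rw [e1_ind_neg h, e1_ind_neg (show ¬ f ω' = f ω from fun hc => h hc.symm)]; ring
  rw [Finset.sum_congr rfl (fun ω' _ => e3 ω'), ← Finset.mul_sum]
  have e4 : ∑ ω', e1_ind (f ω' = f ω) * μ ω' = ms μ f (f ω) := rfl
  rw [e4]
  by_cases hω : μ ω = 0
  · rw [hω]; simp
  · rw [div_mul_cancel₀ _ (hms ω hω).ne']

end

end Pool.Agent.Helper89.LX
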