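import Pool.Agent.Helper89.LX.Hth

/-! Right continuity of `H(c,s)` in the window; the thickness `eta(c)`. -/

namespace Pool.Agent.Helper89.LX

open Finset Filter Topology Matrix Pool.Agent.Helper69.RK Pool.Agent.Helper31.EC Pool.Agent.Helper40.EL
open Pool.Agent.Helper95.LF (PdM)
open Pool.Agent.Helper3.LF

noncomputable section

variable {S : Sp} {m : ℕ} {s : Sys S m} {D : ℕ}

/-- leaks when the window is made smaller -/
theorem leak_window (s : Sys S m) {c c' : ℝ} (hc : c ≤ c') (δ : ℝ) (hδ : 0 < δ) :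
    ∀ᶠ k in UF, ∀ l : FLab (S.F k), l.leak (cA s c k) ≤ l.leak (cA s c' k) + (c' - c + δ) * (S.F k).n := by
  have h4 : hr (cA s c') (cA s c) ≤ c' - c := by
    rw [cA_eq, cA_eq, hr_rpI, cl_A, cl_A]
    have h5 : h (lA s c') (lA s c) ≤ h (s.t.dg c') (s.t.dg c) := by
      unfold lA
      have h6 := h_chain (s.xi 1) (s.t.dg c') (s.xi 1 ⊔ s.t.dg c)
      rw [h6, h_zero (le_sup_left : s.xi 1 ≤ s.xi 1 ⊔ s.t.dg c), zero_add]
      exact h_anti (le_sup_right.trans le_sup_right)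
    have h7 := s.t.h_dg_dg hc
    simp only [Nat.cast_one, one_mul] at h7
    linarith
  have h5 := (cA_Bd s c').tendsto (cA s c)
  filter_upwards [h5.eventually (gt_mem_nhds (show hr (cA s c') (cA s c) < c' - c + δ by linarith))] with k hk l
  have hn := (S.F k).pos
  rw [div_lt_iff₀ hn] at hk
  have h8 := l.leak_le_leak (cA s c k) (cA s c' k)
  linarith

theorem Hf.right {c σ : ℝ} (h : ∀ c', c < c' → Hf s D c' σ) : Hf s D c σ := by
  have h1 : ∀ j : ℕ, ∃ x : ∀ k, FD (S.F k) (Mon (m + 1) D), (∀ᶠ k in UF,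
      (gau s D).Adm (cA s c) (cB s) (1 / ((j : ℝ) + 1)) k (x k) ∧
      (x k).l.T.pb (fun ω => ¬ 2 ^ (2 * (σ - 1 / ((j : ℝ) + 1)) * (S.F k).n) ≤
        sga s D k ((x k).l.p.π ω) ((x k).g ω)) ≤ 1 / ((j : ℝ) + 1)) := by
    intro j
    have hj : (0 : ℝ) < 1 / ((j : ℝ) + 1) := by positivity
    obtain ⟨x, hx, hx'⟩ := h (c + 1 / ((j : ℝ) + 1) / 3) (by linarith)
    refine ⟨x, ?_⟩
    filter_upwards [hx _ (show (0 : ℝ) < 1 / ((j : ℝ) + 1) / 3 by linarith),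
      leak_window s (show c ≤ c + 1 / ((j : ℝ) + 1) / 3 by linarith) _ (show (0 : ℝ) < 1 / ((j : ℝ) + 1) / 3 by linarith),
      (hx' _ hj).eventually (gt_mem_nhds hj)] with k a b d
    have hn := (S.F k).pos
    refine ⟨⟨?_, ?_, a.2.2.1, ?_, ?_⟩, d.le⟩
    · have := b (x k).l
      have h2 := a.1
      nlinarith
    · have h2 := a.2.1
      nlinarith
    · exact (Gau.Adm.mono (gau s D) (by linarith) a).2.2.2.1
    · exact (Gau.Adm.mono (gau s D) (by linarith) a).2.2.2.2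
  choose x hx using h1
  obtain ⟨y, J, hJ, hy, hP⟩ := (gau s D).diag (cA s c) (cB s) x (fun j k z =>
      z.l.T.pb (fun ω => ¬ 2 ^ (2 * (σ - 1 / ((j : ℝ) + 1)) * (S.F k).n) ≤
        sga s D k (z.l.p.π ω) (z.g ω)) ≤ 1 / ((j : ℝ) + 1)) hx
  refine ⟨y, hy, fun e he => ?_⟩
  have h0 : Tendsto (fun k => 1 / ((J k : ℝ) + 1)) UF (𝓝 0) :=
    tendsto_one_div_add_atTop_nhds_zero_nat.comp hJ
  refine tendsto_of_tendsto_of_tendsto_of_le_of_le' tendsto_const_nhds h0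
    (Eventually.of_forall fun k => (y k).l.T.pb_nonneg _) ?_
  filter_upwards [hP, h0.eventually (gt_mem_nhds he)] with k hk hk'
  refine le_trans (FSp.pb_mono _ ?_) hk
  intro ω _ h2 h3
  apply h2
  refine le_trans ?_ h3
  apply Real.rpow_le_rpow_of_exponent_le (by norm_num)
  have hn := (S.F k).pos
  have := mul_le_mul_of_nonneg_right (show σ - e ≤ σ - 1 / ((J k : ℝ) + 1) by linarith) hn.le
  linarith

/-- the gradient of a bounding form is at most `2^n` -/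
theorem Hf.le_one {c σ : ℝ} (h : Hf s D c σ) : σ ≤ 1 := by
  by_contra hc
  push Not at hc
  obtain ⟨x, hx, hx'⟩ := h
  set e : ℝ := (σ - 1) / 4 with he
  have he0 : 0 < e := by rw [he]; linarith
  have he1 : σ = 1 + 4 * e := by rw [he]; ring
  have h1 := hx (min e (1 / 4)) (lt_min he0 (by norm_num))
  have h2 := (hx' e he0).eventually (gt_mem_nhds (show (0 : ℝ) < 1 / 4 by norm_num))
  have hCm : (0 : ℝ) ≤ ((m + 1 : ℕ) : ℝ) * nn (m + 1) D * Cm (m + 1) D ^ 2 := by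
    have := nn_one (m + 1) D
    positivity
  have h3 := (S.Sub_const hCm).eventually_le he0
  have h4 : ∃ k, (gau s D).Adm (cA s c) (cB s) (min e (1 / 4)) k (x k) ∧
      (x k).l.T.pb (fun ω => ¬ 2 ^ (2 * (σ - e) * (S.F k).n) ≤ sga s D k ((x k).l.p.π ω) ((x k).g ω)) < 1 / 4 ∧
      ((m + 1 : ℕ) : ℝ) * nn (m + 1) D * Cm (m + 1) D ^ 2 + 2 ≤ 2 ^ (e * (S.F k).n) :=
    (h1.and (h2.and h3)).exists
  obtain ⟨k, a, b, d⟩ := h4
  have hn := (S.F k).pos
  have h5 : (x k).l.T.pb (fun ω => (¬ sph s D k ((x k).l.p.π ω) ((x k).g ω) ≤ 2 ^ (min e (1 / 4) * (S.F k).n)) ∨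
      (¬ 2 ^ (2 * (σ - e) * (S.F k).n) ≤ sga s D k ((x k).l.p.π ω) ((x k).g ω))) < 1 := by
    refine lt_of_le_of_lt (pb_or _ _ _) ?_
    have h6 := a.2.2.2.1
    have h7 : min e (1 / 4 : ℝ) ≤ 1 / 4 := min_le_right _ _
    have h8 : (x k).l.T.pb (fun ω => ¬ sph s D k ((x k).l.p.π ω) ((x k).g ω) ≤ 2 ^ (min e (1 / 4) * (S.F k).n)) ≤
      min e (1 / 4) := h6
    linarith
  have h6 : ∃ ω, (x k).l.T.μ ω ≠ 0 ∧ ¬ ((¬ sph s D k ((x k).l.p.π ω) ((x k).g ω) ≤ 2 ^ (min e (1 / 4) * (S.F k).n)) ∨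
      (¬ 2 ^ (2 * (σ - e) * (S.F k).n) ≤ sga s D k ((x k).l.p.π ω) ((x k).g ω))) := by
    by_contra hcon
    push Not at hcon
    have h7 : (x k).l.T.pb (fun _ => True) ≤ (x k).l.T.pb (fun ω =>
        (¬ sph s D k ((x k).l.p.π ω) ((x k).g ω) ≤ 2 ^ (min e (1 / 4) * (S.F k).n)) ∨
        (¬ 2 ^ (2 * (σ - e) * (S.F k).n) ≤ sga s D k ((x k).l.p.π ω) ((x k).g ω))) := by
      apply FSp.pb_mono
      intro ω hω _
      rcases hcon ω hω with h9 | h9
      · exact Or.inl (not_le.mpr h9)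
      · exact Or.inr (not_le.mpr h9)
    have h8 : (x k).l.T.pb (fun _ => True) = 1 := by
      have h9 := (x k).l.T.pb_add_compl (fun _ => True)
      have h10 : (x k).l.T.pb (fun _ => ¬ True) = 0 := by
        unfold FSp.pb mass
        apply Finset.sum_eq_zero
        intro ω _
        exact res_neg _ _ _ (not_not.mpr trivial)
      linarith
    linarith
  obtain ⟨ω, hω, h7⟩ := h6
  rw [not_or, not_not, not_not] at h7
  have hpd : PdM ((x k).g ω) := (a.2.2.1 ω hω).1.pdM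
  have h8 := gam_le ((x k).g ω) hpd (S.dl 1 k) (S.dl_pos 1 k) (ptf s k ((x k).l.p.π ω))
  have h9 : sga s D k ((x k).l.p.π ω) ((x k).g ω) ≤ 2 ^ (2 * (S.F k).n) *
      (((m + 1 : ℕ) : ℝ) * nn (m + 1) D * Cm (m + 1) D ^ 2 * sph s D k ((x k).l.p.π ω) ((x k).g ω)) := by
    have e1 : (2 : ℝ) ^ (2 * (S.F k).n) = (S.dl 1 k ^ 2)⁻¹ := by
      rw [← inv_pow, inv_dl_one, ← Real.rpow_natCast, ← Real.rpow_mul (by norm_num)]
      congr 1; push_cast; ring
    rw [e1, ← div_eq_inv_mul, le_div_iff₀ (by have := S.dl_pos 1 k; positivity), mul_comm]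
    exact h8
  have h10 : (2 : ℝ) ^ (min e (1 / 4) * (S.F k).n) ≤ 2 ^ (e * (S.F k).n) := by
    apply Real.rpow_le_rpow_of_exponent_le (by norm_num)
    exact mul_le_mul_of_nonneg_right (min_le_left _ _) hn.le
  have h11 : (2 : ℝ) ^ (2 * (σ - e) * (S.F k).n) ≤ 2 ^ (2 * (S.F k).n) * (2 ^ (e * (S.F k).n) * 2 ^ (e * (S.F k).n)) := by
    refine (h7.2.trans h9).trans ?_
    apply mul_le_mul_of_nonneg_left _ (by positivity)
    have h12 := h7.1.trans h10
    have h13 : ((m + 1 : ℕ) : ℝ) * nn (m + 1) D * Cm (m + 1) D ^ 2 ≤ 2 ^ (e * (S.F k).n) := by linarith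
    exact mul_le_mul h13 h12 (phi_nonneg _ (fun y => hpd.nonneg y) _) (by positivity)
  rw [← Real.rpow_add (by norm_num), ← Real.rpow_add (by norm_num),
    Real.rpow_le_rpow_left_iff (by norm_num)] at h11
  rw [he1] at h11
  nlinarith [mul_pos he0 hn]

end

end Pool.Agent.Helper89.LX

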