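import Pool.Agent.Helper89.LX.Njm

/-! NJ (LEAF sect. 4 (c)), abstract gauge: the exact label of the larger window on an event. -/

namespace Pool.Agent.Helper89.LX

open Finset Filter Topology Matrix Pool.Agent.Helper69.RK Pool.Agent.Helper31.EC Pool.Agent.Helper40.EL
open Pool.Agent.Helper95.LF (PdM NearM round_mat values_card)

noncomputable section

section
variable {ι : Type} [Fintype ι] [DecidableEq ι]

theorem av_facts {g ub M : Matrix ι ι ℝ} {a L1 L2 C cp : ℝ} (hL1 : 1 ≤ L1) (ha : a * Real.log 2 ≤ L1)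
    (hg : PdM g) (hub : PdM ub) (hcap : ∀ x, qf ub x ≤ cp * (x ⬝ᵥ x)) (hn : Nr a g ub) (hM : PdM M)
    (hnear : NearM (C * L2) ub M) (hcp : 2 ≤ cp) :
    (∀ v, qf (Real.exp (-(C * L2 + L1)) • M) v ≤ 1 * qf g v) ∧ Cpd cp (1 + Real.exp (-(C * L2 + L1)) • M) ∧
    ∀ v, qf g v ≤ Real.exp (2 * (L1 + C * L2)) * qf (1 + Real.exp (-(C * L2 + L1)) • M) v := by
  have h2 : (2 : ℝ) ^ a ≤ Real.exp L1 := by
    rw [two_rpow_exp]
    exact Real.exp_le_exp.mpr ha
  set c := Real.exp (-(C * L2 + L1)) with hc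
  have hc0 : 0 < c := Real.exp_pos _
  have hq : ∀ (A : Matrix ι ι ℝ), PdM A → ∀ v, 0 ≤ qf A v := fun A hA v => hA.nonneg v
  have e1 : c * Real.exp (C * L2) * Real.exp L1 = 1 := by
    rw [hc, ← Real.exp_add, ← Real.exp_add]
    have : -(C * L2 + L1) + C * L2 + L1 = 0 := by ring
    rw [this, Real.exp_zero]
  have e2 : c * Real.exp (C * L2) = Real.exp (-L1) := by
    rw [hc, ← Real.exp_add]
    congr 1; ring
  have e3 : Real.exp (2 * (L1 + C * L2)) * c = Real.exp (L1 + C * L2) := by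
    rw [hc, ← Real.exp_add]
    congr 1; ring
  have hMu : ∀ v, c * qf M v ≤ Real.exp (-L1) * qf ub v := by
    intro v
    have h3 := mul_le_mul_of_nonneg_left (hnear.2 v) hc0.le
    rw [← mul_assoc, e2] at h3
    exact h3
  refine ⟨fun v => ?_, ⟨?_, fun x => ?_, fun x => ?_⟩, fun v => ?_⟩
  · rw [qf_smul', one_mul]
    refine (hMu v).trans ?_
    have h3 := mul_le_mul_of_nonneg_left (hn.2 v) (Real.exp_pos (-L1)).le
    refine h3.trans ?_
    rw [← mul_assoc]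
    have h4 : Real.exp (-L1) * 2 ^ a ≤ 1 := by
      have h5 := mul_le_mul_of_nonneg_left h2 (Real.exp_pos (-L1)).le
      rw [← Real.exp_add] at h5
      have : -L1 + L1 = 0 := by ring
      rw [this, Real.exp_zero] at h5
      exact h5
    have h5 := mul_le_mul_of_nonneg_right h4 (hq g hg v)
    rw [one_mul] at h5
    exact h5
  · exact Matrix.isSymm_one.add (hM.1.smul c)
  · rw [qf_add, qf_one', qf_smul']
    have := mul_nonneg hc0.le (hq M hM x)
    linarith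
  · rw [qf_add, qf_one', qf_smul']
    have h3 := hMu x
    have h4 := mul_le_mul_of_nonneg_left (hcap x) (Real.exp_pos (-L1)).le
    have h5 : Real.exp (-L1) ≤ 1 / 2 := by
      have h6 : (2 : ℝ) ≤ Real.exp L1 := by
        have := Real.add_one_le_exp L1
        linarith
      rw [Real.exp_neg, inv_eq_one_div]
      exact one_div_le_one_div_of_le (by norm_num) h6
    have hx := dot_self_nonneg x
    have h6 : Real.exp (-L1) * (cp * (x ⬝ᵥ x)) ≤ 1 / 2 * (cp * (x ⬝ᵥ x)) :=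
      mul_le_mul_of_nonneg_right h5 (mul_nonneg (by linarith) hx)
    nlinarith
  · rw [qf_add, qf_one', qf_smul']
    have h3 := hn.1 v
    have h4 := mul_le_mul_of_nonneg_right h2 (hq ub hub v)
    have h5 := mul_le_mul_of_nonneg_left (hnear.1 v) (Real.exp_pos L1).le
    rw [← mul_assoc, ← Real.exp_add] at h5
    have h6 : Real.exp (L1 + C * L2) * qf M v = Real.exp (2 * (L1 + C * L2)) * (c * qf M v) := by
      rw [← mul_assoc, e3]
    have h7 : qf g v ≤ Real.exp (2 * (L1 + C * L2)) * (c * qf M v) := by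
      rw [← h6]
      exact (h3.trans h4).trans h5
    refine h7.trans (mul_le_mul_of_nonneg_left ?_ (Real.exp_pos _).le)
    have := dot_self_nonneg v
    linarith

end

/-- (c) THE LABEL: if the two forms agree with probability at least one half, then the average is an exact label of
the larger window on an event -/
theorem nj_label (ι : Type) [Fintype ι] [DecidableEq ι] : ∃ Cc : ℝ, 0 ≤ Cc ∧ ∀ {S : Sp} (Φ : Gau S ι)
    (_ : ∀ k ω M N (c : ℝ), 0 ≤ c → (∀ v, qf M v ≤ c * qf N v) → Φ.φ k ω M ≤ c * Φ.φ k ω N)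
    (G : ∀ k, (S.F k).Ω → Matrix ι ι ℝ → ℝ)
    (_ : ∀ k ω M N (c : ℝ), 0 ≤ c → (∀ v, qf M v ≤ c * qf N v) → G k ω M ≤ c * G k ω N)
    {A B A' : Part S} (_ : A'.Bd) (_ : ∀ {T : Sp} (p : Pj T S) (E : ∀ k, (T.F k).Ω → Prop), (A'.im p E).Bd)
    (As : ∀ k, Setoid (S.F k).Ω) (_ : ∀ k, A' k = fc (As k)) {x₀ : ∀ k, FD (S.F k) ι} (_ : Φ.Opt A B x₀)
    {l' : Lab S} (_ : l'.IsMax A' B) (_ : l'.DM A B) (σ : ℝ)
    (_ : ∀ e : ℝ, 0 < e → Tendsto (fun k => (x₀ k).l.T.pb (fun ω =>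
      ¬ 2 ^ ((σ - e) * (S.F k).n) ≤ G k ((x₀ k).l.p.π ω) ((x₀ k).g ω))) UF (𝓝 0))
    (e : ℝ) (_ : 0 < e)
    (_ : ∀ᶠ k in UF, 1 / 2 ≤ (pam ((x₀ k).jn (l' k)).l (jK (x₀ k) (l' k)) (As k)).sp.pb
        (fun w => Nr (e * (S.F k).n) (((x₀ k).jn (l' k)).g w.1) (((x₀ k).jn (l' k)).g w.2))),
    ∃ (l : Lab S) (E : ∀ k, (l.sp.F k).Ω → Prop), 0 < ul (l.sp.pr E) ∧
      ∃ y : ∀ k, FD ((Sp.im l.pj E).F k) ι, (Φ.im l.pj E).Ad (A'.im l.pj E) (B.im l.pj E) y ∧
      ∀ e' : ℝ, 0 < e' → Tendsto (fun k => (y k).l.T.pb (fun ω =>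
        ¬ 2 ^ ((σ - Cc * e - e') * (S.F k).n) ≤ G k ((y k).l.p.π ω) ((y k).g ω))) UF (𝓝 0) := by
  classical
  obtain ⟨C, N, hC, hN, hround⟩ := exists_round ι
  refine ⟨2 * (1 + C * (C + 1)), by positivity, ?_⟩
  intro S Φ hφ G hG A B A' hA' hA'im As hAs x₀ h₀ l' hl' hl'A σ hσ e he hnear
  set X : ∀ k, FD (S.F k) ι := fun k => (x₀ k).jn (l' k) with hXdef
  have hX : Φ.Opt A B X := Gau.Opt.jn Φ h₀ hl'A
  have hσX : ∀ e : ℝ, 0 < e → Tendsto (fun k => (X k).l.T.pb (fun ω =>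
      ¬ 2 ^ ((σ - e) * (S.F k).n) ≤ G k ((X k).l.p.π ω) ((X k).g ω))) UF (𝓝 0) := by
    intro e he
    refine (hσ e he).congr fun k => ?_
    exact (pb_push ((x₀ k).l.am (l' k)).p1 (fun ω =>
      ¬ 2 ^ ((σ - e) * (S.F k).n) ≤ G k ((x₀ k).l.p.π ω) ((x₀ k).g ω))).symm
  -- roundings
  set L1 : ℕ → ℝ := fun k => max 1 (e * (S.F k).n * Real.log 2) with hL1
  set L2 : ℕ → ℝ := fun k => (C + 1) * L1 k with hL2
  have hL1a : ∀ k, 1 ≤ L1 k := fun k => le_max_left _ _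
  have hL1b : ∀ k, e * (S.F k).n * Real.log 2 ≤ L1 k := fun k => le_max_right _ _
  have hL2a : ∀ k, 1 ≤ L2 k := fun k => by
    have := hL1a k
    show 1 ≤ (C + 1) * L1 k
    nlinarith
  choose Q1 hQ1a hQ1b using fun k => hround (L1 k) (hL1a k)
  choose Q2 hQ2a hQ2b using fun k => hround (L2 k) (hL2a k)
  have hrd := Gau.Opt.round Φ hX e he N hN L1 hL1a hL1b Q1 hQ1b B (Gau.Ad.dm Φ hX.1).2
  -- the enumeration
  have henum : ∀ k (z : Matrix ι ι ℝ), ∃ f : Fin N → Matrix ι ι ℝ, PdM z →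
      ∀ A', PdM A' → NearM (L2 k) z A' → ∃ i, Q2 k A' = f i := by
    intro k z
    by_cases hp : PdM z
    · obtain ⟨Z, hZ, hZ'⟩ := hQ2b k _ hp
      obtain ⟨f, hf⟩ := enum_fin Z N hZ
      exact ⟨f, fun _ A' h1 h2 => hf _ (hZ' A' h1 h2)⟩
    · exact ⟨fun _ => 1, fun h => absurd h hp⟩
  choose en hen using henum
  set l : Lab S := fun k => jlab (x₀ k) (l' k) with hl
  have hmaxl : l.IsMax A' B := jlab_IsMax x₀ hl'
  have hcpdX : ∀ᶠ k in UF, ∀ ω, (X k).l.T.μ ω ≠ 0 → Cpd (Φ.cp k) ((X k).g ω) := by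
    filter_upwards [hX.1 1 one_pos] with k hk ω hω
    exact (hk.2.2.1 ω hω).1
  obtain ⟨E, ub, hpE, hR, -, hub', -, hmax⟩ := Lab.IsMax.agree (l := l) hmaxl hA'
    (fun E => hA'im _ E)
    (fun k => pam (X k).l (jK (x₀ k) (l' k)) (As k)) (fun _ => rfl)
    (fun k => by
      rw [hAs k]
      exact pam_ker (X k).l (jK (x₀ k) (l' k)) (As k))
    (fun _ => Matrix ι ι ℝ) (fun _ => Matrix ι ι ℝ) (fun _ => Matrix ι ι ℝ) (fun k => (X k).g)
    (fun k a b => PdM a ∧ PdM b ∧ Nr (e * (S.F k).n) a b) (fun k => Q1 k) (fun k => Q2 k) N (fun k => en k)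
    (fun k a b hab => by
      obtain ⟨h1, h2, h3⟩ := hab
      have h4 := hQ1a k a h1
      refine hen k (Q1 k a) h4.1 b h2 ?_
      have h5 : NearM (L1 k) a b := Nr.near ⟨h1.1, fun x => h1.nonneg x⟩ ⟨h2.1, fun x => h2.nonneg x⟩ h3 (hL1b k)
      have h6 := nearM_trans (nearM_symm h4.2) h5
      have h7 : C * L1 k + L1 k = L2 k := by rw [hL2]; ring
      rwa [h7] at h6)
    (by
      refine hrd.of_le (Eventually.of_forall fun k => h_nonneg _ _) (Eventually.of_forall fun k => ?_)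
      exact h_anti le_sup_right)
    (show (0 : ℝ) < 1 / 2 by norm_num)
    (by
      filter_upwards [hnear, hcpdX] with k hk hc
      refine hk.trans (FSp.pb_mono _ ?_)
      intro w hw hN
      have h1 := pam_supp _ _ _ w hw
      exact ⟨(hc _ h1.1).pdM, (hc _ h1.2).pdM, hN⟩)
  have hpos : 0 < ul (l.sp.pr E) := lt_of_lt_of_le (by norm_num) hpE
  have hq4 : ∀ᶠ k in UF, 1 / 4 ≤ (l k).T.pb (E k) := by
    have h1 := eventually_gt_of_lt_ul (Sp.UB_pr E) (show (1 : ℝ) / 4 < ul (l.sp.pr E) by linarith)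
    filter_upwards [h1] with k hk using hk.le
  set c : ℕ → ℝ := fun k => Real.exp (-(C * L2 k + L1 k)) with hc
  set M : ∀ k, (l k).T.Ω → Matrix ι ι ℝ := fun k ω => Q2 k (ub k ω) with hM
  set y : ∀ k, FD ((Sp.im l.pj E).F k) ι := fun k => avFD (l k) (E k) (c k) (Φ.cp k) (M k) with hy
  -- pointwise facts
  have hcp2 : ∀ᶠ k in UF, 2 ≤ Φ.cp k := by
    filter_upwards [S.lim.eventually (eventually_ge_atTop 1)] with k hk
    unfold Gau.cp
    have h1 : (1 : ℝ) ≤ (Φ.C + 1) * (S.F k).n := by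
      have := Φ.C0
      nlinarith
    calc (2 : ℝ) = 2 ^ (1 : ℝ) := (Real.rpow_one 2).symm
      _ ≤ _ := Real.rpow_le_rpow_of_exponent_le (by norm_num) h1
  have hpt : ∀ᶠ k in UF, ∀ ω, (l k).T.μ ω ≠ 0 → E k ω →
      (∀ v, qf (c k • M k ω) v ≤ 1 * qf ((X k).g ω) v) ∧ Cpd (Φ.cp k) (1 + c k • M k ω) ∧
      ∀ v, qf ((X k).g ω) v ≤ Real.exp (2 * (L1 k + C * L2 k)) * qf (1 + c k • M k ω) v := by
    filter_upwards [hcpdX, hcp2] with k h1 h2 ω hω hE
    obtain ⟨h3, h4, h5⟩ := hR k ω hE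
    obtain ⟨ω', h6, -, h7⟩ := hub' k ω hω
    have h8 := h1 ω' h6
    have h9 := hQ2a k (ub k ω) h4
    refine av_facts (hL1a k) (hL1b k) h3 h4 ?_ h5 h9.1 h9.2 h2
    intro x
    rw [h7]
    exact h8.2.2 x
  have hyg : ∀ᶠ k in UF, ∀ ω, ((l k).T.rest (E k)).μ ω ≠ 0 → ((l k).T.μ ω ≠ 0 ∧ E k ω) ∧
      (y k).g ω = 1 + c k • M k ω ∧ (y k).g' ω = 1 + c k • M k ω := by
    filter_upwards [hpt, hq4] with k h1 h2 ω hω
    have h0 : (l k).T.pb (E k) ≠ 0 := by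
      have : (0 : ℝ) < 1 / 4 := by norm_num
      exact (this.trans_le h2).ne'
    have h3 := (l k).T.rest_supp (E k) ω hω
    have h4 := h3.2 h0
    have h5 := (h1 ω h3.1 h4).2.1
    refine ⟨⟨h3.1, h4⟩, ?_, ?_⟩
    · show (if Cpd (Φ.cp k) (1 + c k • M k ω) then 1 + c k • M k ω else 1) = _
      rw [if_pos h5]
    · show (if Cpd (Φ.cp k) (1 + c k • M k ω) then 1 + c k • M k ω else 1) = _
      rw [if_pos h5]
  refine ⟨l, E, hpos, y, fun η hη => ?_, fun e' he' => ?_⟩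
  · -- admissible
    obtain ⟨K, hK, hK1⟩ := Φ.one
    have hη2 : 0 < η / 2 := by linarith
    have hη8 : 0 < min (η / 2) (η / 8) := lt_min hη2 (by linarith)
    have hlA := hmax.1.1.eventually (gt_mem_nhds hη)
    have hlB := hmax.1.2.eventually (gt_mem_nhds hη)
    filter_upwards [hX.1 _ hη8, hlA, hlB, hyg, hpt, hK1, hK.eventually_le hη2, hq4] with k h1 h2 h3 h4 h5 h6 h7 h8
    have hn := (S.F k).pos
    have hphi : ∀ ω, ((l k).T.rest (E k)).μ ω ≠ 0 →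
        Φ.φ k ((X k).l.p.π ω) ((X k).g ω) ≤ 2 ^ (min (η / 2) (η / 8) * (S.F k).n) →
        Φ.φ k ((X k).l.p.π ω) (1 + c k • M k ω) ≤ 2 ^ (η * (S.F k).n) := by
      intro ω hω hb
      obtain ⟨⟨a1, a2⟩, a3, a4⟩ := h4 ω hω
      have a5 := (h5 ω a1 a2).1
      have a6 := hφ k ((X k).l.p.π ω) _ _ 1 zero_le_one a5
      have a7 := h6 ((X k).l.p.π ω) ((X k).l.p.supp ω a1)
      rw [Φ.add]
      have a8 : (2 : ℝ) ^ (min (η / 2) (η / 8) * (S.F k).n) ≤ 2 ^ (η / 2 * (S.F k).n) := by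
        apply Real.rpow_le_rpow_of_exponent_le (by norm_num)
        exact mul_le_mul_of_nonneg_right (min_le_left _ _) hn.le
      have a9 : (2 : ℝ) ^ (η * (S.F k).n) = 2 ^ (η / 2 * (S.F k).n) * 2 ^ (η / 2 * (S.F k).n) := by
        rw [← Real.rpow_add (by norm_num)]; congr 1; ring
      have a10 : (0 : ℝ) ≤ K k := hK.1.exists.elim (fun _ _ => by
        have := Φ.nn k ((X k).l.p.π ω) 1 ⟨Matrix.isSymm_one, fun x => by rw [qf_one']; exact dot_self_nonneg x⟩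
        linarith)
      rw [a9]
      nlinarith
    have hprob : ((l k).T.rest (E k)).pb (fun ω => ¬ Φ.φ k ((X k).l.p.π ω) (1 + c k • M k ω) ≤ 2 ^ (η * (S.F k).n)) ≤
        η := by
      have b1 : ((l k).T.rest (E k)).pb (fun ω => ¬ Φ.φ k ((X k).l.p.π ω) (1 + c k • M k ω) ≤ 2 ^ (η * (S.F k).n)) ≤
          ((l k).T.rest (E k)).pb (fun ω => ¬ Φ.φ k ((X k).l.p.π ω) ((X k).g ω) ≤
            2 ^ (min (η / 2) (η / 8) * (S.F k).n)) := by
        apply FSp.pb_mono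
        intro ω hω hb hb'
        exact hb (hphi ω hω hb')
      have b2 := pb_rest_le (l k).T (E k) (fun ω => ¬ Φ.φ k ((X k).l.p.π ω) ((X k).g ω) ≤
            2 ^ (min (η / 2) (η / 8) * (S.F k).n)) (1 / 4) (by norm_num) h8
      have b3 : (l k).T.pb (fun ω => ¬ Φ.φ k ((X k).l.p.π ω) ((X k).g ω) ≤
            2 ^ (min (η / 2) (η / 8) * (S.F k).n)) ≤ min (η / 2) (η / 8) := h1.2.2.2.1
      have b4 : min (η / 2) (η / 8) ≤ η / 8 := min_le_right _ _
      refine (b1.trans b2).trans ?_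
      rw [div_le_iff₀ (by norm_num)]
      linarith
    refine ⟨?_, ?_, fun ω hω => ?_, ?_, ?_⟩
    · exact ((div_lt_iff₀ ((Sp.im l.pj E).F k).pos).mp h2).le
    · exact ((div_lt_iff₀ ((Sp.im l.pj E).F k).pos).mp h3).le
    · obtain ⟨⟨a1, a2⟩, a3, a4⟩ := h4 ω hω
      rw [a3, a4]
      exact ⟨(h5 ω a1 a2).2.1, (h5 ω a1 a2).2.1⟩
    · refine le_trans (FSp.pb_mono _ ?_) hprob
      intro ω hω hb
      have a3 := (h4 ω hω).2.1
      rw [a3] at hb
      exact hb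
    · refine le_trans (FSp.pb_mono _ ?_) hprob
      intro ω hω hb
      have a3 := (h4 ω hω).2.2
      rw [a3] at hb
      exact hb
  · -- lower bound
    have h1 := (hσX e' he').const_mul (4 : ℝ)
    rw [mul_zero] at h1
    refine tendsto_of_tendsto_of_tendsto_of_le_of_le' tendsto_const_nhds h1
      (Eventually.of_forall fun k => FSp.pb_nonneg _ _) ?_
    have hlarge : ∀ᶠ k in UF, 1 ≤ e * (S.F k).n * Real.log 2 := by
      have h2 : 0 < e * Real.log 2 := mul_pos he (Real.log_pos (by norm_num))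
      filter_upwards [S.lim.eventually (eventually_ge_atTop (1 / (e * Real.log 2)))] with k hk
      rw [div_le_iff₀ h2] at hk
      linarith
    filter_upwards [hyg, hpt, hq4, hlarge] with k h4 h5 h8 hlg
    have b2 := pb_rest_le (l k).T (E k) (fun ω => ¬ 2 ^ ((σ - e') * (S.F k).n) ≤
      G k ((X k).l.p.π ω) ((X k).g ω)) (1 / 4) (by norm_num) h8
    have b3 : ((l k).T.rest (E k)).pb (fun ω => ¬ 2 ^ ((σ - e') * (S.F k).n) ≤
      G k ((X k).l.p.π ω) ((X k).g ω)) ≤ 4 * (X k).l.T.pb (fun ω => ¬ 2 ^ ((σ - e') * (S.F k).n) ≤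
      G k ((X k).l.p.π ω) ((X k).g ω)) := by
      refine b2.trans (le_of_eq ?_)
      have b5 : (l k).T.pb (fun ω => ¬ 2 ^ ((σ - e') * (S.F k).n) ≤ G k ((X k).l.p.π ω) ((X k).g ω)) =
        (X k).l.T.pb (fun ω => ¬ 2 ^ ((σ - e') * (S.F k).n) ≤ G k ((X k).l.p.π ω) ((X k).g ω)) := rfl
      rw [b5]
      ring
    refine le_trans (FSp.pb_mono _ ?_) b3
    intro ω hω hb hb'
    obtain ⟨⟨a1, a2⟩, a3, a4⟩ := h4 ω hω
    rw [a3] at hb
    apply hb
    have a5 := hG k ((X k).l.p.π ω) _ _ _ (Real.exp_pos _).le (h5 ω a1 a2).2.2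
    have a6 : L1 k = e * (S.F k).n * Real.log 2 := max_eq_right hlg
    have a7 : 2 * (L1 k + C * L2 k) = (2 * (1 + C * (C + 1)) * e * (S.F k).n) * Real.log 2 := by
      rw [hL2]
      simp only
      rw [a6]; ring
    rw [a7, ← two_rpow_exp] at a5
    have a8 := hb'.trans a5
    have a9 : (2 : ℝ) ^ ((σ - e') * (S.F k).n) = 2 ^ (2 * (1 + C * (C + 1)) * e * (S.F k).n) *
        2 ^ ((σ - 2 * (1 + C * (C + 1)) * e - e') * (S.F k).n) := by
      rw [← Real.rpow_add (by norm_num)]; congr 1; ring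
    rw [a9] at a8
    exact le_of_mul_le_mul_left a8 (by positivity)

end

end Pool.Agent.Helper89.LX
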