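import Pool.Agent.Helper89.LX.Njd
import Pool.Agent.Helper42.NS.Cnt

/-! COUNT (LEAF (0.4)) for a form which is small up to `2^(e n)` and whose gradient is large up to `2^(e n)`, over a
label which knows a ball of radius `2^(-c n)`. -/

set_option autoImplicit false

namespace Pool.Agent.Helper89.LX

open Finset Filter Topology Matrix Pool.Agent.Helper69.RK Pool.Agent.Helper31.EC Pool.Agent.Helper40.EL
open Pool.Agent.Helper31.EC.Sp
open Pool.Agent.Helper95.LF Pool.Agent.Helper3.LF Pool.Agent.Helper42.NS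

noncomputable section

variable {S : Sp} {m : ℕ}

/-- COUNT with error terms -/
theorem cnt_gen {s : Sys S m} {D : ℕ} {c σ e : ℝ} (hcs : c ≤ σ) (h1 : σ ≤ 1) (he : 0 ≤ e)
    (x : ∀ k, FD (S.F k) (Mon (m + 1) D)) (hpd : ∀ᶠ k in UF, ∀ ω, (x k).l.T.μ ω ≠ 0 → PdM ((x k).g ω))
    (hT1 : Typ (S := (lb x).sp) (fun k ω => sph s D k ((x k).l.p.π ω) ((x k).g ω) ≤ 2 ^ (2 * e * (S.F k).n)))
    (hT2 : Typ (S := (lb x).sp) (fun k ω => 2 ^ (2 * (σ - e) * (S.F k).n) ≤
      sga s D k ((x k).l.p.π ω) ((x k).g ω)))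
    (x0 : ∀ k, (x k).l.T.Ω → Fin (m + 1) → ℝ)
    (hx0 : ∀ᶠ k in UF, ∀ ω ω', (x k).l.T.μ ω ≠ 0 → (x k).l.T.μ ω' ≠ 0 → (x k).l.V ω' ω → (x k).l.T.Z ω' ω →
      x0 k ω' = x0 k ω)
    (K0 : ℕ → ℝ) (hK0 : S.Sub K0)
    (hb : ∀ᶠ k in UF, ∀ ω, (x k).l.T.μ ω ≠ 0 → ∀ i, |ptf s k ((x k).l.p.π ω) i - x0 k ω i| ≤ K0 k * S.dl c k) :
    H (up1 (lb x) (s.P.dg σ ⊔ s.t.dg σ)) ≤ m * (σ - c) + 2 * (m + 1) * e := by
  classical
  obtain ⟨Kp, hKp, hpb⟩ := ptf_bd s
  set C2 : ℝ := Fintype.card (Mon (m + 1) D) * ((m + 1 : ℕ) * nn (m + 1) D) with hC2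
  have hC20 : 0 ≤ C2 := by
    have := nn_one (m + 1) D
    rw [hC2]
    positivity
  set l : Lab S := lb x with hl
  have hTsub : ∀ {L : ℕ → ℝ}, S.Sub L → (osp l).Sub L := fun hL => chg_sub l.V 1 one_pos ((sp_Sub l).mpr hL)
  set y : (osp l).VV (m + 1) :=
    { v := fun k ω => cy s x k ω
      bd := by
        refine ⟨fun k => Kp k + 1, hTsub (hKp.add (S.Sub_const zero_le_one)), ?_⟩
        filter_upwards [hpb] with k hk ω hω i
        have h2 := cy_near s x k ω i
        have h3 := hk _ ((x k).l.p.supp ω hω) i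
        have h4 := dl_one_le S k
        have h5 := abs_sub_abs_le_abs_sub (cy s x k ω i) (ptf s k ((x k).l.p.π ω) i)
        linarith } with hy
  have hmain : h (y.dg σ) (cl (Inf.bot : (osp l).Inf)) ≤ m * (σ - c) + 2 * (m + 1) * e := by
    apply Pool.Agent.Helper80.LF.h_leaf (S := osp l) (m := m) (J := Fintype.card (Mon (m + 1) D)) (D := D) y σ c e hcs
      he Inf.bot (fun k ω j => pol (rws ((x k).g ω) ((Fintype.equivFin _).symm j)))
      (fun k ω => x0 k ω)
      ?_ (fun k ω j => pol_deg _)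
      (fun k ω => sph s D k ((x k).l.p.π ω) ((x k).g ω) ≤ 2 ^ (2 * e * (S.F k).n) ∧
        2 ^ (2 * (σ - e) * (S.F k).n) ≤ sga s D k ((x k).l.p.π ω) ((x k).g ω)) ?_
      (fun k => 1 + (C2 + 1) + (K0 k + 1))
      ?_ ?_
    · filter_upwards [hx0] with k hk ω ω' a a' _ g
      have g1 : (l k).V ω' ω := g.1
      have g2 : (l k).T.Z ω' ω := g.2
      refine ⟨?_, hk ω ω' a a' g1 g2⟩
      funext j
      rw [((x k).meas ω' ω a' a g1 g2).1]
    · exact typ_and (S := (lb x).sp) hT1 hT2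
    · exact hTsub (((S.Sub_const zero_le_one).add (S.Sub_const (by linarith))).add (hK0.add (S.Sub_const zero_le_one)))
    · filter_upwards [hpd, hb, hK0.1] with k b1 b2 b3 ω hω g
      obtain ⟨g1, g2⟩ := g
      have hn : ((osp l).F k).n = (S.F k).n := by
        have e1 : ((osp l).F k).n = 1 * (l k).T.n := rfl
        rw [e1, one_mul, (l k).hn]
      have hpd := b1 ω hω
      refine ⟨fun i => ?_, ?_⟩
      · rw [osp_dl]
        have d1 : S.dl 1 k ≤ S.dl c k := S.dl_anti (hcs.trans h1) k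
        have d0 := S.dl_pos c k
        have h2 := cy_near s x k ω i
        have h3 := b2 ω hω i
        have h4 := abs_sub_le (cy s x k ω i) (ptf s k ((x k).l.p.π ω) i) (x0 k ω i)
        have h5 : |cy s x k ω i - x0 k ω i| ≤ S.dl c k + K0 k * S.dl c k := by linarith
        refine h5.trans ?_
        nlinarith
      · obtain ⟨r, i, hr⟩ := cy_spec s x k ω
        have hr1 := hr hpd
        refine ⟨Fintype.equivFin _ r, i, ?_, ?_⟩
        · rw [Equiv.symm_apply_apply, hn]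
          have h2 := node_le (D := D) (pol (rws ((x k).g ω) r)) (S.dl 1 k) (ptf s k ((x k).l.p.π ω)) (cj s x k ω)
          have h3 := rws_ph_le hpd (S.dl 1 k) (ptf s k ((x k).l.p.π ω)) r
          have e1 : (2 : ℝ) ^ (2 * e * (S.F k).n) = (2 ^ (e * (S.F k).n)) ^ 2 := by
            rw [← Real.rpow_natCast, ← Real.rpow_mul (by norm_num)]
            congr 1
            push_cast
            ring
          have h4 : Real.sqrt (ph D (pol (rws ((x k).g ω) r)) (S.dl 1 k) (ptf s k ((x k).l.p.π ω))) ≤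
              2 ^ (e * (S.F k).n) := by
            apply Real.sqrt_le_iff.mpr
            refine ⟨by positivity, ?_⟩
            rw [← e1]
            exact h3.trans g1
          have h5 : |MvPolynomial.eval (cy s x k ω) (pol (rws ((x k).g ω) r))| ≤ 2 ^ (e * (S.F k).n) := h2.trans h4
          refine h5.trans ?_
          have h6 : (0 : ℝ) < 2 ^ (e * (S.F k).n) := by positivity
          nlinarith
        · rw [Equiv.symm_apply_apply, hn]
          set d : ℝ := MvPolynomial.eval (cy s x k ω) (MvPolynomial.pderiv i (pol (rws ((x k).g ω) r))) with hd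
          have h2 : ((2 : ℝ) ^ ((σ - e) * (S.F k).n)) ^ 2 ≤ C2 * d ^ 2 := by
            have e1 : ((2 : ℝ) ^ ((σ - e) * (S.F k).n)) ^ 2 = 2 ^ (2 * (σ - e) * (S.F k).n) := by
              rw [← Real.rpow_natCast, ← Real.rpow_mul (by norm_num)]
              congr 1
              push_cast
              ring
            rw [e1]
            exact g2.trans hr1
          have h3 : (2 : ℝ) ^ ((σ - e) * (S.F k).n) ≤ (C2 + 1) * |d| := by
            apply le_of_sq_le_sq _ (by positivity)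
            rw [mul_pow, sq_abs]
            refine h2.trans ?_
            apply mul_le_mul_of_nonneg_right _ (sq_nonneg _)
            nlinarith
          refine h3.trans ?_
          apply mul_le_mul_of_nonneg_right _ (abs_nonneg _)
          linarith
  rw [cl_bot, h_bot] at hmain
  -- the digits of the point are digits of the node
  have hP : u1 l (s.P.dg σ) ≤ y.dg σ := by
    have e1 : u1 l (s.P.dg σ) = ((l.pj.vv s.P).chg l.V 1 one_pos).dg σ := by
      rw [VV.chg_dg, one_mul, u1_dg]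
    rw [e1]
    apply VV.dg_le_dg _ _ _ _ (fun _ _ => True) Typ_true (fun _ => 3) (Sub_const _ (by norm_num))
    refine Eventually.of_forall fun k ω ω' _ _ _ _ _ g i => ?_
    have h2 := g i.succ
    rw [osp_dl] at h2 ⊢
    have h3 := cy_near s x k ω i.succ
    have h4 := cy_near s x k ω' i.succ
    have d1 : S.dl 1 k ≤ S.dl σ k := S.dl_anti h1 k
    show |ptf s k ((x k).l.p.π ω) i.succ - ptf s k ((x k).l.p.π ω') i.succ| ≤ _
    have h5 : |cy s x k ω i.succ - cy s x k ω' i.succ| ≤ S.dl σ k := h2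
    rw [abs_le] at h3 h4 h5 ⊢
    constructor <;> linarith [h3.1, h3.2, h4.1, h4.2, h5.1, h5.2]
  have hT : u1 l (s.t.dg σ) ≤ y.dg σ := by
    have e1 : u1 l (s.t.dg σ) = ((l.pj.vv s.t).chg l.V 1 one_pos).dg σ := by
      rw [VV.chg_dg, one_mul, u1_dg]
    rw [e1]
    apply VV.dg_le_dg _ _ _ _ (fun _ _ => True) Typ_true (fun _ => 3) (Sub_const _ (by norm_num))
    refine Eventually.of_forall fun k ω ω' _ _ _ _ _ g i => ?_
    have h2 := g 0
    rw [osp_dl] at h2 ⊢
    have h3 := cy_near s x k ω 0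
    have h4 := cy_near s x k ω' 0
    have d1 : S.dl 1 k ≤ S.dl σ k := S.dl_anti h1 k
    have e2 : i = 0 := Subsingleton.elim _ _
    rw [e2]
    show |ptf s k ((x k).l.p.π ω) 0 - ptf s k ((x k).l.p.π ω') 0| ≤ _
    have h5 : |cy s x k ω 0 - cy s x k ω' 0| ≤ S.dl σ k := h2
    rw [abs_le] at h3 h4 h5 ⊢
    constructor <;> linarith [h3.1, h3.2, h4.1, h4.2, h5.1, h5.2]
  have h2 : H (u1 l (s.P.dg σ ⊔ s.t.dg σ)) ≤ H (y.dg σ) := by
    apply H_mono
    rw [u1_sup]
    exact sup_le hP hT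
  have h3 : H (u1 l (s.P.dg σ ⊔ s.t.dg σ)) = H (up1 l (s.P.dg σ ⊔ s.t.dg σ)) := by
    rw [← h_bot, ← h_bot (up1 l _)]
    have e1 : (⊥ : (osp l).L) = u1 l ⊥ := by
      unfold u1
      rw [l.pj.map_bot, chgL_bot]
    have e2 : (⊥ : (l.ovr 1 one_pos).L) = up1 l ⊥ := (l.upL_bot 1 one_pos).symm
    rw [e1, e2]
    exact u1_h l _ _
  rw [← h3]
  exact h2.trans hmain

end

end Pool.Agent.Helper89.LX
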