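import Pool.Agent.Helper89.LX.Njg

/-! COUNT at the far point and LEMMA NJ (LEAF sect. 4), complete: a system with full hypersurface containers at the
window `c₀` has almost the same containers at all windows `c' < c₀` near `c₀`. -/

set_option autoImplicit false

namespace Pool.Agent.Helper89.LX

open Finset Filter Topology Matrix Pool.Agent.Helper69.RK Pool.Agent.Helper31.EC Pool.Agent.Helper40.EL
open Pool.Agent.Helper31.EC.Sp
open Pool.Agent.Helper95.LF Pool.Agent.Helper3.LF Pool.Agent.Helper42.NS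

noncomputable section

variable {S : Sp} {m : ℕ}

section far

variable (s : Sys S m) (c : ℝ) (hc : 0 ≤ c)

/-- COUNT at the far point -/
theorem far_cnt {D : ℕ} (Y : ∀ k, FD (S.F k) (Mon (m + 1) D)) (L : ∀ k, Setoid (Y k).l.T.Ω) (hc1 : c ≤ 1) {e : ℝ}
    (he : 0 ≤ e) (hpd : ∀ᶠ k in UF, ∀ ω, (Y k).l.T.μ ω ≠ 0 → PdM ((Y k).g ω))
    (hT1 : Typ (S := (lb (farFD s Y L c hc)).sp) (fun k (w : (Y k).l.T.Ω × (Y k).l.T.Ω) =>
      sph s D k ((Y k).l.p.π w.2) ((Y k).g w.1) ≤ 2 ^ (2 * e * (S.F k).n)))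
    (hT2 : Typ (S := (lb (farFD s Y L c hc)).sp) (fun k (w : (Y k).l.T.Ω × (Y k).l.T.Ω) =>
      2 ^ (2 * (1 - e) * (S.F k).n) ≤ sga s D k ((Y k).l.p.π w.2) ((Y k).g w.1))) :
    H (up1 (lb (farFD s Y L c hc)) (s.P.dg 1 ⊔ s.t.dg 1)) ≤ m * (1 - c) + 2 * (m + 1) * e := by
  obtain ⟨Kt, hKt, ht⟩ := s.t.bd
  obtain ⟨Kx, hKx, hx⟩ := s.x.bd
  refine cnt_gen hc1 le_rfl he (farFD s Y L c hc) ?_ hT1 hT2
    (fun k (w : (Y k).l.T.Ω × (Y k).l.T.Ω) =>
      Fin.cons (zth s c k ((Y k).l.p.π w.1)) (zbh s c hc k ((Y k).l.p.π w.1)))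
    ?_ (fun k => 2 + Kt k + 2 * Kx k) (((S.Sub_const zero_le_two).add hKt).add ((S.Sub_const zero_le_two).mul hKx)) ?_
  · filter_upwards [hpd] with k hk w hw
    exact hk _ (pam_supp _ _ _ w hw).1
  · refine Eventually.of_forall fun k w w' _ _ hV _ => ?_
    have h2 : s.cells c 0 hc k ((Y k).l.p.π w'.1) ((Y k).l.p.π w.1) := hV.2
    obtain ⟨e1, e2, _⟩ := cells_eq h2
    rw [e1, e2]
  · filter_upwards [ht, hx, hKt.1, hKx.1] with k b1 b2 b3 b4 w hw i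
    obtain ⟨hw1, hw2⟩ := pam_supp _ _ _ w hw
    have hrel : cAs s c k ((Y k).l.p.π w.1) ((Y k).l.p.π w.2) := (pam_rel _ _ _ w hw).1.2
    obtain ⟨r1, r2, r3⟩ := cAs_close s c k ((Y k).l.p.π w.1) ((Y k).l.p.π w.2) ((cAs s c k).symm hrel)
    have m1 := (Y k).l.p.supp _ hw1
    have m2 := (Y k).l.p.supp _ hw2
    show |ptf s k ((Y k).l.p.π w.2) i - (Fin.cons (zth s c k ((Y k).l.p.π w.1)) (zbh s c hc k ((Y k).l.p.π w.1)) :
      Fin (m + 1) → ℝ) i| ≤ _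
    set v := (Y k).l.p.π w.1 with hv
    set u := (Y k).l.p.π w.2 with hu
    have d0 := S.dl_pos c k
    have d1 : S.dl 1 k ≤ S.dl c k := S.dl_anti hc1 k
    have dd := S.dl_pos 1 k
    have f0 : |s.t.v k v 0 - zth s c k v| ≤ S.dl c k := by
      unfold zth
      have f1 := Int.floor_le (s.t.v k v 0 / S.dl c k)
      have f2 := Int.lt_floor_add_one (s.t.v k v 0 / S.dl c k)
      rw [le_div_iff₀ d0] at f1
      rw [div_lt_iff₀ d0] at f2
      rw [abs_le]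
      constructor <;> nlinarith
    have g0 : |s.t.v k u 0 - zth s c k v| ≤ 2 * S.dl c k := by
      have := abs_sub_le (s.t.v k u 0) (s.t.v k v 0) (zth s c k v)
      linarith
    refine Fin.cases ?_ (fun j => ?_) i
    · show |s.t.v k u 0 - zth s c k v| ≤ _
      nlinarith
    · show |s.a.v k u j + s.t.v k u 0 * s.x.v k u j - zbh s c hc k v j| ≤ _
      have f3 : (s.bc c hc).v k v j = s.a.v k v j + zth s c k v * s.x.v k v j := rfl
      have f4 : |(s.bc c hc).v k v j - zbh s c hc k v j| ≤ S.dl c k := by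
        unfold zbh
        have e0 : S.dl (c + 0) k = S.dl c k := by rw [add_zero]
        rw [e0]
        have f1 := Int.floor_le ((s.bc c hc).v k v j / S.dl c k)
        have f2 := Int.lt_floor_add_one ((s.bc c hc).v k v j / S.dl c k)
        rw [le_div_iff₀ d0] at f1
        rw [div_lt_iff₀ d0] at f2
        rw [abs_le]
        constructor <;> nlinarith
      have f5 : s.a.v k u j + s.t.v k u 0 * s.x.v k u j - zbh s c hc k v j =
          (s.a.v k u j - s.a.v k v j) + s.t.v k u 0 * (s.x.v k u j - s.x.v k v j) +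
            (s.t.v k u 0 - zth s c k v) * s.x.v k v j + ((s.bc c hc).v k v j - zbh s c hc k v j) := by
        rw [f3]
        ring
      rw [f5]
      have g1 : |s.t.v k u 0 * (s.x.v k u j - s.x.v k v j)| ≤ Kt k * S.dl 1 k := by
        rw [abs_mul]
        exact mul_le_mul (b1 _ m2 0) (r2 j) (abs_nonneg _) b3
      have g2 : |(s.t.v k u 0 - zth s c k v) * s.x.v k v j| ≤ 2 * S.dl c k * Kx k := by
        rw [abs_mul]
        exact mul_le_mul g0 (b2 _ m1 j) (abs_nonneg _) (by positivity)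
      have g3 := r1 j
      have g4 := abs_add_le ((s.a.v k u j - s.a.v k v j) + s.t.v k u 0 * (s.x.v k u j - s.x.v k v j) +
            (s.t.v k u 0 - zth s c k v) * s.x.v k v j) ((s.bc c hc).v k v j - zbh s c hc k v j)
      have g5 := abs_add_le ((s.a.v k u j - s.a.v k v j) + s.t.v k u 0 * (s.x.v k u j - s.x.v k v j))
            ((s.t.v k u 0 - zth s c k v) * s.x.v k v j)
      have g6 := abs_add_le (s.a.v k u j - s.a.v k v j) (s.t.v k u 0 * (s.x.v k u j - s.x.v k v j))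
      have g7 : Kt k * S.dl 1 k ≤ Kt k * S.dl c k := mul_le_mul_of_nonneg_left d1 b3
      nlinarith

/-- THE SIZE OF THE FORM AT THE FAR POINT -/
theorem far_phi_t {D : ℕ} {c₀ : ℝ} (h0 : 0 ≤ c₀) (h1 : c₀ < 1) {X : ∀ k, FD (S.F k) (Mon (m + 1) D)}
    (hX : (gau s D).Ad (cA s c₀) (cB s) X) (K : ∀ k, Setoid (X k).l.T.Ω) (hcc : c ≤ c₀) (η : ℝ) (hη : 0 < η)
    (hb : (2 * D : ℕ) * (c₀ - c) ≤ η / 2) :
    Typ (S := (lb (farFD s X K c hc)).sp) (fun k (w : (X k).l.T.Ω × (X k).l.T.Ω) =>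
      sph s D k ((X k).l.p.π w.2) ((X k).g w.1) ≤ 2 ^ (η * (S.F k).n)) := by
  have hDM : DMc s c₀ (lb X) := Gau.Ad.dm (gau s D) hX
  have hcpd : ∀ᶠ k in UF, ∀ ω, (X k).l.T.μ ω ≠ 0 → Cpd ((gau s D).cp k) ((X k).g ω) := by
    filter_upwards [hX 1 one_pos] with k hk ω hω
    exact (hk.2.2.1 ω hω).1
  obtain ⟨K1, hK1, hT1⟩ := win_phi (s := s) h0 h1 (l := lb X) hDM (fun k => (X k).g)
    (by filter_upwards [hcpd] with k hk ω hω using (hk ω hω).pdM)
    (Eventually.of_forall fun k ω ω' a b c d => ((X k).meas ω ω' a b c d).1)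
    (c₀ - c) (by linarith) (fun _ => 1) (S.Sub_const zero_le_one)
  obtain ⟨K2, hK2, hT2⟩ := ad_sub hX
  obtain ⟨Kt, hKt, ht⟩ := s.t.bd
  have hT := typ_and hT1 hT2
  have hC0 : (0 : ℝ) ≤ nn (m + 1) D * (Cu D * Cm (m + 1) D) ^ 2 := by
    have := nn_one (m + 1) D
    positivity
  have hsub : S.Sub (fun k => nn (m + 1) D * (Cu D * Cm (m + 1) D) ^ 2 * (Kt k + 2) ^ (2 * D) * (K1 k * K2 k)) :=
    ((S.Sub_const hC0).mul (Sub_powN (hKt.add (S.Sub_const zero_le_two)) _)).mul (hK1.mul hK2)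
  have hT' : Tendsto (fun k => (X k).l.T.pb (fun ω => ¬ ((∀ r, |r - s.t.v k ((X k).l.p.π ω) 0| ≤
      1 * S.dl (c₀ - (c₀ - c)) k → phi (S.dl 1 k) ((X k).g ω) (pl (s.a.v k ((X k).l.p.π ω))
      (s.x.v k ((X k).l.p.π ω)) r) ≤ K1 k * 2 ^ ((2 * D : ℕ) * (c₀ - c) * (S.F k).n) *
      sph s D k ((X k).l.p.π ω) ((X k).g ω)) ∧ sph s D k ((X k).l.p.π ω) ((X k).g ω) ≤ K2 k))) UF (𝓝 0) := hT
  have hT3 : Tendsto (fun k => (pam (X k).l (K k) (cAs s c k)).sp.pb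
      (fun w => ¬ sph s D k ((X k).l.p.π w.2) ((X k).g w.1) ≤ 2 ^ (η * (S.F k).n))) UF (𝓝 0) := by
    refine squeeze_zero' (Eventually.of_forall fun k => FSp.pb_nonneg _ _) ?_ hT'
    filter_upwards [hcpd, ht, hKt.1, hK1.1, hK2.1,
      hsub.eventually_le (show 0 < η / 2 by linarith)] with k a2 a3 a4 a5 a6 a7
    have hn := (S.F k).pos
    have hd := S.dl_pos 1 k
    rw [← pb_push (pam (X k).l (K k) (cAs s c k)).p1]
    apply FSp.pb_mono
    intro w hw hbad hE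
    apply hbad
    obtain ⟨hE1, hE2⟩ := hE
    obtain ⟨w1, w2⟩ := w
    obtain ⟨hw1, hw2⟩ := pam_supp _ _ _ _ hw
    have hrel := (pam_rel _ _ _ _ hw).1.2
    obtain ⟨r1, r2, r3⟩ := cAs_close s c k ((X k).l.p.π w1) ((X k).l.p.π w2) ((cAs s c k).symm hrel)
    have hμ2 := (X k).l.p.supp w2 hw2
    have hA := (a2 w1 hw1).pdM
    have e1 := hE1 (s.t.v k ((X k).l.p.π w2) 0) (by
      have : c₀ - (c₀ - c) = c := by ring
      rw [one_mul, this]
      exact r3)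
    have e2 := phi_comp ((X k).g w1) hA (S.dl 1 k) (S.dl 1 k) (Kt k + 2) hd hd.le (by linarith)
      (pl (s.a.v k ((X k).l.p.π w1)) (s.x.v k ((X k).l.p.π w1)) (s.t.v k ((X k).l.p.π w2) 0))
      (pl (s.a.v k ((X k).l.p.π w2)) (s.x.v k ((X k).l.p.π w2)) (s.t.v k ((X k).l.p.π w2) 0)) (fun i => by
        have := pl_diff (s.a.v k ((X k).l.p.π w1)) (s.x.v k ((X k).l.p.π w1)) (s.a.v k ((X k).l.p.π w2))
          (s.x.v k ((X k).l.p.π w2)) (s.t.v k ((X k).l.p.π w2) 0) (S.dl 1 k) (Kt k) hd.le (a3 _ hμ2 0) r1 r2 i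
        linarith)
    have e3 : sph s D k ((X k).l.p.π w2) ((X k).g w1) ≤ nn (m + 1) D * (Cu D * Cm (m + 1) D * (Kt k + 2) ^ D) ^ 2 *
        phi (S.dl 1 k) ((X k).g w1) (pl (s.a.v k ((X k).l.p.π w1)) (s.x.v k ((X k).l.p.π w1))
          (s.t.v k ((X k).l.p.π w2) 0)) := e2
    have e4 : phi (S.dl 1 k) ((X k).g w1) (pl (s.a.v k ((X k).l.p.π w1)) (s.x.v k ((X k).l.p.π w1))
          (s.t.v k ((X k).l.p.π w2) 0)) ≤ K1 k * 2 ^ ((2 * D : ℕ) * (c₀ - c) * (S.F k).n) * K2 k :=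
      e1.trans (mul_le_mul_of_nonneg_left hE2 (by positivity))
    have e5 : nn (m + 1) D * (Cu D * Cm (m + 1) D * (Kt k + 2) ^ D) ^ 2 =
        nn (m + 1) D * (Cu D * Cm (m + 1) D) ^ 2 * (Kt k + 2) ^ (2 * D) := by
      rw [mul_pow, ← pow_mul]
      ring
    have e6 : 0 ≤ nn (m + 1) D * (Cu D * Cm (m + 1) D) ^ 2 * (Kt k + 2) ^ (2 * D) := by
      have := nn_one (m + 1) D
      positivity
    rw [e5] at e3
    have e7 := e3.trans (mul_le_mul_of_nonneg_left e4 e6)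
    refine e7.trans ?_
    have e8 : (2 : ℝ) ^ ((2 * D : ℕ) * (c₀ - c) * (S.F k).n) ≤ 2 ^ (η / 2 * (S.F k).n) := by
      apply Real.rpow_le_rpow_of_exponent_le (by norm_num)
      exact mul_le_mul_of_nonneg_right hb hn.le
    have e9 : (2 : ℝ) ^ (η * (S.F k).n) = 2 ^ (η / 2 * (S.F k).n) * 2 ^ (η / 2 * (S.F k).n) := by
      rw [← Real.rpow_add (by norm_num)]; congr 1; ring
    rw [e9]
    have e10 : nn (m + 1) D * (Cu D * Cm (m + 1) D) ^ 2 * (Kt k + 2) ^ (2 * D) *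
        (K1 k * 2 ^ ((2 * D : ℕ) * (c₀ - c) * (S.F k).n) * K2 k) =
        (nn (m + 1) D * (Cu D * Cm (m + 1) D) ^ 2 * (Kt k + 2) ^ (2 * D) * (K1 k * K2 k)) *
          2 ^ ((2 * D : ℕ) * (c₀ - c) * (S.F k).n) := by ring
    rw [e10]
    exact mul_le_mul (by linarith) e8 (by positivity) (by positivity)
  exact hT3

/-- the gradient of the form of the first point at the far point -/
theorem far_gam_t {D : ℕ} (Y : ∀ k, FD (S.F k) (Mon (m + 1) D)) (L : ∀ k, Setoid (Y k).l.T.Ω) (hc1 : c < 1)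
    (hpd : ∀ᶠ k in UF, ∀ ω, (Y k).l.T.μ ω ≠ 0 → PdM ((Y k).g ω))
    (hent : 1 - c ≤ ul (fun k => h ((Y k).l.p.map (qT s k))
      (fc (L k) ⊔ (Y k).l.p.map (cA s c k)) / (S.F k).n)) {σ e : ℝ} (he : 0 < e)
    (hnear : Tendsto (fun k => (Y k).l.T.pb (fun ω =>
      ¬ 2 ^ (2 * (σ - e / 2) * (S.F k).n) ≤ sga s D k ((Y k).l.p.π ω) ((Y k).g ω))) UF (𝓝 0)) :
    Typ (S := (lb (farFD s Y L c hc)).sp) (fun k (w : (Y k).l.T.Ω × (Y k).l.T.Ω) =>
      2 ^ (2 * (σ - e) * (S.F k).n) ≤ sga s D k ((Y k).l.p.π w.2) ((Y k).g w.1)) := by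
  obtain ⟨K', hK', hT⟩ := far_gam s c hc Y L hc1 hpd hent
  have hn1 : Typ (S := (lb (farFD s Y L c hc)).sp) (fun k (w : (Y k).l.T.Ω × (Y k).l.T.Ω) =>
      2 ^ (2 * (σ - e / 2) * (S.F k).n) ≤ sga s D k ((Y k).l.p.π w.1) ((Y k).g w.1)) := by
    have h2 : Tendsto (fun k => (pam (Y k).l (L k) (cAs s c k)).sp.pb (fun w =>
      ¬ 2 ^ (2 * (σ - e / 2) * (S.F k).n) ≤ sga s D k ((Y k).l.p.π w.1) ((Y k).g w.1))) UF (𝓝 0) := by
      refine hnear.congr fun k => ?_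
      exact (pb_push (pam (Y k).l (L k) (cAs s c k)).p1 (fun ω =>
        ¬ 2 ^ (2 * (σ - e / 2) * (S.F k).n) ≤ sga s D k ((Y k).l.p.π ω) ((Y k).g ω))).symm
    exact h2
  refine typ_mono (S := (lb (farFD s Y L c hc)).sp) (typ_and (S := (lb (farFD s Y L c hc)).sp) hT hn1) ?_
  filter_upwards [hK'.1, hK'.eventually_le he] with k b1 b2 w hw hE
  obtain ⟨h1, h2⟩ := hE
  have h3 := h2.trans h1
  have h4 : (2 : ℝ) ^ (2 * (σ - e / 2) * (S.F k).n) = 2 ^ (e * (S.F k).n) * 2 ^ (2 * (σ - e) * (S.F k).n) := by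
    rw [← Real.rpow_add (by norm_num)]
    congr 1
    ring
  rw [h4] at h3
  have h5 : (0 : ℝ) < 2 ^ (e * (S.F k).n) := by positivity
  have h6 : (0 : ℝ) < 2 ^ (2 * (σ - e) * (S.F k).n) := by positivity
  have h7 : 0 < K' k * sga s D k ((Y k).l.p.π w.2) ((Y k).g w.1) := lt_of_lt_of_le (mul_pos h5 h6) h3
  have h8 : 0 < sga s D k ((Y k).l.p.π w.2) ((Y k).g w.1) := by
    rcases b1.eq_or_lt with h9 | h9
    · rw [← h9, zero_mul] at h7
      exact absurd h7 (lt_irrefl _)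
    · exact pos_of_mul_pos_right h7 h9.le
  have h9 := mul_le_mul_of_nonneg_right b2 h8.le
  have h10 : 2 ^ (e * (S.F k).n) * 2 ^ (2 * (σ - e) * (S.F k).n) ≤
      2 ^ (e * (S.F k).n) * sga s D k ((Y k).l.p.π w.2) ((Y k).g w.1) := by linarith
  exact le_of_mul_le_mul_left h10 h5

end far

/-- conditional entropy over a label as a limit -/
theorem h_up1_cl (l : Lab S) (A B : S.Inf) :
    h (up1 l (cl A)) (up1 l (cl B)) = ul (fun k => h ((l k).p.map (rpI A k)) ((l k).p.map (rpI B k) ⊔ (l k).v) /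
      (S.F k).n) := by
  have h1 : up1 l (cl A) = cl (l.upI 1 one_pos A) := l.upL_cl 1 one_pos A
  have h2 : up1 l (cl B) = cl (l.upI 1 one_pos B) := l.upL_cl 1 one_pos B
  rw [h1, h2, h_cl]
  congr 1
  funext k
  rw [← h_rpI]
  have h3 : rpI (l.upI 1 one_pos A) = l.up 1 one_pos (rpI A) := l.rpI_upI 1 one_pos A
  have h4 : rpI (l.upI 1 one_pos B) = l.up 1 one_pos (rpI B) := l.rpI_upI 1 one_pos B
  rw [h3, h4]
  have h5 : h ((l.up 1 one_pos (rpI A)) k) ((l.up 1 one_pos (rpI B)) k) =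
      h ((l k).p.map (rpI A k)) ((l k).p.map (rpI B k) ⊔ (l k).v) := (l k).h_up 1 one_pos (rpI A k) (rpI B k)
  rw [h5]
  have h6 : ((l.ovr 1 one_pos).F k).n = (S.F k).n := by
    have e1 : ((l.ovr 1 one_pos).F k).n = 1 * (l k).T.n := rfl
    rw [e1, one_mul, (l k).hn]
  rw [h6]

/-- cells of the window are known to the maximal label -/
theorem cells_nul {s : Sys S m} {c : ℝ} (hc : 0 ≤ c) (h1 : c ≤ 1) {l : Lab S} (hl : IsKap s c l) :
    Nul S (fun k => h ((l k).p.map (fc (s.cells c 0 hc k))) (l k).v) := by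
  have f1 := Lab.IsMax.fun_small hl (cA_Bd s c) (fun k => Setoid.comap (l k).p.π (s.cells c 0 hc k))
    (by
      have h2 : PLe (rpI (s.cellsI c 0 hc)) (cA s c) := by
        rw [cA_eq, PLe_rpI, cl_A]
        exact cells_le_A s hc h1
      exact nul_map h2 l)
    (by
      have h2 : PLe (rpI (s.cellsI c 0 hc)) (cB s) := by
        rw [cB_eq, PLe_rpI, cl_B]
        exact cells_le_B s hc h1
      exact nul_map h2 l)
  exact f1.1

/-- bounded rates over a label -/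
theorem ub_map (l : Lab S) (A : S.Inf) (B : ∀ k, FL (l k).T) :
    UB (fun k => h ((l k).p.map (rpI A k)) (B k) / (S.F k).n) := by
  refine UB.sandwich (UB_const 0) ((rpI_Bd A).ub (fun _ => ⊥)) ?_ ?_
  · exact Eventually.of_forall fun k => div_nonneg (h_nonneg _ _) (S.F k).pos.le
  · refine Eventually.of_forall fun k => div_le_div_of_nonneg_right ?_ (S.F k).pos.le
    rw [h_bot, ← (l k).p.H_map]
    exact h_le_H _ _

/-- the entropy of the far point -/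
theorem far_lim {D : ℕ} {s : Sys S m} {c : ℝ} (hc : 0 ≤ c) (Y : ∀ k, FD (S.F k) (Mon (m + 1) D))
    (L : ∀ k, Setoid (Y k).l.T.Ω) (hL : ∀ k, (Y k).l.V ≤ L k)
    (hent : 1 - c ≤ ul (fun k => h ((Y k).l.p.map (qT s k)) (fc (L k) ⊔ (Y k).l.p.map (cA s c k)) / (S.F k).n))
    (hcell : Nul S (fun k => h ((Y k).l.p.map (fc (s.cells c 0 hc k))) (fc (L k)))) {e : ℝ}
    (hcnt : H (up1 (lb (farFD s Y L c hc)) (s.P.dg 1 ⊔ s.t.dg 1)) ≤ m * (1 - c) + e) (η : ℝ) (hη : 0 < η) :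
    ∀ᶠ k in UF, farH (Y k).l (L k) (cAs s c k) (qP s k) (qT s k) ≤ ((m - 1) * (1 - c) + e + η) * (S.F k).n := by
  have e1 : s.P.dg 1 ⊔ s.t.dg 1 = cl (Inf.sup (s.IP 1) (s.It 1)) := by
    rw [cl_sup, s.cl_IP, s.cl_It]
  rw [e1, H_up1_cl] at hcnt
  have u1 := ub_map (lb (farFD s Y L c hc)) (Inf.sup (s.IP 1) (s.It 1)) (fun k => (lb (farFD s Y L c hc) k).v)
  have u2 := ub_map (lb Y) (s.It 1) (fun k => fc (L k) ⊔ (Y k).l.p.map (cA s c k))
  have u2' : UB (fun k => h ((Y k).l.p.map (qT s k)) (fc (L k) ⊔ (Y k).l.p.map (cA s c k)) / (S.F k).n) := u2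
  filter_upwards [eventually_lt_of_ul_lt u1 (show _ < m * (1 - c) + e + η / 4 by linarith),
    eventually_gt_of_lt_ul u2' (show 1 - c - η / 4 < _ by linarith),
    hcell.eventually (gt_mem_nhds (show 0 < η / 4 by linarith))] with k k1 k2 k4
  have hn := (S.F k).pos
  rw [div_lt_iff₀ hn] at k1 k4
  rw [lt_div_iff₀ hn] at k2
  have k5 := far_h2 (Y k).l (L k) (cAs s c k) (hL k) (qP s k) (qT s k) (fc (s.cells c 0 hc k))
  have k7 : h ((lb (farFD s Y L c hc) k).p.map (rpI (Inf.sup (s.IP 1) (s.It 1)) k)) (lb (farFD s Y L c hc) k).v =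
      h ((pam (Y k).l (L k) (cAs s c k)).p2.map ((Y k).l.p.map (qP s k ⊔ qT s k)))
        ((pam (Y k).l (L k) (cAs s c k)).p1.map ((Y k).l.v ⊔ (Y k).l.p.map (fc (s.cells c 0 hc k)))) := by
    have q1 : (lb (farFD s Y L c hc) k).p.map (rpI (Inf.sup (s.IP 1) (s.It 1)) k) =
        (pam (Y k).l (L k) (cAs s c k)).p2.map ((Y k).l.p.map (qP s k ⊔ qT s k)) := FPj.comp_map _ _ _
    rw [q1]
    rfl
  rw [k7] at k1
  have k8 : cA s c k = fc (cAs s c k) := rfl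
  rw [k8] at k2
  nlinarith

end

end Pool.Agent.Helper89.LX
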