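import Pool.Agent.Helper89.LX.Njh

/-! LEMMA NJ (LEAF sect. 4) for polynomial forms, complete: a system with full hypersurface containers at the window
`c₀` has almost the same containers at all windows `c' < c₀` near `c₀`. -/

set_option autoImplicit false

namespace Pool.Agent.Helper89.LX

open Finset Filter Topology Matrix Pool.Agent.Helper69.RK Pool.Agent.Helper31.EC Pool.Agent.Helper40.EL
open Pool.Agent.Helper31.EC.Sp
open Pool.Agent.Helper95.LF Pool.Agent.Helper3.LF Pool.Agent.Helper42.NS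

noncomputable section

variable {S : Sp} {m : ℕ}

section

variable {F : FSp} {ι : Type} (x : FD F ι) (l' : FLab F)

theorem jn_pmap (y : FL F) : (x.jn l').l.p.map y = (x.l.am l').p2.map (l'.p.map y) := by
  have a : (x.jn l').l.p.map y = (x.l.am l').p1.map (x.l.p.map y) := FPj.comp_map _ _ y
  rw [a, x.l.am_map l']

theorem jn_fcK : (fc (jK x l') : FL (x.jn l').l.T) = (x.l.am l').p2.map l'.v := rfl

theorem jn_h (y z : FL F) : h ((x.jn l').l.p.map y) (fc (jK x l') ⊔ (x.jn l').l.p.map z) =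
    h (l'.p.map y) (l'.v ⊔ l'.p.map z) := by
  rw [jn_pmap, jn_pmap, jn_fcK]
  have h1 := (x.l.am l').p2.map_sup l'.v (l'.p.map z)
  have h2 := (x.l.am l').p2.h_map (l'.p.map y) (l'.v ⊔ l'.p.map z)
  rw [h1] at h2
  exact h2

theorem jn_h' (y : FL F) : h ((x.jn l').l.p.map y) (fc (jK x l')) = h (l'.p.map y) l'.v := by
  rw [jn_pmap, jn_fcK]
  exact (x.l.am l').p2.h_map (l'.p.map y) l'.v

end

section

variable {ι : Type} {s : Sys S m} {c : ℝ} (x : ∀ k, FD (S.F k) ι) {l' : Lab S}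

theorem jn_ent (h0 : 0 ≤ c) (h1 : c ≤ 1) (hl : IsKap s c l') :
    1 - c ≤ ul (fun k => h (((x k).jn (l' k)).l.p.map (qT s k))
      (fc (jK (x k) (l' k)) ⊔ ((x k).jn (l' k)).l.p.map (cA s c k)) / (S.F k).n) := by
  have h2 := ent_of_dm h0 h1 hl.dm
  refine h2.trans (le_of_eq ?_)
  congr 1
  funext k
  rw [jn_h (x k) (l' k)]

theorem jn_cell (h0 : 0 ≤ c) (h1 : c ≤ 1) (hl : IsKap s c l') :
    Nul S (fun k => h (((x k).jn (l' k)).l.p.map (fc (s.cells c 0 h0 k))) (fc (jK (x k) (l' k)))) := by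
  have h2 := cells_nul h0 h1 hl
  have h3 : (fun k => h (((x k).jn (l' k)).l.p.map (fc (s.cells c 0 h0 k))) (fc (jK (x k) (l' k)))) =
      fun k => h ((l' k).p.map (fc (s.cells c 0 h0 k))) (l' k).v := by
    funext k
    exact jn_h' (x k) (l' k) _
  rw [h3]
  exact h2

end

theorem jn_max {s : Sys S m} {D : ℕ} {c₀ : ℝ} {x₀ : ∀ k, FD (S.F k) (Mon (m + 1) D)}
    (hx : (gau s D).Opt (cA s c₀) (cB s) x₀) (hmax : IsKap s c₀ (lb x₀)) {l' : Lab S} (hDM : l'.DM (cA s c₀) (cB s)) :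
    IsKap s c₀ (lb (fun k => (x₀ k).jn (l' k))) := by
  have hX : (gau s D).Opt (cA s c₀) (cB s) (fun k => (x₀ k).jn (l' k)) := Gau.Opt.jn (gau s D) hx hDM
  refine ⟨Gau.Ad.dm (gau s D) hX.1, fun l'' h'' => ?_⟩
  refine (hmax.2 l'' h'').trans ?_
  apply ul_mono (hmax.1.ub (cA_Bd s c₀)) ((Gau.Ad.dm (gau s D) hX.1).ub (cA_Bd s c₀))
  refine Eventually.of_forall fun k => div_le_div_of_nonneg_right ?_ (S.F k).pos.le
  exact (x₀ k).l.join_info_ge_left (l' k)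

/-- the entropy of the near point -/
theorem near_lim {s : Sys S m} {D : ℕ} {c₀ : ℝ} (hc0 : 0 ≤ c₀) (hc1 : c₀ ≤ 1) {x₀ : ∀ k, FD (S.F k) (Mon (m + 1) D)}
    (hx : (gau s D).Opt (cA s c₀) (cB s) x₀) (hmax : IsKap s c₀ (lb x₀)) {l' : Lab S} (hDM : l'.DM (cA s c₀) (cB s))
    (η : ℝ) (hη : 0 < η) : ∀ᶠ k in UF,
    (h (up1 (lb x₀) (s.P.dg 1)) (up1 (lb x₀) s.T) - η) * (S.F k).n ≤ nearE s x₀ l' k := by
  have hkX := jn_max hx hmax hDM
  have g1 := hmax.ic_P hc0 hc1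
  have g2 := hkX.ic_P hc0 hc1
  have g3 : h (up1 (lb x₀) (s.P.dg 1)) (up1 (lb x₀) s.T) =
      h (up1 (lb (fun k => (x₀ k).jn (l' k))) (s.P.dg 1)) (up1 (lb (fun k => (x₀ k).jn (l' k))) s.T) := by linarith
  have g4 : s.P.dg 1 = cl (s.IP 1) := (s.cl_IP 1).symm
  have g5 : s.T = cl (s.It 1) := (s.cl_It 1).symm
  have g6 := h_up1_cl (lb (fun k => (x₀ k).jn (l' k))) (s.IP 1) (s.It 1)
  rw [← g4, ← g5, ← g3] at g6
  have u3 := ub_map (lb (fun k => (x₀ k).jn (l' k))) (s.IP 1)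
    (fun k => (lb (fun k => (x₀ k).jn (l' k)) k).p.map (rpI (s.It 1) k) ⊔ (lb (fun k => (x₀ k).jn (l' k)) k).v)
  filter_upwards [eventually_gt_of_lt_ul u3 (show h (up1 (lb x₀) (s.P.dg 1)) (up1 (lb x₀) s.T) - η < _ by
    rw [← g6]; linarith)] with k k1
  have hn := (S.F k).pos
  rw [lt_div_iff₀ hn] at k1
  refine k1.le.trans (le_of_eq ?_)
  unfold nearE
  rw [sup_comm]
  rfl

/-- COUNT AT THE FAR POINT: full containers at the window `c₀` -/
theorem farCount {D : ℕ} {s : Sys S m} {c₀ : ℝ} (hc0 : 0 ≤ c₀) (hc1 : c₀ < 1) {x₀ : ∀ k, FD (S.F k) (Mon (m + 1) D)}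
    (hx : (gau s D).Opt (cA s c₀) (cB s) x₀) (hmax : IsKap s c₀ (lb x₀)) (hσ : Hf s D c₀ 1)
    (hfull : (m - 1) * (1 - c₀) ≤ h (up1 (lb x₀) (s.P.dg 1)) (up1 (lb x₀) s.T)) : FarCount s c₀ x₀ := by
  intro η hη
  have hm0 : (0 : ℝ) ≤ m := Nat.cast_nonneg m
  obtain ⟨e, he⟩ : ∃ e : ℝ, e = η / (8 * (m + 1)) := ⟨_, rfl⟩
  have he0 : 0 < e := by rw [he]; positivity
  have hme : 2 * ((m : ℝ) + 1) * e = η / 4 := by
    rw [he]
    field_simp
    ring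
  refine ⟨min (e / ((2 * D : ℕ) + 1)) (η / 4 / (m + 1)), lt_min (by positivity) (by positivity),
    fun c' a1 a2 a3 l' hl' => ?_⟩
  have b1 : c₀ - c' < e / ((2 * D : ℕ) + 1) := by
    have := min_le_left (e / ((2 * D : ℕ) + 1)) (η / 4 / (m + 1))
    linarith
  have b2 : c₀ - c' < η / 4 / (m + 1) := by
    have := min_le_right (e / ((2 * D : ℕ) + 1)) (η / 4 / (m + 1))
    linarith
  have b3 : (2 * D : ℕ) * (c₀ - c') ≤ 2 * e / 2 := by
    rw [lt_div_iff₀ (by positivity)] at b1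
    nlinarith
  have b4 : (m : ℝ) * (c₀ - c') ≤ η / 4 := by
    rw [lt_div_iff₀ (by positivity)] at b2
    nlinarith
  have hDM : l'.DM (cA s c₀) (cB s) := DMc.mono a2.le hl'.dm
  have hX : (gau s D).Opt (cA s c₀) (cB s) (fun k => (x₀ k).jn (l' k)) := Gau.Opt.jn (gau s D) hx hDM
  have hpd : ∀ᶠ k in UF, ∀ ω, ((x₀ k).jn (l' k)).l.T.μ ω ≠ 0 → PdM (((x₀ k).jn (l' k)).g ω) := by
    filter_upwards [hX.1 1 one_pos] with k hk ω hω
    exact (hk.2.2.1 ω hω).1.pdM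
  have hent := jn_ent x₀ a3 (a2.le.trans hc1.le) hl'
  have hcell := jn_cell x₀ a3 (a2.le.trans hc1.le) hl'
  have t1 := far_phi_t s c' a3 hc0 hc1 hX.1 (fun k => jK (x₀ k) (l' k)) a2.le (2 * e) (by linarith) b3
  have t2 := far_gam_t s c' a3 (fun k => (x₀ k).jn (l' k)) (fun k => jK (x₀ k) (l' k)) (a2.trans hc1) hpd hent he0
    (hσ.opt hX (e / 2) (by linarith))
  have t3 := far_cnt s c' a3 (fun k => (x₀ k).jn (l' k)) (fun k => jK (x₀ k) (l' k)) (a2.trans hc1).le he0.le hpd t1 t2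
  rw [hme] at t3
  have t4 := far_lim a3 (fun k => (x₀ k).jn (l' k)) (fun k => jK (x₀ k) (l' k)) (fun k => jK_le (x₀ k) (l' k)) hent
    hcell t3 (η / 8) (by linarith)
  filter_upwards [t4, near_lim hc0 hc1.le hx hmax hDM (η / 8) (by linarith)] with k k1 k2
  have hn := (S.F k).pos
  have k6 : farE s x₀ l' c' k = farH ((x₀ k).jn (l' k)).l (jK (x₀ k) (l' k)) (cAs s c' k) (qP s k) (qT s k) := rfl
  rw [k6]
  have k3 : ((m - 1) * (1 - c₀) - η / 8) * (S.F k).n ≤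
      (h (up1 (lb x₀) (s.P.dg 1)) (up1 (lb x₀) s.T) - η / 8) * (S.F k).n :=
    mul_le_mul_of_nonneg_right (by linarith) hn.le
  have k4 : ((m - 1) * (1 - c') + η / 4 + η / 8) * (S.F k).n ≤ ((m - 1) * (1 - c₀) - η / 8 + η) * (S.F k).n := by
    apply mul_le_mul_of_nonneg_right _ hn.le
    have : (m : ℝ) * (c₀ - c') = m * (1 - c') - m * (1 - c₀) := by ring
    nlinarith
  have k5 : ((m - 1) * (1 - c₀) - η / 8 + η) * (S.F k).n = ((m - 1) * (1 - c₀) - η / 8) * (S.F k).n +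
      η * (S.F k).n := by ring
  linarith

/-- LEMMA NJ (LEAF 4): in a robust system the containers of full dimension of the window `c₀` have no jump -/
theorem no_jump {D : ℕ} {s : Sys S m} {c₀ : ℝ} (hc0 : 0 ≤ c₀) (hc1 : c₀ < 1) (hR : RobH s) (hσ : Hf s D c₀ 1)
    {κ : Lab S} (hκ : IsKap s c₀ κ) (hfull : (m - 1) * (1 - c₀) ≤ h (up1 κ (s.P.dg 1)) (up1 κ s.T)) (ε : ℝ)
    (hε : 0 < ε) : ∃ δ : ℝ, 0 < δ ∧ ∀ c', c₀ - δ < c' → c' < c₀ → 0 ≤ c' → Hf s D c' (1 - ε) := by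
  obtain ⟨x₀, hx, hmax⟩ := exists_can s D c₀
  have hmax' : IsKap s c₀ (lb x₀) := hmax
  have g1 := hκ.ic_P hc0 hc1.le
  have g2 := hmax'.ic_P hc0 hc1.le
  exact NJ_rob s hc0 hc1 hR hx hσ (farCount hc0 hc1 hx hmax' hσ (by linarith)) ε hε

end

end Pool.Agent.Helper89.LX
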