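import Pool.Agent.Helper89.LX.Njc
import Pool.Agent.Helper3.LF.Win

/-! NJ (LEAF sect. 4) for systems of lines. The label `kappa_(c')` of a window `c' < c₀`, the joined label `X` of the
window `c₀`, two copies of its space given `(A(c'), kappa_(c'))`: leaks at the second point (4(a), without any
fullness), the abstract NJ lemma with the two geometric inputs (size of the form at the far point, count at the far
point) as hypotheses, and the NJ lemma for polynomial forms with the count as hypothesis. -/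

namespace Pool.Agent.Helper89.LX

open Finset Filter Topology Matrix Pool.Agent.Helper69.RK Pool.Agent.Helper31.EC Pool.Agent.Helper40.EL
open Pool.Agent.Helper95.LF (PdM NearM round_mat values_card)
open Pool.Agent.Helper3.LF

noncomputable section

variable {S : Sp} {m : ℕ} (s : Sys S m)

/-- the partition of the condition of the window -/
def cAs (c : ℝ) (k : ℕ) : Setoid (S.F k).Ω := (s.fin k).ka 1 ⊓ (s.fin k).kx 1 ⊓ (s.fin k).kt c

theorem cAs_eq (c : ℝ) (k : ℕ) : cA s c k = fc (cAs s c k) := rfl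

/-- the height -/
def qT (k : ℕ) : FL (S.F k) := fc ((s.fin k).kt 1)

/-- the point -/
def qP (k : ℕ) : FL (S.F k) := fc ((s.fin k).kP 1)

theorem cB_sup (k : ℕ) : cB s k = qP s k ⊔ qT s k := rfl

theorem qT_eq : qT s = rpI (s.It 1) := rfl

theorem qP_eq : qP s = rpI (s.IP 1) := rfl

theorem cA_mono {c c' : ℝ} (h : c ≤ c') : PLe (cA s c) (cA s c') := by
  rw [cA_eq, cA_eq, PLe_rpI, cl_A, cl_A]
  exact sup_le_sup_left (s.t.dg_mono h) _

/-- the point is a function of the line and the height -/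
theorem qP_fun (c : ℝ) : Nul S (fun k => h (qP s k) (cA s c k ⊔ qT s k)) := by
  have h1 : PLe (rpI (s.IP 1)) (rpI (Sp.Inf.sup (Sp.Inf.sup (Sp.Inf.sup (s.Ia 1) (s.Ix 1)) (s.It c)) (s.It 1))) := by
    rw [PLe_rpI, Sp.cl_sup, cl_A, s.cl_IP, s.cl_It]
    refine (s.P_le le_rfl).trans ?_
    exact sup_le_sup_right le_sup_left _
  exact h1

/-- over the maximal label of the window the height is independent of the line -/
theorem nj_T {c : ℝ} {l : Lab S} (hl : IsKap s c l) (h0 : 0 ≤ c) (h1 : c ≤ 1) :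
    Nul S (fun k => I ((l k).p.map (qT s k)) ((l k).p.map (cA s c k)) (l k).v) := by
  -- the coarse height
  set tc : Part S := rpI (s.It c) with htc
  have e1 : ∀ k, tc k = fc ((s.fin k).kt c) := fun _ => rfl
  have f1 := Lab.IsMax.fun_small hl (cA_Bd s c) (fun k => Setoid.comap (l k).p.π ((s.fin k).kt c))
    (by
      refine (Nul_zero S).of_le (Eventually.of_forall fun k => h_nonneg _ _) (Eventually.of_forall fun k => ?_)
      apply le_of_eq
      apply h_zero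
      refine le_trans ?_ le_sup_right
      exact (l k).p.map_mono (fc_mono inf_le_right))
    (by
      have h2 : PLe tc (cB s) := by
        rw [htc, cB_eq, PLe_rpI, cl_B, s.cl_It]
        exact t_le_B s h1
      refine Nul.of_le h2 (Eventually.of_forall fun k => h_nonneg _ _) (Eventually.of_forall fun k => ?_)
      have h3 := (l k).p.h_map (tc k) (cB s k)
      rw [← h3]
      exact h_anti le_sup_right)
  have f2 : Nul S (fun k => h ((l k).p.map (tc k)) (l k).v) := f1.1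
  -- entropies of the height
  have u1 : UB (fun k => h (qT s k) (tc k) / (S.F k).n) := (rpI_Bd (s.It 1)).ub _
  have u2 : UB (fun k => h (qT s k) (cA s c k) / (S.F k).n) := (rpI_Bd (s.It 1)).ub _
  have v1 : ul (fun k => h (qT s k) (tc k) / (S.F k).n) ≤ 1 - c := by
    have h3 : hr (rpI (s.It 1)) (rpI (s.It c)) ≤ 1 - c := by
      rw [hr_rpI, s.cl_It, s.cl_It]
      have h4 := s.t.h_dg_dg h1
      simp only [Nat.cast_one, one_mul] at h4
      exact h4
    exact h3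
  have v2 : ul (fun k => h (qT s k) (cA s c k) / (S.F k).n) = 1 - c := by
    have h3 : hr (rpI (s.It 1)) (cA s c) = 1 - c := by
      rw [cA_eq, hr_rpI, cl_A, s.cl_It]
      exact h_T_A s h0 h1
    exact h3
  have t1 := ((ul_tendsto u1).sub (ul_tendsto u2)).add (f2.add hl.1.1)
  rw [add_zero] at t1
  have hle : ∀ k, I ((l k).p.map (qT s k)) ((l k).p.map (cA s c k)) (l k).v / (S.F k).n ≤
      h (qT s k) (tc k) / (S.F k).n - h (qT s k) (cA s c k) / (S.F k).n +
      (h ((l k).p.map (tc k)) (l k).v + (l k).leak (cA s c k)) / (S.F k).n := by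
    intro k
    rw [← sub_div, ← add_div]
    apply div_le_div_of_nonneg_right _ (S.F k).pos.le
    have g1 := I_eq ((l k).p.map (qT s k)) ((l k).p.map (cA s c k)) (l k).v
    have g2 := h_triangle ((l k).p.map (qT s k)) ((l k).p.map (tc k)) (l k).v
    have g3 : h ((l k).p.map (qT s k)) ((l k).p.map (tc k) ⊔ (l k).v) ≤ h (qT s k) (tc k) := by
      rw [← (l k).p.h_map (qT s k) (tc k)]
      exact h_anti le_sup_left
    have g4 := I_eq' (l k).v ((l k).p.map (qT s k)) ((l k).p.map (cA s c k))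
    have g5 : I (l k).v ((l k).p.map (qT s k)) ((l k).p.map (cA s c k)) ≤ (l k).leak (cA s c k) :=
      I_mono_right (((l k).p.map_le_top _).trans le_sup_left)
    rw [(l k).p.h_map, sup_comm (l k).v] at g4
    linarith
  have h0' : ∀ k, 0 ≤ I ((l k).p.map (qT s k)) ((l k).p.map (cA s c k)) (l k).v / (S.F k).n := fun k =>
    div_nonneg (I_nonneg _ _ _) (S.F k).pos.le
  have hL : 0 ≤ ul (fun k => h (qT s k) (tc k) / (S.F k).n) - ul (fun k => h (qT s k) (cA s c k) / (S.F k).n) :=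
    ge_of_tendsto t1 (Eventually.of_forall fun k => (h0' k).trans (hle k))
  have hE : ul (fun k => h (qT s k) (tc k) / (S.F k).n) - ul (fun k => h (qT s k) (cA s c k) / (S.F k).n) = 0 := by
    linarith
  rw [hE] at t1
  exact tendsto_of_tendsto_of_tendsto_of_le_of_le tendsto_const_nhds t1 h0' hle

section
variable {ι : Type}

/-- conditional entropy of the far point given the label of the first point -/
def farE (x : ∀ k, FD (S.F k) ι) (l' : Lab S) (c : ℝ) (k : ℕ) : ℝ :=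
  farH ((x k).jn (l' k)).l (jK (x k) (l' k)) (cAs s c k) (qP s k) (qT s k)

/-- conditional entropy of the near point -/
def nearE (x : ∀ k, FD (S.F k) ι) (l' : Lab S) (k : ℕ) : ℝ :=
  h (((x k).jn (l' k)).l.p.map (qP s k)) (((x k).jn (l' k)).l.v ⊔ ((x k).jn (l' k)).l.p.map (qT s k))

/-- 4(a) THE LEAK OF THE PAIR AT THE FAR POINT, up to `o(n)` -/
theorem nj_leak {c' : ℝ} {x : ∀ k, FD (S.F k) ι} (hx : Nul S (fun k => (x k).l.leak (cB s k))) {l' : Lab S}
    (hl' : IsKap s c' l') (h0 : 0 ≤ c') (h1 : c' ≤ 1) (η : ℝ) (hη : 0 < η) : ∀ᶠ k in UF,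
    (((x k).jn (l' k)).pr (jK (x k) (l' k)) (cAs s c' k)).l.leak (cB s k) ≤
      (farE s x l' c' k - nearE s x l' k) + η * (S.F k).n := by
  have t1 := nj_T s hl' h0 h1
  have t2 := qP_fun s c'
  have t3 : Nul S (fun k => 2 * ((x k).l.leak (cB s k) + (l' k).leak (cB s k))) := (hx.add hl'.1.2).const_mul 2
  have t4 := (t3.add t1).add t2
  filter_upwards [t4.eventually (gt_mem_nhds hη)] with k hk
  have hn := (S.F k).pos
  rw [div_lt_iff₀ hn] at hk
  have h2 := ((x k).jn (l' k)).pr_leakB (jK (x k) (l' k)) (cAs s c' k) (jK_le (x k) (l' k)) (qP s k) (qT s k)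
  rw [← cB_sup] at h2
  have h3 := (x k).jn_leak (l' k) (cB s k)
  have h4 : I (((x k).jn (l' k)).l.p.map (qT s k)) (((x k).jn (l' k)).l.p.map (fc (cAs s c' k)))
      (fc (jK (x k) (l' k))) = I ((l' k).p.map (qT s k)) ((l' k).p.map (cA s c' k)) (l' k).v := by
    have e1 : ∀ y : FL (S.F k), ((x k).jn (l' k)).l.p.map y = ((x k).l.am (l' k)).p2.map ((l' k).p.map y) := by
      intro y
      have a : ((x k).jn (l' k)).l.p.map y = ((x k).l.am (l' k)).p1.map ((x k).l.p.map y) := FPj.comp_map _ _ y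
      rw [a, (x k).l.am_map (l' k)]
    have e2 : (fc (jK (x k) (l' k)) : FL ((x k).jn (l' k)).l.T) = ((x k).l.am (l' k)).p2.map (l' k).v := rfl
    rw [e1, e1, e2]
    exact ((x k).l.am (l' k)).p2.I_map _ _ _
  rw [h4] at h2
  unfold farE nearE
  have h5 : fc (cAs s c' k) = cA s c' k := rfl
  rw [h5] at h2
  linarith

end

/-- the two geometric inputs of NJ at the window `c'`: the form of the first point is small at the far point, and the
far point has not more entropy than the near point, up to `η n` -/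
def FarOK {ι : Type} [Fintype ι] [DecidableEq ι] (Φ : Gau S ι) (x : ∀ k, FD (S.F k) ι) (l' : Lab S) (c' η : ℝ) :
    Prop := ∀ᶠ k in UF,
  (pam ((x k).jn (l' k)).l (jK (x k) (l' k)) (cAs s c' k)).sp.pb
    (fun w => ¬ Φ.φ k (((x k).jn (l' k)).l.p.π w.2) (((x k).jn (l' k)).g w.1) ≤ 2 ^ (η * (S.F k).n)) ≤ η ∧
  farE s x l' c' k ≤ nearE s x l' k + η * (S.F k).n

/-- LEMMA NJ, abstract gauge: the exact form of the window `c₀` is known on the larger window `c'`, up to `ε`, on an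
event of positive probability -/
theorem nj_gen {ι : Type} [Fintype ι] [DecidableEq ι] (Φ : Gau S ι)
    (hφ : ∀ k ω M N (c : ℝ), 0 ≤ c → (∀ v, qf M v ≤ c * qf N v) → Φ.φ k ω M ≤ c * Φ.φ k ω N)
    (G : ∀ k, (S.F k).Ω → Matrix ι ι ℝ → ℝ)
    (hG : ∀ k ω M N (c : ℝ), 0 ≤ c → (∀ v, qf M v ≤ c * qf N v) → G k ω M ≤ c * G k ω N)
    {c₀ : ℝ} (hc1 : c₀ ≤ 1) {x₀ : ∀ k, FD (S.F k) ι} (h₀ : Φ.Opt (cA s c₀) (cB s) x₀) (σ : ℝ)
    (hσ : ∀ e : ℝ, 0 < e → Tendsto (fun k => (x₀ k).l.T.pb (fun ω =>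
      ¬ 2 ^ ((σ - e) * (S.F k).n) ≤ G k ((x₀ k).l.p.π ω) ((x₀ k).g ω))) UF (𝓝 0))
    (hfar : ∀ η : ℝ, 0 < η → ∃ δ : ℝ, 0 < δ ∧ ∀ c', c₀ - δ < c' → c' < c₀ → 0 ≤ c' → ∀ l' : Lab S, IsKap s c' l' →
      FarOK s Φ x₀ l' c' η) (ε : ℝ) (hε : 0 < ε) :
    ∃ δ : ℝ, 0 < δ ∧ ∀ c', c₀ - δ < c' → c' < c₀ → 0 ≤ c' →
      ∃ (l : Lab S) (E : ∀ k, (l.sp.F k).Ω → Prop), 0 < ul (l.sp.pr E) ∧
      ∃ y : ∀ k, FD ((Sp.im l.pj E).F k) ι, (Φ.im l.pj E).Ad ((cA s c').im l.pj E) ((cB s).im l.pj E) y ∧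
      ∀ e' : ℝ, 0 < e' → Tendsto (fun k => (y k).l.T.pb (fun ω =>
        ¬ 2 ^ ((σ - ε - e') * (S.F k).n) ≤ G k ((y k).l.p.π ω) ((y k).g ω))) UF (𝓝 0) := by
  obtain ⟨Cc, hCc, hlab⟩ := nj_label ι
  set e : ℝ := min (1 / 4) (ε / (Cc + 1)) with he
  have he0 : 0 < e := lt_min (by norm_num) (by positivity)
  have he1 : e ≤ 1 / 4 := min_le_left _ _
  have he2 : Cc * e ≤ ε := by
    have h1 : e ≤ ε / (Cc + 1) := min_le_right _ _
    rw [le_div_iff₀ (by linarith)] at h1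
    nlinarith
  obtain ⟨η, hη, hnear⟩ := Φ.nj_near h₀ e he0
  obtain ⟨δ, hδ, hf⟩ := hfar (η / 2) (by linarith)
  refine ⟨δ, hδ, fun c' hc1' hc2' hc0' => ?_⟩
  have hK := kap_isKap s c'
  set l' : Lab S := kap s c' with hl'
  have hDM : l'.DM (cA s c₀) (cB s) := DMc.mono hc2'.le hK.dm
  have hX : Φ.Opt (cA s c₀) (cB s) (fun k => (x₀ k).jn (l' k)) := Gau.Opt.jn Φ h₀ hDM
  have hη2 : 0 < η / 2 := by linarith
  have hsc : ∀ᶠ k in UF, ul (fun k => (x₀ k).sc / (S.F k).n) - η ≤ (x₀ k).sc / (S.F k).n := by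
    filter_upwards [eventually_gt_of_lt_ul (Φ.sc_UB h₀.1) (show ul (fun k => (x₀ k).sc / (S.F k).n) - η <
      ul (fun k => (x₀ k).sc / (S.F k).n) by linarith)] with k hk using hk.le
  have hle : PLe (cA s c') (cA s c₀) := cA_mono s hc2'.le
  -- the pair over the literal partition; the leak at `cA s c₀` up to `o(n)`
  have hpair : ∀ᶠ k in UF, Φ.Adm (cA s c₀) (cB s) η k
      (((x₀ k).jn (l' k)).pr (jK (x₀ k) (l' k)) (cAs s c' k)) := by
    have t1 := (Gau.Ad.dm Φ hX.1).1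
    have t2 := t1.add hle
    filter_upwards [hX.1 η hη, hf c' hc1' hc2' hc0' l' hK,
      nj_leak s (Gau.Ad.dm Φ h₀.1).2 hK hc0' (hc2'.le.trans hc1) (η / 2) hη2,
      t2.eventually (gt_mem_nhds hη)] with k a b d f
    have hn := (S.F k).pos
    rw [div_lt_iff₀ hn] at f
    have hfar' : (pam ((x₀ k).jn (l' k)).l (jK (x₀ k) (l' k)) (cAs s c' k)).sp.pb
        (fun w => ¬ Φ.φ k (((x₀ k).jn (l' k)).l.p.π w.2) (((x₀ k).jn (l' k)).g w.1) ≤ 2 ^ (η * (S.F k).n)) ≤ η := by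
      have h3 := b.1
      have h4 : (2 : ℝ) ^ (η / 2 * (S.F k).n) ≤ 2 ^ (η * (S.F k).n) := by
        apply Real.rpow_le_rpow_of_exponent_le (by norm_num)
        nlinarith
      refine le_trans (FSp.pb_mono _ ?_) (h3.trans (by linarith))
      intro w _ h5 h6
      exact h5 (h6.trans h4)
    have hA := ((x₀ k).jn (l' k)).pr_leakA (jK (x₀ k) (l' k)) (cAs s c' k) (jK_le (x₀ k) (l' k))
      (cA s c₀ k ⊔ cA s c' k) (by rw [← cAs_eq]; exact le_sup_right)
    have hA2 := (((x₀ k).jn (l' k)).pr (jK (x₀ k) (l' k)) (cAs s c' k)).l.leak_le_leak (cA s c₀ k)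
      (cA s c₀ k ⊔ cA s c' k)
    have hA3 : h (cA s c₀ k ⊔ cA s c' k) (cA s c₀ k) = h (cA s c' k) (cA s c₀ k) := by
      rw [sup_comm, h_sup_right_of_le le_rfl]
    have hA4 := ((x₀ k).jn (l' k)).l.leak_anti (show cA s c₀ k ≤ cA s c₀ k ⊔ cA s c' k from le_sup_left)
    refine ⟨?_, ?_, fun w hw => ⟨?_, ?_⟩, ?_, hfar'⟩
    · rw [hA3] at hA2
      linarith
    · have h3 := b.2
      linarith
    · exact (a.2.2.1 _ ((pam _ (jK (x₀ k) (l' k)) (cAs s c' k)).p2.supp w hw)).1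
    · exact (a.2.2.1 _ ((pam _ (jK (x₀ k) (l' k)) (cAs s c' k)).p1.supp w hw)).1
    · exact (pb_push (pam _ (jK (x₀ k) (l' k)) (cAs s c' k)).p2 (fun ω => ¬ Φ.φ k (((x₀ k).jn (l' k)).l.p.π ω)
        (((x₀ k).jn (l' k)).g ω) ≤ 2 ^ (η * (S.F k).n))).le.trans a.2.2.2.1
  have hag := hnear (fun k => (x₀ k).jn (l' k)) (fun k => jK (x₀ k) (l' k)) (fun k => cAs s c' k) (by
    filter_upwards [hpair, hsc] with k a b
    refine ⟨a, ?_⟩
    rw [(x₀ k).jn_sc (l' k)]
    exact b)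
  obtain ⟨l, E, hE, y, hy, hy'⟩ := hlab Φ hφ G hG (cA_Bd s c') (fun p E => cA_im_Bd s c' p E) (cAs s c') (cAs_eq s c')
    h₀ hK hDM σ hσ e he0 (by
      filter_upwards [hag] with k hk
      refine le_trans ?_ hk
      linarith)
  refine ⟨l, E, hE, y, hy, fun e' he' => ?_⟩
  refine tendsto_of_tendsto_of_tendsto_of_le_of_le tendsto_const_nhds (hy' e' he') (fun k => FSp.pb_nonneg _ _)
    (fun k => FSp.pb_mono _ ?_)
  intro ω _ h2 h3
  apply h2
  refine le_trans ?_ h3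
  apply Real.rpow_le_rpow_of_exponent_le (by norm_num)
  have := (S.F k).pos
  nlinarith

end

end Pool.Agent.Helper89.LX
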