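import Pool.Agent.Helper89.LX.Nji
import Pool.Agent.Helper42.NS.Xp

/-! THEOREM X' (LEAF 5), complete: with LEMMA NJ. -/

set_option autoImplicit false

namespace Pool.Agent.Helper89.LX

open Finset Filter Topology Matrix Pool.Agent.Helper69.RK Pool.Agent.Helper31.EC Pool.Agent.Helper40.EL
open Pool.Agent.Helper31.EC.Sp
open Pool.Agent.Helper95.LF Pool.Agent.Helper3.LF Pool.Agent.Helper42.NS Pool.Agent.Helper52.KP

noncomputable section

variable {S : Sp} {m : ℕ}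

/-- NO JUMP in terms of `c_*` -/
theorem cst_lt {D : ℕ} {s : Sys S m} (hR : RobH s) (h0 : 0 < cst s D 1) (h1 : cst s D 1 < 1) (hD : 1 ≤ D)
    {κ : Lab S} (hκ : IsKap s (cst s D 1) κ)
    (hfull : (m - 1) * (1 - cst s D 1) ≤ h (up1 κ (s.P.dg 1)) (up1 κ s.T)) (l : ℝ) (hl : l < 1) :
    cst s D l < cst s D 1 := by
  obtain ⟨δ, hδ, H⟩ := no_jump h0.le h1 hR (Hf_cst hD le_rfl) hκ hfull (1 - l) (by linarith)
  set c' : ℝ := max 0 (cst s D 1 - δ / 2) with hc'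
  have h2 : c' < cst s D 1 := max_lt h0 (by linarith)
  have h3 : cst s D 1 - δ < c' := lt_of_lt_of_le (by linarith) (le_max_right _ _)
  have h4 := H c' h3 h2 (le_max_left _ _)
  have h5 : 1 - (1 - l) = l := by ring
  rw [h5] at h4
  exact lt_of_le_of_lt (cst_le (le_max_left _ _) h4) h2

/-- THEOREM X': a robust system whose containers `K | κ_(c₀)`, `c₀ = c_*(1) > 0`, are full hypersurfaces has
`h(P_1|t) - h(P_l|t) > (m - 1)(1 - l)` for all `l < 1` -/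
theorem xp (m : ℕ) : ∃ D0 : ℕ, ∀ D : ℕ, D0 ≤ D → ∀ (S : Sp) (s : Sys S m), RobustI s → RobH s →
    0 < cst s D 1 → cst s D 1 < 1 → ∀ κ : Lab S, IsKap s (cst s D 1) κ →
    (m - 1) * (1 - cst s D 1) ≤ h (up1 κ (s.P.dg 1)) (up1 κ s.T) →
    ∀ l : ℝ, 0 ≤ l → l < 1 → (m - 1) * (1 - l) < h (s.P.dg 1) s.T - h (s.P.dg l) s.T := by
  obtain ⟨D0, H⟩ := xp_strict m (1 / 2) (by norm_num) (by norm_num)
  refine ⟨max D0 1, fun D hD S s hs hR h0 h1 κ hκ hf l hl0 hl1 => ?_⟩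
  exact H D ((le_max_left _ _).trans hD) S s hs κ hκ hf l hl0 hl1.le
    (cst_lt hR h0 h1 ((le_max_right _ _).trans hD) hκ hf l hl1)

end

end Pool.Agent.Helper89.LX
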